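import Pool.Agent.H79.RV.Stm

/-!
# MP_a7284e_an, project RV: row V0, basic facts on conditional expectations
-/

set_option autoImplicit false

namespace Pool.Agent.H79.RV

open Finset Classical
open Pool.Agent.H79.RT Pool.Agent.H79.RU

variable {n m : ℕ}

/-! ### mixing -/

theorem c2_mix_fl {i l : ℕ} (h : i ≤ l) (x u : Q n) : mix i (fl l x) u = mix i x u := by
  funext k
  unfold mix
  by_cases hk : (k : ℕ) < i
  · rw [if_pos hk, if_pos hk]
    unfold fl
    rw [if_neg (by omega)]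
  · rw [if_neg hk, if_neg hk]

theorem c2_mix_mix (i : ℕ) (x u : Q n) : mix i (mix i x u) (mix i u x) = x := by
  funext k
  unfold mix
  by_cases hk : (k : ℕ) < i
  · rw [if_pos hk, if_pos hk]
  · rw [if_neg hk, if_neg hk]

/-- a function with `Inv i` does not see the mixing -/
theorem c2_inv_mix {α : Type*} {i : ℕ} {b : Q n → α} (h : Inv i b) (x u : Q n) :
    b (mix i x u) = b x := by
  refine h.congr fun l hl => ?_
  unfold mix
  rw [if_pos hl]

/-- averaging over the mixed point -/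
theorem c2_av_mix (i : ℕ) (F : Q n → ℝ) : av (fun x => av fun u => F (mix i x u)) = av F := by
  have h1 : ∑ x : Q n, ∑ u : Q n, F (mix i x u) = ∑ x : Q n, ∑ _u : Q n, F x := by
    have h2 := Fintype.sum_prod_type (fun p : Q n × Q n => F (mix i p.1 p.2))
    have h3 := Fintype.sum_prod_type (fun p : Q n × Q n => F p.1)
    rw [← h2, ← h3]
    exact Equiv.sum_comp (⟨fun p => (mix i p.1 p.2, mix i p.2 p.1),
      fun p => (mix i p.1 p.2, mix i p.2 p.1),
      fun p => Prod.ext (c2_mix_mix i p.1 p.2) (c2_mix_mix i p.2 p.1),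
      fun p => Prod.ext (c2_mix_mix i p.1 p.2) (c2_mix_mix i p.2 p.1)⟩ :
        (Q n × Q n) ≃ (Q n × Q n)) (fun p : Q n × Q n => F p.1)
  have h4 : av (fun x => av fun _ : Q n => F x) = av F := by
    congr 1
    funext x
    exact av_const (F x)
  rw [← h4]
  unfold av
  rw [← sum_div, ← sum_div, h1]

/-- averaging over two mixed points -/
theorem c2_avg (i j : ℕ) (G : Q n → Q m → ℝ) :
    av2 (fun x y => av2 fun u v => G (mix i x u) (mix j y v)) = av2 G := by
  have h1 : ∀ x : Q n, av (fun y : Q m => av2 fun u v => G (mix i x u) (mix j y v)) =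
      av (fun u => av (G (mix i x u))) := by
    intro x
    have h2 := av2_swap (fun (y : Q m) (u : Q n) => av fun v => G (mix i x u) (mix j y v))
    have h3 : av2 (fun (u : Q n) (y : Q m) => av fun v => G (mix i x u) (mix j y v)) =
        av (fun u => av (G (mix i x u))) := by
      unfold av2
      congr 1
      funext u
      exact c2_av_mix j (G (mix i x u))
    exact h2.trans h3
  have h4 : av2 (fun x y => av2 fun u v => G (mix i x u) (mix j y v)) =
      av (fun x => av fun u => av (G (mix i x u))) := by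
    show av (fun x => av (fun y => av2 fun u v => G (mix i x u) (mix j y v))) = _
    congr 1
    funext x
    exact h1 x
  rw [h4]
  exact c2_av_mix i (fun x => av (G x))

theorem c2_abs_av2 (F : Q n → Q m → ℝ) : |av2 F| ≤ av2 fun x y => |F x y| := by
  rw [abs_le]
  constructor
  · have h1 : av2 (fun x y => (-1) * |F x y|) ≤ av2 F :=
      av2_mono fun x y => by
        have := neg_abs_le (F x y)
        linarith
    rw [av2_mul_left] at h1
    linarith
  · exact av2_mono fun x y => le_abs_self _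

/-- V0 -/
theorem sc2 : SC2 := by
  intro n m i j
  refine ⟨fun F => ⟨fun y l hl x => ?_, fun x l hl y => ?_⟩, fun F b hb => ?_, fun F G h x y => ?_,
    fun F G x y => ?_, fun F x y => ?_⟩
  · show c2 i j F (fl l x) y = c2 i j F x y
    unfold c2
    simp only [c2_mix_fl hl]
  · unfold c2
    simp only [c2_mix_fl hl]
  · rw [← c2_avg i j fun x y => F x y * b x y]
    congr 1
    funext x y
    have h1 : ∀ (u : Q n) (v : Q m), b (mix i x u) (mix j y v) = b x y := fun u v => by
      rw [c2_inv_mix (hb.2 (mix i x u)) y v]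
      exact c2_inv_mix (hb.1 y) x u
    unfold c2
    have h2 : (fun (u : Q n) (v : Q m) => F (mix i x u) (mix j y v) *
        b (mix i x u) (mix j y v)) = fun u v => b x y * F (mix i x u) (mix j y v) := by
      funext u v
      rw [h1, mul_comm]
    rw [h2, av2_mul_left, mul_comm]
  · exact av2_mono fun u v => h _ _
  · exact av2_add _ _
  · exact c2_abs_av2 _

/-! ### conditional expectations given a map -/

section ce

variable {Ω α β : Type*} [Fintype Ω]

theorem ind_nonneg (p : Prop) : 0 ≤ ind p := by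
  unfold ind
  split_ifs <;> norm_num

theorem ind_pos {p : Prop} (h : p) : ind p = 1 := by
  unfold ind
  rw [if_pos h]

theorem ind_neg {p : Prop} (h : ¬p) : ind p = 0 := by
  unfold ind
  rw [if_neg h]

theorem ind_mul_self (p : Prop) : ind p * ind p = ind p := by
  by_cases h : p
  · rw [ind_pos h, one_mul]
  · rw [ind_neg h, zero_mul]

theorem ind_congr {p q : Prop} (h : p ↔ q) : ind p = ind q := by
  rw [propext h]

theorem nn_ge_one (K : Ω → α) (x : Ω) : 1 ≤ nn K x := by
  unfold nn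
  calc (1 : ℝ) = ind (K x = K x) := (ind_pos rfl).symm
    _ ≤ ∑ x', ind (K x' = K x) :=
      single_le_sum (f := fun x' => ind (K x' = K x)) (fun x' _ => ind_nonneg _) (mem_univ x)

theorem nn_congr {K : Ω → α} {x x' : Ω} (h : K x = K x') : nn K x = nn K x' := by
  unfold nn
  rw [h]

theorem ce_congr {K : Ω → α} (f : Ω → ℝ) {x x' : Ω} (h : K x = K x') :
    ce K f x = ce K f x' := by
  unfold ce nn
  rw [h]

theorem ce_sum (K : Ω → α) (f g : Ω → ℝ) (hg : ∀ x x', K x = K x' → g x = g x') :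
    ∑ x, ce K f x * g x = ∑ x, f x * g x := by
  have h1 : ∀ x, ce K f x * g x =
      ∑ x', ind (K x = K x') * (f x' * g x' / nn K x') := by
    intro x
    unfold ce
    rw [sum_div, sum_mul]
    refine sum_congr rfl fun x' _ => ?_
    by_cases h : K x' = K x
    · rw [ind_pos h, ind_pos h.symm, hg x' x h, nn_congr h]
      ring
    · rw [ind_neg h, ind_neg fun h' => h h'.symm]
      ring
  rw [sum_congr rfl fun x _ => h1 x, sum_comm]
  refine sum_congr rfl fun x' _ => ?_
  rw [← sum_mul]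
  have h2 : ∑ x, ind (K x = K x') = nn K x' := rfl
  have h3 : nn K x' ≠ 0 := by
    have := nn_ge_one K x'
    positivity
  rw [h2, mul_div_assoc']
  field_simp

theorem ce_mono (K : Ω → α) {f g : Ω → ℝ} (h : ∀ x, f x ≤ g x) (x : Ω) :
    ce K f x ≤ ce K g x := by
  have h1 := nn_ge_one K x
  unfold ce
  exact div_le_div_of_nonneg_right
    (sum_le_sum fun x' _ => mul_le_mul_of_nonneg_left (h x') (ind_nonneg _)) (by linarith)

theorem ce_add (K : Ω → α) (f g : Ω → ℝ) (x : Ω) :
    ce K (fun x => f x + g x) x = ce K f x + ce K g x := by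
  unfold ce
  rw [← add_div, ← sum_add_distrib]
  congr 1
  exact sum_congr rfl fun x' _ => mul_add _ _ _

theorem ce_mul_left (K : Ω → α) (c : ℝ) (f : Ω → ℝ) (x : Ω) :
    ce K (fun x => c * f x) x = c * ce K f x := by
  unfold ce
  rw [mul_div_assoc', mul_sum]
  congr 1
  exact sum_congr rfl fun x' _ => by ring

theorem ce_sq (K : Ω → α) (f : Ω → ℝ) (x : Ω) :
    ce K f x ^ 2 ≤ ce K (fun x => f x ^ 2) x := by
  have h1 := nn_ge_one K x
  have h0 : 0 < nn K x := by linarith
  unfold ce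
  rw [div_pow, div_le_div_iff₀ (by positivity) h0]
  have h2 : (∑ x', ind (K x' = K x) * f x') ^ 2 ≤
      nn K x * ∑ x', ind (K x' = K x) * f x' ^ 2 := by
    have h3 := sum_mul_sq_le_sq_mul_sq univ (fun x' => ind (K x' = K x))
      (fun x' => ind (K x' = K x) * f x')
    have h4 : ∑ x', ind (K x' = K x) * (ind (K x' = K x) * f x') =
        ∑ x', ind (K x' = K x) * f x' :=
      sum_congr rfl fun x' _ => by rw [← mul_assoc, ind_mul_self]
    have h5 : ∑ x', ind (K x' = K x) ^ 2 = nn K x :=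
      sum_congr rfl fun x' _ => by rw [sq, ind_mul_self]
    have h6 : ∑ x', (ind (K x' = K x) * f x') ^ 2 = ∑ x', ind (K x' = K x) * f x' ^ 2 :=
      sum_congr rfl fun x' _ => by rw [mul_pow, sq (ind _), ind_mul_self]
    rw [h4, h5, h6] at h3
    exact h3
  nlinarith

theorem ce_abs (K : Ω → α) (f : Ω → ℝ) (x : Ω) : |ce K f x| ≤ ce K (fun x => |f x|) x := by
  rw [abs_le]
  constructor
  · have h1 := ce_mono K (f := fun x => (-1) * |f x|) (g := f)
      (fun x => by
        have := neg_abs_le (f x)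
        linarith) x
    rw [ce_mul_left] at h1
    linarith
  · exact ce_mono K (fun x => le_abs_self _) x

theorem ce_ce {K₁ : Ω → α} {K₂ : Ω → β} (h : ∀ x x', K₂ x = K₂ x' → K₁ x = K₁ x')
    (f : Ω → ℝ) (x : Ω) : ce K₁ (ce K₂ f) x = ce K₁ f x := by
  have h1 := ce_sum K₂ f (fun x' => ind (K₁ x' = K₁ x)) fun x' x'' hx => by
    rw [h x' x'' hx]
  unfold ce at h1 ⊢
  congr 1
  calc _ = _ := sum_congr rfl fun x' _ => mul_comm _ _
    _ = _ := h1
    _ = _ := sum_congr rfl fun x' _ => mul_comm _ _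

/-- basic facts on `ce` -/
theorem ce_facts (K : Ω → α) :
    (∀ x, 1 ≤ nn K x) ∧
    (∀ (f : Ω → ℝ) (x x' : Ω), K x = K x' → ce K f x = ce K f x') ∧
    (∀ f g : Ω → ℝ, (∀ x x', K x = K x' → g x = g x') →
      ∑ x, ce K f x * g x = ∑ x, f x * g x) ∧
    (∀ f g : Ω → ℝ, (∀ x, f x ≤ g x) → ∀ x, ce K f x ≤ ce K g x) ∧
    (∀ (f g : Ω → ℝ) (x : Ω), ce K (fun x => f x + g x) x = ce K f x + ce K g x) ∧
    (∀ (c : ℝ) (f : Ω → ℝ) (x : Ω), ce K (fun x => c * f x) x = c * ce K f x) ∧
    (∀ (f : Ω → ℝ) (x : Ω), ce K f x ^ 2 ≤ ce K (fun x => f x ^ 2) x) ∧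
    (∀ (f : Ω → ℝ) (x : Ω), |ce K f x| ≤ ce K (fun x => |f x|) x) ∧
    (∀ (K₂ : Ω → β), (∀ x x', K₂ x = K₂ x' → K x = K x') →
      ∀ (f : Ω → ℝ) (x : Ω), ce K (ce K₂ f) x = ce K f x) :=
  ⟨nn_ge_one K, fun f _ _ h => ce_congr f h, fun f g h => ce_sum K f g h,
    fun _ _ h x => ce_mono K h x, fun f g x => ce_add K f g x,
    fun c f x => ce_mul_left K c f x, fun f x => ce_sq K f x, fun f x => ce_abs K f x,
    fun _ h f x => ce_ce h f x⟩

end ce

/-! ### the signs of the coordinates -/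

theorem sg_cases {i : ℕ} (h : i < n) (x : Q n) : sg i x = 1 ∨ sg i x = -1 := by
  unfold sg
  rw [dif_pos h]
  split_ifs
  · exact Or.inl rfl
  · exact Or.inr rfl

theorem sg_of_le {i : ℕ} (h : n ≤ i) (x : Q n) : sg i x = 0 := by
  unfold sg
  rw [dif_neg (by omega)]

theorem sg_sq {i : ℕ} (h : i < n) (x : Q n) : sg i x ^ 2 = 1 := by
  rcases sg_cases h x with h1 | h1 <;> rw [h1] <;> norm_num

theorem sg_abs_le (i : ℕ) (x : Q n) : |sg i x| ≤ 1 := by
  rcases lt_or_ge i n with h | h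
  · rcases sg_cases h x with h1 | h1 <;> rw [h1] <;> norm_num
  · rw [sg_of_le h]
    norm_num

theorem sg_od (i : ℕ) : Od i (sg (n := n) i) := by
  intro x
  rcases lt_or_ge i n with h | h
  · unfold sg
    rw [dif_pos h, dif_pos h]
    have h1 : fl i x ⟨i, h⟩ = !x ⟨i, h⟩ := by
      unfold fl
      rw [if_pos rfl]
    rw [h1]
    cases x ⟨i, h⟩ <;> simp
  · rw [sg_of_le h, sg_of_le h, neg_zero]

theorem sg_inv (i : ℕ) : Inv (i + 1) (sg (n := n) i) := by
  intro l hl x
  rcases lt_or_ge i n with h | h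
  · unfold sg
    rw [dif_pos h, dif_pos h]
    have h1 : fl l x ⟨i, h⟩ = x ⟨i, h⟩ := by
      unfold fl
      rw [if_neg (by show ¬(i = l); omega)]
    rw [h1]
  · rw [sg_of_le h, sg_of_le h]

theorem sg_mul_inv {i : ℕ} {F : Q n → ℝ} (h1 : Od i F) (h2 : Inv (i + 1) F) :
    Inv i fun x => sg i x * F x := by
  intro l hl x
  show sg i (fl l x) * F (fl l x) = sg i x * F x
  rcases Nat.eq_or_lt_of_le hl with h | h
  · rw [← h, sg_od i x, h1 x]
    ring
  · rw [sg_inv i l h x, h2 l h x]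

/-- basic facts on `sg` -/
theorem sg_facts (n i : ℕ) :
    (i < n → ∀ x : Q n, (sg i x = 1 ∨ sg i x = -1) ∧ sg i x ^ 2 = 1) ∧
    (n ≤ i → ∀ x : Q n, sg i x = 0) ∧
    (∀ x : Q n, |sg i x| ≤ 1) ∧
    Od i (sg (n := n) i) ∧
    Inv (i + 1) (sg (n := n) i) ∧
    (∀ F : Q n → ℝ, Od i F → Inv (i + 1) F → Inv i fun x => sg i x * F x) :=
  ⟨fun h x => ⟨sg_cases h x, sg_sq h x⟩, fun h x => sg_of_le h x, fun x => sg_abs_le i x,
    sg_od i, sg_inv i, fun _ h1 h2 => sg_mul_inv h1 h2⟩

end Pool.Agent.H79.RV
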