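import Pool.Agent.H79.RV.StmR
import Pool.Agent.H79.RU.NormU

/-!
# MP_a7284e_an, project RV, row P2: the norms of the rectangular pieces in terms of Haar
coefficients
-/

set_option autoImplicit false

namespace Pool.Agent.H79.RV

open MeasureTheory FourierTransform Filter Topology Finset Classical ENNReal
open Pool.Agent.H73.Hyp
open Pool.Agent.H79.RT Pool.Agent.H79.RU

/-- the integral over the plane of a function of two integer parts -/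
theorem aqt_lint2 (i j : ℤ) (φ : ℤ → ℤ → ℝ≥0∞) :
    ∫⁻ z : E2, φ ⌊(2 : ℝ) ^ i * z 0⌋ ⌊(2 : ℝ) ^ j * z 1⌋ =
      ∑' k : ℤ, ∑' l : ℤ, ENNReal.ofReal ((2 : ℝ) ^ (-i)) *
        (ENNReal.ofReal ((2 : ℝ) ^ (-j)) * φ k l) := by
  have hm : Measurable fun p : ℝ × ℝ => φ ⌊(2 : ℝ) ^ i * p.1⌋ ⌊(2 : ℝ) ^ j * p.2⌋ := by
    have h1 : Measurable fun p : ℤ × ℤ => φ p.1 p.2 := measurable_of_countable _
    exact h1.comp (((nu_mfloor i).comp measurable_fst).prodMk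
      ((nu_mfloor j).comp measurable_snd))
  have h1 := mxe_mp.lintegral_comp hm
  have h2 : ∫⁻ z : E2, φ ⌊(2 : ℝ) ^ i * z 0⌋ ⌊(2 : ℝ) ^ j * z 1⌋ =
      ∫⁻ p : ℝ × ℝ, φ ⌊(2 : ℝ) ^ i * p.1⌋ ⌊(2 : ℝ) ^ j * p.2⌋ := h1
  rw [h2]
  have h3 := lintegral_prod (μ := (volume : Measure ℝ)) (ν := (volume : Measure ℝ))
    (fun p : ℝ × ℝ => φ ⌊(2 : ℝ) ^ i * p.1⌋ ⌊(2 : ℝ) ^ j * p.2⌋) hm.aemeasurable
  have h4 : ∫⁻ p : ℝ × ℝ, φ ⌊(2 : ℝ) ^ i * p.1⌋ ⌊(2 : ℝ) ^ j * p.2⌋ =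
      ∫⁻ s : ℝ, ∫⁻ t : ℝ, φ ⌊(2 : ℝ) ^ i * s⌋ ⌊(2 : ℝ) ^ j * t⌋ := h3
  rw [h4]
  have h5 : ∀ s : ℝ, ∫⁻ t : ℝ, φ ⌊(2 : ℝ) ^ i * s⌋ ⌊(2 : ℝ) ^ j * t⌋ =
      (fun k : ℤ => ∑' l : ℤ, ENNReal.ofReal ((2 : ℝ) ^ (-j)) * φ k l) ⌊(2 : ℝ) ^ i * s⌋ :=
    fun s => nu_lint j (φ ⌊(2 : ℝ) ^ i * s⌋)
  simp only [h5]
  rw [nu_lint i fun k : ℤ => ∑' l : ℤ, ENNReal.ofReal ((2 : ℝ) ^ (-j)) * φ k l]
  exact tsum_congr fun k => ENNReal.tsum_mul_left.symm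

/-- the term of a dyadic rectangle -/
noncomputable def aqG (q : ℝ) (f : L2) (I J k l : ℤ) : ℝ≥0∞ :=
  ENNReal.ofReal ((2 : ℝ) ^ (-(I + J)) *
    ((2 : ℝ) ^ (((I + J : ℤ) : ℝ) / 2) * ‖cf f (I, k) (J, l)‖) ^ q)

theorem aqt_Aq (q : ℝ) (f : L2) :
    Aq q f = ∑' I : ℤ, ∑' J : ℤ, ∑' k : ℤ, ∑' l : ℤ, aqG q f I J k l := by
  unfold Aq
  rw [ENNReal.tsum_prod']
  refine tsum_congr fun I => ?_
  rw [ENNReal.tsum_comm]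
  rw [ENNReal.tsum_prod']
  refine tsum_congr fun J => ?_
  rw [ENNReal.tsum_comm]
  rfl

theorem aqt_half (I J : ℤ) : (2 : ℝ) ^ (((I + J : ℤ) : ℝ) / 2) =
    (2 : ℝ) ^ ((I : ℝ) / 2) * (2 : ℝ) ^ ((J : ℝ) / 2) := by
  rw [← Real.rpow_add (by norm_num)]
  congr 1
  push_cast
  ring

theorem aqt_piece (h : SHaar) (q : ℝ) (f : L2) (L L' i j : ℕ) :
    ∫⁻ z : E2, ENNReal.ofReal (‖bb L L' f i j z‖ ^ q) =
      ∑' k : ℤ, ∑' l : ℤ, aqG q f ((i : ℤ) - L) ((j : ℤ) - L') k l := by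
  have h1 : ∫⁻ z : E2, ENNReal.ofReal (‖bb L L' f i j z‖ ^ q) =
      ∫⁻ z : E2, (fun k l : ℤ => ENNReal.ofReal
        (((2 : ℝ) ^ (((((i : ℤ) - L) + ((j : ℤ) - L') : ℤ) : ℝ) / 2) *
          ‖cf f ((i : ℤ) - L, k) ((j : ℤ) - L', l)‖) ^ q))
        ⌊(2 : ℝ) ^ ((i : ℤ) - L) * z 0⌋ ⌊(2 : ℝ) ^ ((j : ℤ) - L') * z 1⌋ := by
    refine lintegral_congr_ae ?_
    filter_upwards [h f ((i : ℤ) - L) ((j : ℤ) - L')] with z hz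
    unfold bb
    rw [hz, aqt_half]
  have h2 := aqt_lint2 ((i : ℤ) - L) ((j : ℤ) - L') (fun k l : ℤ => ENNReal.ofReal
        (((2 : ℝ) ^ (((((i : ℤ) - L) + ((j : ℤ) - L') : ℤ) : ℝ) / 2) *
          ‖cf f ((i : ℤ) - L, k) ((j : ℤ) - L', l)‖) ^ q))
  refine h1.trans (h2.trans ?_)
  refine tsum_congr fun k => tsum_congr fun l => ?_
  unfold aqG
  rw [← ENNReal.ofReal_mul (by positivity), ← ENNReal.ofReal_mul (by positivity), ← mul_assoc,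
    ← zpow_add₀ (by norm_num : (2 : ℝ) ≠ 0), ← neg_add]

theorem aqt_sum_le (L n : ℕ) (g : ℤ → ℝ≥0∞) :
    ∑ i ∈ range n, g ((i : ℤ) - L) ≤ ∑' I : ℤ, g I := by
  have h3 := ENNReal.sum_le_tsum (f := g) ((range n).image fun i : ℕ => (i : ℤ) - L)
  rw [sum_image (fun x _ y _ hxy => by
    have h' : (x : ℤ) - L = (y : ℤ) - L := hxy
    omega)] at h3
  exact h3

/-- P2: the norms of the pieces in terms of Haar coefficients -/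
theorem aqT (h : SHaar) : SAq := by
  intro q _ f L L'
  simp only [aqt_piece h]
  rw [aqt_Aq]
  refine le_trans ?_ (aqt_sum_le L (2 * L)
    fun I => ∑' J : ℤ, ∑' k : ℤ, ∑' l : ℤ, aqG q f I J k l)
  exact sum_le_sum fun i _ => aqt_sum_le L' (2 * L')
    fun J => ∑' k : ℤ, ∑' l : ℤ, aqG q f ((i : ℤ) - L) J k l

end Pool.Agent.H79.RV
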