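import Pool.Agent.H79.RV.StmF
import Pool.Agent.H79.RV.AqT

/-!
# MP_a7284e_an, project RV, row F2: the pieces in terms of Haar coefficients, general weight
-/

set_option autoImplicit false

namespace Pool.Agent.H79.RV

open MeasureTheory FourierTransform Filter Topology Finset Classical ENNReal
open Pool.Agent.H73.Hyp
open Pool.Agent.H79.RT Pool.Agent.H79.RU

/-- the term of a dyadic rectangle -/
noncomputable def aftG (Φ : ℝ → ℝ) (f : L2) (I J k l : ℤ) : ℝ≥0∞ :=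
  ENNReal.ofReal ((2 : ℝ) ^ (-(I + J)) *
    Φ ((2 : ℝ) ^ (((I + J : ℤ) : ℝ) / 2) * ‖cf f (I, k) (J, l)‖))

theorem aft_AF (Φ : ℝ → ℝ) (f : L2) :
    AF Φ f = ∑' I : ℤ, ∑' J : ℤ, ∑' k : ℤ, ∑' l : ℤ, aftG Φ f I J k l := by
  unfold AF
  rw [ENNReal.tsum_prod']
  refine tsum_congr fun I => ?_
  rw [ENNReal.tsum_comm]
  rw [ENNReal.tsum_prod']
  refine tsum_congr fun J => ?_
  rw [ENNReal.tsum_comm]
  rfl

theorem aft_piece (h : SHaar) (Φ : ℝ → ℝ) (f : L2) (L L' i j : ℕ) :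
    ∫⁻ z : E2, ENNReal.ofReal (Φ ‖bb L L' f i j z‖) =
      ∑' k : ℤ, ∑' l : ℤ, aftG Φ f ((i : ℤ) - L) ((j : ℤ) - L') k l := by
  have h1 : ∫⁻ z : E2, ENNReal.ofReal (Φ ‖bb L L' f i j z‖) =
      ∫⁻ z : E2, (fun k l : ℤ => ENNReal.ofReal
        (Φ ((2 : ℝ) ^ (((((i : ℤ) - L) + ((j : ℤ) - L') : ℤ) : ℝ) / 2) *
          ‖cf f ((i : ℤ) - L, k) ((j : ℤ) - L', l)‖)))
        ⌊(2 : ℝ) ^ ((i : ℤ) - L) * z 0⌋ ⌊(2 : ℝ) ^ ((j : ℤ) - L') * z 1⌋ := by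
    refine lintegral_congr_ae ?_
    filter_upwards [h f ((i : ℤ) - L) ((j : ℤ) - L')] with z hz
    unfold bb
    rw [hz, aqt_half]
  have h2 := aqt_lint2 ((i : ℤ) - L) ((j : ℤ) - L') (fun k l : ℤ => ENNReal.ofReal
        (Φ ((2 : ℝ) ^ (((((i : ℤ) - L) + ((j : ℤ) - L') : ℤ) : ℝ) / 2) *
          ‖cf f ((i : ℤ) - L, k) ((j : ℤ) - L', l)‖)))
  refine h1.trans (h2.trans ?_)
  refine tsum_congr fun k => tsum_congr fun l => ?_
  unfold aftG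
  rw [← ENNReal.ofReal_mul (by positivity), ← ENNReal.ofReal_mul (by positivity), ← mul_assoc,
    ← zpow_add₀ (by norm_num : (2 : ℝ) ≠ 0), ← neg_add]

/-- F2: the pieces in terms of Haar coefficients, general weight -/
theorem aft (h : SHaar) : SAF := by
  intro Φ _ _ f L L'
  simp only [aft_piece h]
  rw [aft_AF]
  refine le_trans ?_ (aqt_sum_le L (2 * L)
    fun I => ∑' J : ℤ, ∑' k : ℤ, ∑' l : ℤ, aftG Φ f I J k l)
  exact sum_le_sum fun i _ => aqt_sum_le L' (2 * L')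
    fun J => ∑' k : ℤ, ∑' l : ℤ, aftG Φ f ((i : ℤ) - L) J k l

end Pool.Agent.H79.RV
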