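import Pool.Agent.H79.RV.Stm
import Pool.Agent.H79.RT.Basic

/-!
# MP_a7284e_an, project RV: V5, sites that contain the top marked site
-/

set_option autoImplicit false

namespace Pool.Agent.H79.RV

open Finset Classical
open Pool.Agent.H79.RT Pool.Agent.H79.RU

variable {n m : ℕ}

/-- a positive value of `tp` is the time of a marked site -/
theorem dp_top {τ : ℕ → ℕ → ℕ} {μ : ℕ → ℕ → Q n → Q m → Prop} {T : Q n → Q m → ℕ} {a b : ℕ}
    {x : Q n} {y : Q m} (h : 0 < tp τ μ T a b x y) :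
    ∃ p < a, ∃ q < b, μ p q x y ∧ τ p q ≤ T x y ∧ tp τ μ T a b x y = τ p q := by
  unfold tp at h ⊢
  have hne : ((range a ×ˢ range b).filter fun p =>
      μ p.1 p.2 x y ∧ τ p.1 p.2 ≤ T x y).Nonempty := by
    by_contra hc
    rw [not_nonempty_iff_eq_empty] at hc
    rw [hc, sup_empty] at h
    exact absurd h (lt_irrefl _)
  obtain ⟨p, hp, he⟩ := exists_mem_eq_sup _ hne fun p : ℕ × ℕ => τ p.1 p.2
  have hp2 := mem_filter.1 hp
  have hp3 := mem_product.1 hp2.1
  exact ⟨p.1, mem_range.1 hp3.1, p.2, mem_range.1 hp3.2, hp2.2.1, hp2.2.2, he⟩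

/-- `tp` is at least the time of every marked site -/
theorem dp_le {τ : ℕ → ℕ → ℕ} {μ : ℕ → ℕ → Q n → Q m → Prop} {T : Q n → Q m → ℕ} {a b p q : ℕ}
    {x : Q n} {y : Q m} (hp : p < a) (hq : q < b) (hm : μ p q x y) (hT : τ p q ≤ T x y) :
    τ p q ≤ tp τ μ T a b x y := by
  unfold tp
  exact le_sup (f := fun p : ℕ × ℕ => τ p.1 p.2) (mem_filter.2
    ⟨mem_product.2 ⟨mem_range.2 hp, mem_range.2 hq⟩, hm, hT⟩ : ((p, q) : ℕ × ℕ) ∈ _)

/-- `tp` increases -/
theorem dp_mono {τ : ℕ → ℕ → ℕ} {μ : ℕ → ℕ → Q n → Q m → Prop} {T : Q n → Q m → ℕ}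
    {a b a' b' : ℕ} {x : Q n} {y : Q m} (ha : a ≤ a') (hb : b ≤ b') :
    tp τ μ T a b x y ≤ tp τ μ T a' b' x y := by
  rcases Nat.eq_zero_or_pos (tp τ μ T a b x y) with h | h
  · omega
  · obtain ⟨p, hp, q, hq, h1, h2, h3⟩ := dp_top h
    rw [h3]
    exact dp_le (lt_of_lt_of_le hp ha) (lt_of_lt_of_le hq hb) h1 h2

/-- the region at a point where there is a marked site -/
theorem dp_iff {τ : ℕ → ℕ → ℕ} (hτ : Clk τ) {μ : ℕ → ℕ → Q n → Q m → Prop}
    {T : Q n → Q m → ℕ} {x : Q n} {y : Q m} {p q : ℕ} (hp : p < n) (hq : q < m)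
    (hm : μ p q x y) (hT : τ p q ≤ T x y) (he : tp τ μ T n m x y = τ p q) {i j : ℕ} (hi : i < n)
    (hj : j < m) :
    (τ i j < tp τ μ T n m x y ∧ tp τ μ T i m x y ≠ tp τ μ T n m x y ∧
      tp τ μ T n j x y ≠ tp τ μ T n m x y) ↔ (i ≤ p ∧ j ≤ q) ∧ ¬(i = p ∧ j = q) := by
  have hpos : 0 < τ p q := hτ.pos p q
  have h1 : tp τ μ T i m x y ≠ tp τ μ T n m x y ↔ i ≤ p := by
    constructor
    · intro h
      by_contra hc
      refine h (le_antisymm (dp_mono hi.le le_rfl) ?_)
      rw [he]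
      exact dp_le (not_le.1 hc) hq hm hT
    · intro h hc
      have h0 : 0 < tp τ μ T i m x y := by rw [hc, he]; exact hpos
      obtain ⟨p', hp', q', hq', h1, h2, h3⟩ := dp_top h0
      have h4 := (hτ.inj p' q' p q (by rw [← h3, hc, he])).1
      omega
  have h2 : tp τ μ T n j x y ≠ tp τ μ T n m x y ↔ j ≤ q := by
    constructor
    · intro h
      by_contra hc
      refine h (le_antisymm (dp_mono le_rfl hj.le) ?_)
      rw [he]
      exact dp_le hp (not_le.1 hc) hm hT
    · intro h hc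
      have h0 : 0 < tp τ μ T n j x y := by rw [hc, he]; exact hpos
      obtain ⟨p', hp', q', hq', h1, h2, h3⟩ := dp_top h0
      have h4 := (hτ.inj p' q' p q (by rw [← h3, hc, he])).2
      omega
  rw [h1, h2, he]
  constructor
  · rintro ⟨h3, h4, h5⟩
    refine ⟨⟨h4, h5⟩, ?_⟩
    rintro ⟨h6, h7⟩
    rw [h6, h7] at h3
    exact absurd h3 (lt_irrefl _)
  · rintro ⟨⟨h3, h4⟩, h5⟩
    refine ⟨?_, h3, h4⟩
    rcases Nat.lt_or_ge i p with h6 | h6
    · have h7 := hτ.mi i p j h6
      rcases Nat.lt_or_ge j q with h8 | h8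
      · exact h7.trans (hτ.mj p j q h8)
      · have h9 : j = q := by omega
        rw [h9] at h7 ⊢
        exact h7
    · have h7 : i = p := by omega
      have h8 : j < q := by
        rcases Nat.lt_or_ge j q with h8 | h8
        · exact h8
        · exact absurd ⟨h7, by omega⟩ h5
      rw [h7]
      exact hτ.mj p j q h8

/-- the sum over the region is a rectangular sum without its last term -/
theorem dp_sum (f : ℕ → ℕ → ℝ) {n m p q : ℕ} (hp : p < n) (hq : q < m) :
    ∑ i ∈ range n, ∑ j ∈ range m, f i j * ind ((i ≤ p ∧ j ≤ q) ∧ ¬(i = p ∧ j = q)) =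
      (∑ i ∈ range (p + 1), ∑ j ∈ range (q + 1), f i j) - f p q := by
  have hr : ∀ (g : ℕ → ℝ) (k l : ℕ), k < l →
      ∑ i ∈ range l, (if i ≤ k then g i else 0) = ∑ i ∈ range (k + 1), g i := by
    intro g k l hkl
    rw [← sum_filter]
    refine sum_congr ?_ fun _ _ => rfl
    ext i
    rw [mem_filter, mem_range, mem_range]
    omega
  have h1 : ∀ i j, f i j * ind ((i ≤ p ∧ j ≤ q) ∧ ¬(i = p ∧ j = q)) =
      (if i ≤ p then (if j ≤ q then f i j else 0) else 0) -
        if i = p then (if j = q then f i j else 0) else 0 := by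
    intro i j
    unfold ind
    by_cases h2 : i ≤ p
    · by_cases h3 : j ≤ q
      · by_cases h4 : i = p
        · by_cases h5 : j = q
          · rw [if_neg fun h => h.2 ⟨h4, h5⟩, if_pos h2, if_pos h3, if_pos h4, if_pos h5]
            ring
          · rw [if_pos ⟨⟨h2, h3⟩, fun h => h5 h.2⟩, if_pos h2, if_pos h3, if_pos h4, if_neg h5]
            ring
        · rw [if_pos ⟨⟨h2, h3⟩, fun h => h4 h.1⟩, if_pos h2, if_pos h3, if_neg h4]
          ring
      · rw [if_neg fun h => h3 h.1.2, if_pos h2, if_neg h3]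
        by_cases h4 : i = p
        · rw [if_pos h4, if_neg (by omega)]
          ring
        · rw [if_neg h4]
          ring
    · rw [if_neg fun h => h2 h.1.1, if_neg h2, if_neg (by omega)]
      ring
  calc _ = ∑ i ∈ range n, ((if i ≤ p then (∑ j ∈ range (q + 1), f i j) else 0) -
        if i = p then f i q else 0) := by
        refine sum_congr rfl fun i _ => ?_
        rw [sum_congr rfl fun j _ => h1 i j, sum_sub_distrib]
        congr 1
        · by_cases h2 : i ≤ p
          · rw [if_pos h2, ← hr (f i) q m hq]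
            exact sum_congr rfl fun j _ => by rw [if_pos h2]
          · rw [if_neg h2]
            exact sum_eq_zero fun j _ => by rw [if_neg h2]
        · by_cases h2 : i = p
          · rw [if_pos h2]
            have h3 : ∀ j ∈ range m, (if i = p then (if j = q then f i j else 0) else 0) =
                if j = q then f i j else 0 := fun j _ => by rw [if_pos h2]
            rw [sum_congr rfl h3, sum_ite_eq' (range m) q (f i), if_pos (mem_range.2 hq)]
          · rw [if_neg h2]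
            exact sum_eq_zero fun j _ => by rw [if_neg h2]
    _ = _ := by
        rw [sum_sub_distrib, hr (fun i => ∑ j ∈ range (q + 1), f i j) p n hp,
          sum_ite_eq' (range n) p fun i => f i q, if_pos (mem_range.2 hp)]

theorem dp_sg {n : ℕ} (i : ℕ) (x : Q n) : sg i x ^ 2 ≤ 1 := by
  unfold sg
  split_ifs <;> norm_num

/-- a single term is bounded by the square root of the energy -/
theorem dp_term (b : ℕ → ℕ → Q n → Q m → ℝ) (x : Q n) (y : Q m) {p q : ℕ} (hp : p < n)
    (hq : q < m) :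
    |sg p x * sg q y * b p q x y| ≤
      Real.sqrt (∑ i ∈ range n, ∑ j ∈ range m, b i j x y ^ 2) := by
  refine Real.abs_le_sqrt ?_
  have h1 : b p q x y ^ 2 ≤ ∑ i ∈ range n, ∑ j ∈ range m, b i j x y ^ 2 := by
    have h2 : b p q x y ^ 2 ≤ ∑ j ∈ range m, b p j x y ^ 2 :=
      single_le_sum (f := fun j => b p j x y ^ 2) (fun j _ => sq_nonneg _) (mem_range.2 hq)
    exact h2.trans (single_le_sum (f := fun i => ∑ j ∈ range m, b i j x y ^ 2)
      (fun i _ => sum_nonneg fun j _ => sq_nonneg _) (mem_range.2 hp))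
  have h3 := dp_sg p x
  have h4 := dp_sg q y
  have h5 : sg p x ^ 2 * sg q y ^ 2 ≤ 1 := mul_le_one₀ h3 (sq_nonneg _) h4
  calc (sg p x * sg q y * b p q x y) ^ 2 = sg p x ^ 2 * sg q y ^ 2 * b p q x y ^ 2 := by ring
    _ ≤ 1 * b p q x y ^ 2 := mul_le_mul_of_nonneg_right h5 (sq_nonneg _)
    _ ≤ _ := by rw [one_mul]; exact h1

/-- V5 -/
theorem deep (h : SRect) : SDeep := by
  obtain ⟨C, hC, h⟩ := h
  refine ⟨2 * (C + 1), by positivity, ?_⟩
  intro n m τ μ T b hτ _ hb
  obtain ⟨M, hM0, hM, hMn⟩ := h n m b hb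
  set N : Q n → Q m → ℝ := fun x y =>
    Real.sqrt (∑ i ∈ range n, ∑ j ∈ range m, b i j x y ^ 2) with hN
  set G : Q n → Q m → ℝ := fun x y => ∑ i ∈ range n, ∑ j ∈ range m,
    sg i x * sg j y * b i j x y * ind (τ i j < tp τ μ T n m x y ∧
      tp τ μ T i m x y ≠ tp τ μ T n m x y ∧ tp τ μ T n j x y ≠ tp τ μ T n m x y) with hG
  have hpair : pair b (fun i j x y => τ i j < tp τ μ T n m x y ∧
      tp τ μ T i m x y ≠ tp τ μ T n m x y ∧ tp τ μ T n j x y ≠ tp τ μ T n m x y) = av2 G := by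
    unfold pair
    rw [hG, av2_sum]
    refine sum_congr rfl fun i _ => ?_
    rw [av2_sum]
  have hpt : ∀ x y, G x y = ind (0 < T x y) * G x y ∧ |G x y| ≤ M x y + N x y := by
    intro x y
    have hN0 : 0 ≤ N x y := Real.sqrt_nonneg _
    rcases Nat.eq_zero_or_pos (tp τ μ T n m x y) with h0 | h0
    · have hG0 : G x y = 0 := by
        rw [hG]
        refine sum_eq_zero fun i _ => sum_eq_zero fun j _ => ?_
        unfold ind
        rw [if_neg (fun h => by rw [h0] at h; exact absurd h.1 (Nat.not_lt_zero _)), mul_zero]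
      rw [hG0, mul_zero, abs_zero]
      exact ⟨rfl, add_nonneg (hM0 x y) hN0⟩
    · obtain ⟨p, hp, q, hq, h1, h2, h3⟩ := dp_top h0
      have hT : 0 < T x y := (hτ.pos p q).trans_le h2
      have hI : ind (0 < T x y) = 1 := if_pos hT
      refine ⟨by rw [hI, one_mul], ?_⟩
      have hGe : G x y = (∑ i ∈ range (p + 1), ∑ j ∈ range (q + 1),
          sg i x * sg j y * b i j x y) - sg p x * sg q y * b p q x y := by
        rw [← dp_sum (fun i j => sg i x * sg j y * b i j x y) hp hq, hG]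
        refine sum_congr rfl fun i hi => sum_congr rfl fun j hj => ?_
        have h4 := dp_iff hτ hp hq h1 h2 h3 (mem_range.1 hi) (mem_range.1 hj)
        rw [propext h4]
      rw [hGe]
      refine (abs_sub _ _).trans (add_le_add ?_ (dp_term b x y hp hq))
      exact hM x y (p + 1) hp (q + 1) hq
  have hNn : av2 (fun x y => N x y ^ 2) = nrg b := by
    unfold nrg
    have h1 : (fun x y => N x y ^ 2) =
        fun (x : Q n) (y : Q m) => ∑ i ∈ range n, ∑ j ∈ range m, b i j x y ^ 2 := by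
      funext x y
      exact Real.sq_sqrt (sum_nonneg fun i _ => sum_nonneg fun j _ => sq_nonneg _)
    rw [h1, av2_sum]
    refine sum_congr rfl fun i _ => ?_
    rw [av2_sum]
  have hI2 : av2 (fun (x : Q n) (y : Q m) => ind (0 < T x y) ^ 2) = sup0 T := by
    unfold sup0
    congr 1
    funext x y
    unfold ind
    split_ifs <;> norm_num
  have hG2 : av2 (fun x y => G x y ^ 2) ≤ 2 * (C + 1) * nrg b := by
    have h1 : av2 (fun x y => G x y ^ 2) ≤ av2 fun x y => 2 * M x y ^ 2 + 2 * N x y ^ 2 := by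
      refine av2_mono fun x y => ?_
      have h2 := (hpt x y).2
      have h3 : G x y ^ 2 ≤ (M x y + N x y) ^ 2 := by
        rw [← sq_abs (G x y)]
        exact pow_le_pow_left₀ (abs_nonneg _) h2 2
      nlinarith [sq_nonneg (M x y - N x y)]
    rw [av2_add, av2_mul_left, av2_mul_left, hNn] at h1
    linarith
  have hs0 : 0 ≤ sup0 T := by
    unfold sup0
    refine av2_nonneg fun x y => ?_
    unfold ind
    split_ifs <;> norm_num
  rw [hpair]
  calc av2 G ^ 2 = (av2 fun x y => ind (0 < T x y) * G x y) ^ 2 := by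
        congr 2
        funext x y
        exact (hpt x y).1
    _ ≤ (av2 fun x y => ind (0 < T x y) ^ 2) * av2 fun x y => G x y ^ 2 := av2_cs _ _
    _ ≤ sup0 T * (2 * (C + 1) * nrg b) := by
        rw [hI2]
        exact mul_le_mul_of_nonneg_left hG2 hs0
    _ = _ := by ring

/-! ### second version -/

/-- the region at a point with a chosen site -/
theorem dp2_iff {τ : ℕ → ℕ → ℕ} (hτ : Clk τ) {S : ℕ → ℕ → Q n → Q m → Prop} (hS : Sng S)
    {x : Q n} {y : Q m} {p q : ℕ} (hpq : S p q x y) (i j : ℕ) :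
    (∃ a c, S a c x y ∧ i ≤ a ∧ j ≤ c ∧ τ i j < τ a c) ↔
      (i ≤ p ∧ j ≤ q) ∧ ¬(i = p ∧ j = q) := by
  constructor
  · rintro ⟨a, c, h1, h2, h3, h4⟩
    obtain ⟨h5, h6⟩ := hS.2 a c p q x y h1 hpq
    rw [h5] at h2 h4
    rw [h6] at h3 h4
    refine ⟨⟨h2, h3⟩, ?_⟩
    rintro ⟨h7, h8⟩
    rw [h7, h8] at h4
    exact absurd h4 (lt_irrefl _)
  · rintro ⟨⟨h3, h4⟩, h5⟩
    refine ⟨p, q, hpq, h3, h4, ?_⟩
    rcases Nat.lt_or_ge i p with h6 | h6
    · have h7 := hτ.mi i p j h6
      rcases Nat.lt_or_ge j q with h8 | h8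
      · exact h7.trans (hτ.mj p j q h8)
      · have h9 : j = q := by omega
        rw [h9] at h7 ⊢
        exact h7
    · have h7 : i = p := by omega
      have h8 : j < q := by
        rcases Nat.lt_or_ge j q with h8 | h8
        · exact h8
        · exact absurd ⟨h7, by omega⟩ h5
      rw [h7]
      exact hτ.mj p j q h8

/-- the number of chosen sites is one or zero -/
theorem dp2_ind {S : ℕ → ℕ → Q n → Q m → Prop} (hS : Sng S) (x : Q n) (y : Q m) :
    ∑ i ∈ range n, ∑ j ∈ range m, ind (S i j x y) = ind (∃ a c, S a c x y) := by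
  by_cases h : ∃ a c, S a c x y
  · obtain ⟨a, c, hac⟩ := h
    obtain ⟨ha, hc⟩ := hS.1 a c x y hac
    rw [sum_eq_single_of_mem a (mem_range.2 ha), sum_eq_single_of_mem c (mem_range.2 hc)]
    · unfold ind
      rw [if_pos hac, if_pos ⟨a, c, hac⟩]
    · intro j _ hj
      exact if_neg fun h1 => hj (hS.2 a j a c x y h1 hac).2
    · intro i _ hi
      refine sum_eq_zero fun j _ => ?_
      exact if_neg fun h1 => hi (hS.2 i j a c x y h1 hac).1
  · unfold ind
    rw [if_neg h]
    refine sum_eq_zero fun i _ => sum_eq_zero fun j _ => ?_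
    exact if_neg fun h1 => h ⟨i, j, h1⟩

/-- W5 -/
theorem deep2 (h : SRect) : SDeep2 := by
  obtain ⟨C, hC, h⟩ := h
  refine ⟨2 * (C + 1), by positivity, ?_⟩
  intro n m τ S b hτ hS hb
  obtain ⟨M, hM0, hM, hMn⟩ := h n m b hb
  set N : Q n → Q m → ℝ := fun x y =>
    Real.sqrt (∑ i ∈ range n, ∑ j ∈ range m, b i j x y ^ 2) with hN
  set G : Q n → Q m → ℝ := fun x y => ∑ i ∈ range n, ∑ j ∈ range m,
    sg i x * sg j y * b i j x y * ind (∃ a c, S a c x y ∧ i ≤ a ∧ j ≤ c ∧ τ i j < τ a c) with hG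
  have hpair : pair b (fun i j x y => ∃ a c, S a c x y ∧ i ≤ a ∧ j ≤ c ∧ τ i j < τ a c) =
      av2 G := by
    unfold pair
    rw [hG, av2_sum]
    refine sum_congr rfl fun i _ => ?_
    rw [av2_sum]
  have hpt : ∀ x y, G x y = ind (∃ a c, S a c x y) * G x y ∧ |G x y| ≤ M x y + N x y := by
    intro x y
    have hN0 : 0 ≤ N x y := Real.sqrt_nonneg _
    by_cases h0 : ∃ a c, S a c x y
    · have hI : ind (∃ a c, S a c x y) = 1 := if_pos h0
      refine ⟨by rw [hI, one_mul], ?_⟩
      obtain ⟨p, q, hpq⟩ := h0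
      obtain ⟨hp, hq⟩ := hS.1 p q x y hpq
      have hGe : G x y = (∑ i ∈ range (p + 1), ∑ j ∈ range (q + 1),
          sg i x * sg j y * b i j x y) - sg p x * sg q y * b p q x y := by
        rw [← dp_sum (fun i j => sg i x * sg j y * b i j x y) hp hq, hG]
        refine sum_congr rfl fun i hi => sum_congr rfl fun j hj => ?_
        rw [propext (dp2_iff hτ hS hpq i j)]
      rw [hGe]
      refine (abs_sub _ _).trans (add_le_add ?_ (dp_term b x y hp hq))
      exact hM x y (p + 1) hp (q + 1) hq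
    · have hG0 : G x y = 0 := by
        rw [hG]
        refine sum_eq_zero fun i _ => sum_eq_zero fun j _ => ?_
        unfold ind
        rw [if_neg (fun h => h0 (by obtain ⟨a, c, h1, _⟩ := h; exact ⟨a, c, h1⟩)), mul_zero]
      rw [hG0, mul_zero, abs_zero]
      exact ⟨rfl, add_nonneg (hM0 x y) hN0⟩
  have hNn : av2 (fun x y => N x y ^ 2) = nrg b := by
    unfold nrg
    have h1 : (fun x y => N x y ^ 2) =
        fun (x : Q n) (y : Q m) => ∑ i ∈ range n, ∑ j ∈ range m, b i j x y ^ 2 := by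
      funext x y
      exact Real.sq_sqrt (sum_nonneg fun i _ => sum_nonneg fun j _ => sq_nonneg _)
    rw [h1, av2_sum]
    refine sum_congr rfl fun i _ => ?_
    rw [av2_sum]
  have hI2 : av2 (fun (x : Q n) (y : Q m) => ind (∃ a c, S a c x y) ^ 2) = cnt S := by
    have h1 : (fun (x : Q n) (y : Q m) => ind (∃ a c, S a c x y) ^ 2) =
        fun x y => ∑ i ∈ range n, ∑ j ∈ range m, ind (S i j x y) := by
      funext x y
      rw [dp2_ind hS x y]
      unfold ind
      split_ifs <;> norm_num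
    unfold cnt
    rw [h1, av2_sum]
    refine sum_congr rfl fun i _ => ?_
    rw [av2_sum]
  have hG2 : av2 (fun x y => G x y ^ 2) ≤ 2 * (C + 1) * nrg b := by
    have h1 : av2 (fun x y => G x y ^ 2) ≤ av2 fun x y => 2 * M x y ^ 2 + 2 * N x y ^ 2 := by
      refine av2_mono fun x y => ?_
      have h2 := (hpt x y).2
      have h3 : G x y ^ 2 ≤ (M x y + N x y) ^ 2 := by
        rw [← sq_abs (G x y)]
        exact pow_le_pow_left₀ (abs_nonneg _) h2 2
      nlinarith [sq_nonneg (M x y - N x y)]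
    rw [av2_add, av2_mul_left, av2_mul_left, hNn] at h1
    linarith
  have hs0 : 0 ≤ cnt S := by
    rw [← hI2]
    exact av2_nonneg fun x y => sq_nonneg _
  rw [hpair]
  calc av2 G ^ 2 = (av2 fun x y => ind (∃ a c, S a c x y) * G x y) ^ 2 := by
        congr 2
        funext x y
        exact (hpt x y).1
    _ ≤ (av2 fun x y => ind (∃ a c, S a c x y) ^ 2) * av2 fun x y => G x y ^ 2 := av2_cs _ _
    _ ≤ cnt S * (2 * (C + 1) * nrg b) := by
        rw [hI2]
        exact mul_le_mul_of_nonneg_left hG2 hs0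
    _ = _ := by ring

end Pool.Agent.H79.RV
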