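import Pool.Agent.H79.RV.Stm

/-!
# MP_a7284e_an, project RV, row V3: the one-parameter inequality in dual form
-/

set_option autoImplicit false

namespace Pool.Agent.H79.RV

open Finset Classical
open Pool.Agent.H79.RT Pool.Agent.H79.RU

theorem du_nn_pos {Ω α : Type*} [Fintype Ω] (K : Ω → α) (x : Ω) : 0 < nn K x := by
  unfold nn ind
  refine lt_of_lt_of_le one_pos ?_
  refine le_trans ?_ (single_le_sum (f := fun x' => if K x' = K x then (1 : ℝ) else 0)
    (fun i _ => by split_ifs <;> norm_num) (mem_univ x))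
  simp

theorem du_nn_congr {Ω α : Type*} [Fintype Ω] (K : Ω → α) {x x' : Ω} (h : K x = K x') :
    nn K x = nn K x' := by
  unfold nn; rw [h]

/-- averaging against a function that is constant on the classes -/
theorem du_ce {Ω α : Type*} [Fintype Ω] (K : Ω → α) (f W : Ω → ℝ)
    (hW : ∀ x x', K x = K x' → W x = W x') : ∑ x, ce K f x * W x = ∑ x, f x * W x := by
  have h1 : ∀ x, ce K f x * W x = ∑ x', ind (K x' = K x) * (f x' * W x') / nn K x' := by
    intro x
    unfold ce
    rw [sum_div, sum_mul]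
    refine sum_congr rfl fun x' _ => ?_
    unfold ind
    split_ifs with h
    · rw [hW x' x h, du_nn_congr K h]; ring
    · simp
  simp_rw [h1]
  rw [sum_comm]
  refine sum_congr rfl fun x' _ => ?_
  have h2 : ∀ x, ind (K x' = K x) * (f x' * W x') / nn K x' =
      ind (K x = K x') * (f x' * W x' / nn K x') := by
    intro x
    have : ind (K x' = K x) = ind (K x = K x') := by
      unfold ind
      by_cases h : K x' = K x
      · rw [if_pos h, if_pos h.symm]
      · rw [if_neg h, if_neg fun h' => h h'.symm]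
    rw [this]; ring
  simp_rw [h2]
  rw [← sum_mul]
  have h3 : ∑ x, ind (K x = K x') = nn K x' := rfl
  rw [h3]
  field_simp [(du_nn_pos K x').ne']

/-- Cauchy-Schwarz for a sum of averages -/
theorem du_cs {n : ℕ} (s : Finset ℕ) (g W : ℕ → Q n → ℝ) :
    (∑ i ∈ s, av fun x => g i x * W i x) ^ 2 ≤
      (∑ i ∈ s, av fun x => g i x ^ 2) * ∑ i ∈ s, av fun x => W i x ^ 2 := by
  have key : ∀ H : ℕ → Q n → ℝ, ∑ i ∈ s, av (H i) =
      (∑ p ∈ s ×ˢ (univ : Finset (Q n)), H p.1 p.2) / 2 ^ n := by
    intro H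
    rw [sum_product, sum_div]
    rfl
  have e1 := key fun i x => g i x * W i x
  have e2 := key fun i x => g i x ^ 2
  have e3 := key fun i x => W i x ^ 2
  rw [e1, e2, e3, div_pow, div_mul_div_comm, ← pow_two]
  exact div_le_div_of_nonneg_right (sum_mul_sq_le_sq_mul_sq _ _ _) (by positivity)

theorem du (h1 : SEnt) (h2 : SPot) : SDu := by
  intro n α K r χ W hR hB hχ hW
  have e : ∑ i ∈ range n, av (fun x => sg i x * ind (χ i x) * W i x) =
      ∑ i ∈ range n, av fun x => ce (K i) (fun x => sg i x * ind (χ i x)) x * W i x := by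
    refine sum_congr rfl fun i hi => ?_
    unfold av
    rw [du_ce (K i) (fun x => sg i x * ind (χ i x)) (W i) (hW i (mem_range.1 hi))]
  rw [e]
  refine (du_cs _ _ _).trans ?_
  refine mul_le_mul_of_nonneg_right ?_ (sum_nonneg fun i _ => av_nonneg fun x => sq_nonneg _)
  have a := h2 n α K χ hR hχ
  have b := h1 n α K r hR hB
  linarith

/-- second version -/
theorem du2 (h : SEnt2) : SDu2 := by
  intro n m v w W h1 h2 h3 h4 h5 hW
  have e : ∑ i ∈ range n, av (fun x => sg i x * W i x) =
      ∑ i ∈ range n, av fun x => ce (Kv v i) (sg i) x * W i x := by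
    refine sum_congr rfl fun i hi => ?_
    unfold av
    rw [du_ce (Kv v i) (sg i) (W i) (hW i (mem_range.1 hi))]
  rw [e]
  refine (du_cs _ _ _).trans ?_
  exact mul_le_mul_of_nonneg_right (h n m v w h1 h2 h3 h4 h5)
    (sum_nonneg fun i _ => av_nonneg fun x => sq_nonneg _)

end Pool.Agent.H79.RV
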