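import Pool.Agent.H79.RV.Stm
import Pool.Agent.H79.RV.C2

/-!
# MP_a7284e_an, project RV: the count theorem
-/

set_option autoImplicit false

namespace Pool.Agent.H79.RV

open Finset Classical
open Pool.Agent.H79.RT Pool.Agent.H79.RU

variable {n m : ℕ}

/-! ### the chosen site -/

/-- the site `(i, j)` is charged -/
def cqc (τ : ℕ → ℕ → ℕ) (T : Q n → Q m → ℕ) (κ : ℝ) (i j : ℕ) (x : Q n) (y : Q m) : Prop :=
  κ ≤ |dd τ T i j x y|

/-- the last charged site -/
def cqS (τ : ℕ → ℕ → ℕ) (T : Q n → Q m → ℕ) (κ : ℝ) (i j : ℕ) (x : Q n) (y : Q m) : Prop :=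
  i < n ∧ j < m ∧ cqc τ T κ i j x y ∧ τ i j ≤ T x y ∧
    ∀ a < n, ∀ c < m, cqc τ T κ a c x y → τ a c ≤ T x y → τ a c ≤ τ i j

theorem cq_sng {τ : ℕ → ℕ → ℕ} (hτ : Clk τ) (T : Q n → Q m → ℕ) (κ : ℝ) : Sng (cqS τ T κ) := by
  refine ⟨fun i j x y h => ⟨h.1, h.2.1⟩, fun i j i' j' x y h h' => ?_⟩
  refine hτ.inj i j i' j' (le_antisymm ?_ ?_)
  · exact h'.2.2.2.2 i h.1 j h.2.1 h.2.2.1 h.2.2.2.1
  · exact h.2.2.2.2 i' h'.1 j' h'.2.1 h'.2.2.1 h'.2.2.2.1

/-- a charged site that is switched on is the last one or there is a later one -/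
theorem cq_split {τ : ℕ → ℕ → ℕ} (hτ : Clk τ) (T : Q n → Q m → ℕ) (κ : ℝ) {i j : ℕ} {x : Q n}
    {y : Q m} (hi : i < n) (hj : j < m) (hc : cqc τ T κ i j x y) :
    ind (τ i j ≤ T x y) = ind (∃ a c, cqS τ T κ a c x y ∧ τ i j < τ a c) +
      ind (cqS τ T κ i j x y) := by
  have hu := cq_sng hτ T κ
  by_cases hT : τ i j ≤ T x y
  · rw [ind_pos hT]
    by_cases hS : cqS τ T κ i j x y
    · have hA : ¬∃ a c, cqS τ T κ a c x y ∧ τ i j < τ a c := by
        rintro ⟨a, c, h1, h2⟩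
        obtain ⟨h3, h4⟩ := hu.2 i j a c x y hS h1
        rw [h3, h4] at h2
        exact lt_irrefl _ h2
      rw [ind_neg hA, ind_pos hS]; ring
    · have hA : ∃ a c, cqS τ T κ a c x y ∧ τ i j < τ a c := by
        set W := (range n ×ˢ range m).filter fun p => cqc τ T κ p.1 p.2 x y ∧
          τ p.1 p.2 ≤ T x y with hW
        have hne : W.Nonempty := ⟨(i, j), by
          rw [hW, mem_filter, mem_product, mem_range, mem_range]; exact ⟨⟨hi, hj⟩, hc, hT⟩⟩
        obtain ⟨p, hp, hpm⟩ := W.exists_max_image (fun p => τ p.1 p.2) hne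
        rw [hW, mem_filter, mem_product, mem_range, mem_range] at hp
        have hSp : cqS τ T κ p.1 p.2 x y := by
          refine ⟨hp.1.1, hp.1.2, hp.2.1, hp.2.2, fun a ha c hc' h1 h2 => ?_⟩
          exact hpm (a, c) (by
            rw [hW, mem_filter, mem_product, mem_range, mem_range]; exact ⟨⟨ha, hc'⟩, h1, h2⟩)
        refine ⟨p.1, p.2, hSp, ?_⟩
        have h3 : τ i j ≤ τ p.1 p.2 := hSp.2.2.2.2 i hi j hj hc hT
        refine lt_of_le_of_ne h3 fun h4 => hS ?_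
        obtain ⟨h5, h6⟩ := hτ.inj _ _ _ _ h4
        rw [h5, h6]
        exact hSp
      rw [ind_pos hA, ind_neg hS]; ring
  · rw [ind_neg hT]
    have hS : ¬cqS τ T κ i j x y := fun h => hT h.2.2.2.1
    have hA : ¬∃ a c, cqS τ T κ a c x y ∧ τ i j < τ a c := by
      rintro ⟨a, c, h1, h2⟩
      exact hT (h2.le.trans h1.2.2.2.1)
    rw [ind_neg hA, ind_neg hS]; ring

theorem cq_prc (h0 : SC2) (τ : ℕ → ℕ → ℕ) (T : Q n → Q m → ℕ) (κ : ℝ) (i j : ℕ) :
    Pr i j (cqc τ T κ i j) := by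
  have h1 : Pr i j (dd τ T i j) := (h0 n m i j).1 _
  refine ⟨fun y l hl x => ?_, fun x l hl y => ?_⟩
  · show (κ ≤ |dd τ T i j (fl l x) y|) = (κ ≤ |dd τ T i j x y|)
    have h2 : dd τ T i j (fl l x) y = dd τ T i j x y := h1.1 y l hl x
    rw [h2]
  · show (κ ≤ |dd τ T i j x (fl l y)|) = (κ ≤ |dd τ T i j x y|)
    have h2 : dd τ T i j x (fl l y) = dd τ T i j x y := h1.2 x l hl y
    rw [h2]

/-- the coefficients -/
noncomputable def cqb (τ : ℕ → ℕ → ℕ) (T : Q n → Q m → ℕ) (κ : ℝ) (i j : ℕ) (x : Q n) (y : Q m) :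
    ℝ := ind (cqc τ T κ i j x y) * dd τ T i j x y

theorem cq_prb (h0 : SC2) (τ : ℕ → ℕ → ℕ) (T : Q n → Q m → ℕ) (κ : ℝ) (i j : ℕ) :
    Pr i j (cqb τ T κ i j) := by
  have h1 : Pr i j (dd τ T i j) := (h0 n m i j).1 _
  have h2 := cq_prc h0 τ T κ i j
  refine ⟨fun y l hl x => ?_, fun x l hl y => ?_⟩
  · have h3 : dd τ T i j (fl l x) y = dd τ T i j x y := h1.1 y l hl x
    have h4 : cqc τ T κ i j (fl l x) y = cqc τ T κ i j x y := h2.1 y l hl x
    show ind (cqc τ T κ i j (fl l x) y) * dd τ T i j (fl l x) y =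
      ind (cqc τ T κ i j x y) * dd τ T i j x y
    rw [h3, h4]
  · have h3 : dd τ T i j x (fl l y) = dd τ T i j x y := h1.2 x l hl y
    have h4 : cqc τ T κ i j x (fl l y) = cqc τ T κ i j x y := h2.2 x l hl y
    show ind (cqc τ T κ i j x (fl l y)) * dd τ T i j x (fl l y) =
      ind (cqc τ T κ i j x y) * dd τ T i j x y
    rw [h3, h4]

/-! ### the masses -/

theorem cq_c2_const (i j : ℕ) (c : ℝ) (x : Q n) (y : Q m) : c2 i j (fun _ _ => c) x y = c :=
  av2_const c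

theorem cq_mm_nonneg (h0 : SC2) (S : ℕ → ℕ → Q n → Q m → Prop) (i j : ℕ) (x : Q n) (y : Q m) :
    0 ≤ mm S i j x y := by
  have h := (h0 n m i j).2.2.1 (fun _ _ => 0) (fun x y => ind (S i j x y))
    (fun x y => ind_nonneg _) x y
  rw [cq_c2_const] at h
  exact h

theorem cq_mm_le (h0 : SC2) (S : ℕ → ℕ → Q n → Q m → Prop) (i j : ℕ) (x : Q n) (y : Q m) :
    mm S i j x y ≤ 1 := by
  have h := (h0 n m i j).2.2.1 (fun x y => ind (S i j x y)) (fun _ _ => 1)
    (fun x y => by unfold ind; split_ifs <;> norm_num) x y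
  rw [cq_c2_const] at h
  exact h

theorem cq_mm_av (h0 : SC2) (S : ℕ → ℕ → Q n → Q m → Prop) (i j : ℕ) :
    av2 (fun x y => mm S i j x y) = av2 fun x y => ind (S i j x y) := by
  have h := (h0 n m i j).2.1 (fun x y => ind (S i j x y)) (fun _ _ => 1)
    ⟨fun _ _ _ _ => rfl, fun _ _ _ _ => rfl⟩
  simp only [mul_one] at h
  exact h

theorem cq_mm_zero (h0 : SC2) (τ : ℕ → ℕ → ℕ) (T : Q n → Q m → ℕ) (κ : ℝ) {i j : ℕ} {x : Q n}
    {y : Q m} (hc : ¬cqc τ T κ i j x y) : mm (cqS τ T κ) i j x y = 0 := by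
  have h2 := cq_prc h0 τ T κ i j
  unfold mm c2
  have h3 : (fun (u : Q n) (v : Q m) => ind (cqS τ T κ i j (mix i x u) (mix j y v))) =
      fun _ _ => 0 := by
    funext u v
    refine ind_neg fun hS => hc ?_
    have h4 : cqc τ T κ i j (mix i x u) (mix j y v) = cqc τ T κ i j x (mix j y v) :=
      c2_inv_mix (h2.1 (mix j y v)) x u
    have h5 : cqc τ T κ i j x (mix j y v) = cqc τ T κ i j x y := c2_inv_mix (h2.2 x) y v
    have h6 := hS.2.2.1
    rw [h4, h5] at h6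
    exact h6
  rw [h3]
  exact av2_const 0

theorem cq_nml {z s : ℝ} (h0 : 0 ≤ z) (hs : 0 < s) :
    Real.negMulLog z ≤ z * Real.log (1 / s) + s := by
  rcases h0.eq_or_lt with h | h
  · rw [← h, Real.negMulLog_zero, zero_mul, zero_add]
    exact hs.le
  · have h1 : Real.log (s / z) ≤ s / z - 1 := Real.log_le_sub_one_of_pos (div_pos hs h)
    rw [Real.log_div hs.ne' h.ne'] at h1
    rw [one_div, Real.log_inv, Real.negMulLog]
    have h2 : z * (Real.log s - Real.log z) ≤ z * (s / z - 1) := mul_le_mul_of_nonneg_left h1 h.le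
    have h3 : z * (s / z - 1) = s - z := by field_simp
    rw [h3] at h2
    nlinarith

theorem cq_ent (h0 : SC2) (τ : ℕ → ℕ → ℕ) (T : Q n → Q m → ℕ) (κ : ℝ) {s : ℝ} (hs : 0 < s) :
    ent' (cqS τ T κ) ≤ Real.log (1 / s) * cnt (cqS τ T κ) + s * cnt (cqc τ T κ) := by
  unfold ent' cnt
  rw [mul_sum, mul_sum, ← sum_add_distrib]
  refine sum_le_sum fun i _ => ?_
  rw [mul_sum, mul_sum, ← sum_add_distrib]
  refine sum_le_sum fun j _ => ?_
  rw [← cq_mm_av h0, ← av2_mul_left, ← av2_mul_left, ← av2_add]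
  refine av2_mono fun x y => ?_
  by_cases hc : cqc τ T κ i j x y
  · rw [ind_pos hc]
    have h1 := cq_nml (cq_mm_nonneg h0 (cqS τ T κ) i j x y) hs
    linarith
  · rw [cq_mm_zero h0 τ T κ hc, ind_neg hc, Real.negMulLog_zero]
    simp

theorem cq_ent_nonneg (h0 : SC2) (S : ℕ → ℕ → Q n → Q m → Prop) : 0 ≤ ent' S := by
  unfold ent'
  exact sum_nonneg fun i _ => sum_nonneg fun j _ => av2_nonneg fun x y =>
    Real.negMulLog_nonneg (cq_mm_nonneg h0 S i j x y) (cq_mm_le h0 S i j x y)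

theorem cq_cnt_nonneg (S : ℕ → ℕ → Q n → Q m → Prop) : 0 ≤ cnt S := by
  unfold cnt
  exact sum_nonneg fun i _ => sum_nonneg fun j _ => av2_nonneg fun x y => ind_nonneg _

theorem cq_cnt_le {τ : ℕ → ℕ → ℕ} (hτ : Clk τ) (T : Q n → Q m → ℕ) (κ : ℝ) :
    cnt (cqS τ T κ) ≤ sup0 T := by
  have hu := cq_sng hτ T κ
  have h1 : cnt (cqS τ T κ) =
      av2 fun x y => ∑ i ∈ range n, ∑ j ∈ range m, ind (cqS τ T κ i j x y) := by
    unfold cnt
    rw [av2_sum]
    refine sum_congr rfl fun i _ => ?_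
    rw [av2_sum]
  rw [h1]
  unfold sup0
  refine av2_mono fun x y => ?_
  by_cases hS : ∃ a c, cqS τ T κ a c x y
  · obtain ⟨a, c, hS⟩ := hS
    have hT : 0 < T x y := (hτ.pos a c).trans_le hS.2.2.2.1
    rw [ind_pos hT]
    have h2 : ∀ i ∈ range n, ∑ j ∈ range m, ind (cqS τ T κ i j x y) ≤
        if i = a then 1 else 0 := by
      intro i _
      split_ifs with hia
      · calc ∑ j ∈ range m, ind (cqS τ T κ i j x y)
            ≤ ∑ j ∈ range m, if j = c then (1 : ℝ) else 0 := by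
              refine sum_le_sum fun j _ => ?_
              by_cases hj : cqS τ T κ i j x y
              · rw [ind_pos hj, if_pos (hu.2 i j a c x y hj hS).2]
              · rw [ind_neg hj]; split_ifs <;> norm_num
          _ ≤ 1 := by
              rw [sum_ite_eq']
              split_ifs <;> norm_num
      · refine le_of_eq (sum_eq_zero fun j _ => ind_neg fun hj => hia ?_)
        exact (hu.2 i j a c x y hj hS).1
    refine (sum_le_sum h2).trans ?_
    rw [sum_ite_eq']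
    split_ifs <;> norm_num
  · push Not at hS
    have h3 : ∑ i ∈ range n, ∑ j ∈ range m, ind (cqS τ T κ i j x y) = 0 :=
      sum_eq_zero fun i _ => sum_eq_zero fun j _ => ind_neg (hS i j)
    rw [h3]
    exact ind_nonneg _

/-! ### the energy inequality -/

/-- the energy of one site -/
theorem cq_one (h0 : SC2) {τ : ℕ → ℕ → ℕ} (hτ : Clk τ) (T : Q n → Q m → ℕ) (κ : ℝ) {i j : ℕ}
    (hi : i < n) (hj : j < m) :
    av2 (fun x y => cqb τ T κ i j x y ^ 2) ≤
      av2 (fun x y => sg i x * sg j y * cqb τ T κ i j x y *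
        ind (∃ a c, cqS τ T κ a c x y ∧ τ i j < τ a c)) +
      (1 / 4 * av2 (fun x y => cqb τ T κ i j x y ^ 2) + av2 fun x y => ind (cqS τ T κ i j x y)) := by
  have hb := cq_prb h0 τ T κ i j
  have e1 : av2 (fun x y => cqb τ T κ i j x y ^ 2) =
      av2 fun x y => dd τ T i j x y * cqb τ T κ i j x y := by
    congr 1
    funext x y
    unfold cqb
    have := ind_mul_self (cqc τ T κ i j x y)
    calc (ind (cqc τ T κ i j x y) * dd τ T i j x y) ^ 2
        = (ind (cqc τ T κ i j x y) * ind (cqc τ T κ i j x y)) * dd τ T i j x y ^ 2 := by ring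
      _ = dd τ T i j x y * (ind (cqc τ T κ i j x y) * dd τ T i j x y) := by rw [this]; ring
  have e2 : av2 (fun x y => dd τ T i j x y * cqb τ T κ i j x y) =
      av2 fun x y => sg i x * sg j y * ind (τ i j ≤ T x y) * cqb τ T κ i j x y :=
    (h0 n m i j).2.1 (fun x y => sg i x * sg j y * ind (τ i j ≤ T x y)) (cqb τ T κ i j) hb
  have e3 : av2 (fun x y => sg i x * sg j y * ind (τ i j ≤ T x y) * cqb τ T κ i j x y) =
      av2 (fun x y => sg i x * sg j y * cqb τ T κ i j x y *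
        ind (∃ a c, cqS τ T κ a c x y ∧ τ i j < τ a c)) +
      av2 (fun x y => sg i x * sg j y * ind (cqS τ T κ i j x y) * cqb τ T κ i j x y) := by
    rw [← av2_add]
    congr 1
    funext x y
    by_cases hc : cqc τ T κ i j x y
    · rw [cq_split hτ T κ hi hj hc]; ring
    · unfold cqb
      rw [ind_neg hc]; ring
  have e4 : av2 (fun x y => sg i x * sg j y * ind (cqS τ T κ i j x y) * cqb τ T κ i j x y) =
      av2 fun x y => c2 i j (fun x y => sg i x * sg j y * ind (cqS τ T κ i j x y)) x y *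
        cqb τ T κ i j x y :=
    ((h0 n m i j).2.1 (fun x y => sg i x * sg j y * ind (cqS τ T κ i j x y))
      (cqb τ T κ i j) hb).symm
  have e5 : av2 (fun x y => c2 i j (fun x y => sg i x * sg j y * ind (cqS τ T κ i j x y)) x y *
      cqb τ T κ i j x y) ≤ 1 / 4 * av2 (fun x y => cqb τ T κ i j x y ^ 2) +
        av2 fun x y => ind (cqS τ T κ i j x y) := by
    rw [← cq_mm_av h0 (cqS τ T κ) i j, ← av2_mul_left, ← av2_add]
    refine av2_mono fun x y => ?_
    have h1 : |c2 i j (fun x y => sg i x * sg j y * ind (cqS τ T κ i j x y)) x y| ≤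
        mm (cqS τ T κ) i j x y := by
      refine ((h0 n m i j).2.2.2.2 _ x y).trans ?_
      refine (h0 n m i j).2.2.1 _ _ (fun x y => ?_) x y
      rw [abs_mul, abs_mul, abs_of_nonneg (ind_nonneg _)]
      have a1 := sg_abs_le i x
      have a2 := sg_abs_le j y
      have a3 : |sg i x| * |sg j y| ≤ 1 := mul_le_one₀ a1 (abs_nonneg _) a2
      exact mul_le_of_le_one_left (ind_nonneg _) a3
    have h2 := cq_mm_nonneg h0 (cqS τ T κ) i j x y
    have h3 := cq_mm_le h0 (cqS τ T κ) i j x y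
    set c := c2 i j (fun x y => sg i x * sg j y * ind (cqS τ T κ i j x y)) x y
    set b := cqb τ T κ i j x y
    set z := mm (cqS τ T κ) i j x y
    have h4 : c ^ 2 ≤ z ^ 2 := by
      rw [← sq_abs c]
      exact pow_le_pow_left₀ (abs_nonneg _) h1 2
    nlinarith [sq_nonneg (c - b / 2)]
  calc av2 (fun x y => cqb τ T κ i j x y ^ 2)
      = av2 (fun x y => sg i x * sg j y * cqb τ T κ i j x y *
        ind (∃ a c, cqS τ T κ a c x y ∧ τ i j < τ a c)) +
      av2 (fun x y => sg i x * sg j y * ind (cqS τ T κ i j x y) * cqb τ T κ i j x y) := by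
        rw [e1, e2, e3]
    _ ≤ _ := by
        rw [e4]
        exact add_le_add_right e5 _

theorem cq_sum (h0 : SC2) {τ : ℕ → ℕ → ℕ} (hτ : Clk τ) (T : Q n → Q m → ℕ) (κ : ℝ) :
    nrg (cqb τ T κ) ≤ pair (cqb τ T κ)
      (fun i j x y => ∃ a c, cqS τ T κ a c x y ∧ τ i j < τ a c) +
      (1 / 4 * nrg (cqb τ T κ) + cnt (cqS τ T κ)) := by
  unfold nrg pair cnt
  rw [mul_sum, ← sum_add_distrib, ← sum_add_distrib]
  refine sum_le_sum fun i hi => ?_
  rw [mul_sum, ← sum_add_distrib, ← sum_add_distrib]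
  refine sum_le_sum fun j hj => ?_
  exact cq_one h0 hτ T κ (mem_range.1 hi) (mem_range.1 hj)

theorem cq_cnt_nrg (τ : ℕ → ℕ → ℕ) (T : Q n → Q m → ℕ) {κ : ℝ} (hκ : 0 < κ) :
    κ ^ 2 * cnt (cqc τ T κ) ≤ nrg (cqb τ T κ) := by
  unfold nrg cnt
  rw [mul_sum]
  refine sum_le_sum fun i _ => ?_
  rw [mul_sum]
  refine sum_le_sum fun j _ => ?_
  rw [← av2_mul_left]
  refine av2_mono fun x y => ?_
  unfold cqb
  by_cases hc : cqc τ T κ i j x y
  · rw [ind_pos hc, one_mul, mul_one]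
    rw [← sq_abs (dd τ T i j x y)]
    exact pow_le_pow_left₀ hκ.le hc 2
  · rw [ind_neg hc]; simp

/-- W8 -/
theorem count2 (h0 : SC2) (h6 : STop2) : SCount2 := by
  intro r hr
  obtain ⟨C0, hC0, hC⟩ := h6
  set B : ℝ := 2 * C0 + 2 with hB
  set ε : ℝ := r - 2 with hε
  have hε0 : 0 < ε := by rw [hε]; linarith
  have hB2 : 2 ≤ B := by rw [hB]; linarith
  have hlB : 0 ≤ Real.log (2 * B) := Real.log_nonneg (by linarith)
  refine ⟨2 * B * (1 + Real.log (2 * B) + 2 / ε), by positivity, ?_⟩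
  intro n m τ T κ hτ hκ hκ1
  set S := cqS τ T κ with hS
  set N := nrg (cqb τ T κ) with hN
  have hN0 : 0 ≤ N := by
    rw [hN]
    unfold nrg
    exact sum_nonneg fun i _ => sum_nonneg fun j _ => av2_nonneg fun x y => sq_nonneg _
  have k1 := hC n m τ S (cqb τ T κ) hτ (cq_sng hτ T κ) fun i j => cq_prb h0 τ T κ i j
  have k2 := cq_sum h0 hτ T κ
  have k3 := cq_cnt_nrg τ T hκ
  have k4 := cq_ent_nonneg h0 S
  have k5 := cq_cnt_nonneg S
  have k6 := cq_cnt_le hτ T κ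
  rw [← hN] at k1 k2 k3
  rw [← hS] at k2 k6
  set P := pair (cqb τ T κ) (fun i j x y => ∃ a c, S a c x y ∧ τ i j < τ a c) with hP
  set H := cnt S + ent' S with hH
  have hH0 : 0 ≤ H := by rw [hH]; linarith
  have k7 : P ≤ N / 4 + C0 * H := by
    have h1 : P ^ 2 ≤ (N / 4 + C0 * H) ^ 2 := by nlinarith [sq_nonneg (N / 4 - C0 * H)]
    exact (abs_le_of_sq_le_sq' h1 (by positivity)).2
  have k8 : N ≤ B * H := by
    have h2 : cnt S ≤ H := by rw [hH]; linarith
    rw [hB]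
    nlinarith
  set Λ := cnt (cqc τ T κ) with hΛ
  have hs0 : 0 < κ ^ 2 / (2 * B) := by positivity
  have k9 := cq_ent h0 τ T κ hs0
  rw [← hS, ← hΛ] at k9
  have hlog : Real.log (1 / (κ ^ 2 / (2 * B))) = Real.log (2 * B) + 2 * Real.log (1 / κ) := by
    rw [one_div_div, Real.log_div (by positivity) (by positivity), Real.log_pow, one_div,
      Real.log_inv]
    push_cast
    ring
  rw [hlog] at k9
  have hx1 : (1 : ℝ) ≤ 1 / κ := by
    rw [le_div_iff₀ hκ]; linarith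
  have hl1 : 0 ≤ Real.log (1 / κ) := Real.log_nonneg hx1
  have hl2 : Real.log (1 / κ) ≤ (1 / κ) ^ ε / ε := Real.log_le_rpow_div (by positivity) hε0
  have hl3 : (1 : ℝ) ≤ (1 / κ) ^ ε := Real.one_le_rpow hx1 hε0.le
  set L := Real.log (2 * B) + 2 * Real.log (1 / κ) with hL
  have hL0 : 0 ≤ L := by rw [hL]; positivity
  have k10 : κ ^ 2 * Λ ≤ 2 * B * (1 + L) * sup0 T := by
    have h1 : κ ^ 2 * Λ ≤ B * (cnt S + (L * cnt S + κ ^ 2 / (2 * B) * Λ)) := by
      refine (k3.trans k8).trans ?_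
      refine mul_le_mul_of_nonneg_left ?_ (by linarith)
      rw [hH]
      linarith
    have h2 : B * (κ ^ 2 / (2 * B) * Λ) = κ ^ 2 * Λ / 2 := by field_simp
    have h3 : B * (cnt S + (L * cnt S + κ ^ 2 / (2 * B) * Λ)) =
        B * (1 + L) * cnt S + κ ^ 2 * Λ / 2 := by rw [← h2]; ring
    rw [h3] at h1
    have h4 : B * (1 + L) * cnt S ≤ B * (1 + L) * sup0 T :=
      mul_le_mul_of_nonneg_left k6 (by positivity)
    linarith
  have hT0 : 0 ≤ sup0 T := k5.trans k6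
  have k11 : 1 + L ≤ (1 + Real.log (2 * B) + 2 / ε) * (1 / κ) ^ ε := by
    have h1 : 2 * Real.log (1 / κ) ≤ 2 / ε * (1 / κ) ^ ε := by
      calc 2 * Real.log (1 / κ) ≤ 2 * ((1 / κ) ^ ε / ε) := by linarith
        _ = 2 / ε * (1 / κ) ^ ε := by ring
    have h2 : (1 + Real.log (2 * B)) ≤ (1 + Real.log (2 * B)) * (1 / κ) ^ ε :=
      le_mul_of_one_le_right (by linarith) hl3
    rw [hL]
    linarith
  have hr2 : κ ^ r = κ ^ 2 * κ ^ ε := by
    have h1 : r = 2 + ε := by rw [hε]; ring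
    rw [h1, Real.rpow_add hκ]
    norm_num
  have hinv : (1 / κ) ^ ε = 1 / κ ^ ε := by
    rw [one_div, Real.inv_rpow hκ.le, one_div]
  have hκε : 0 < κ ^ ε := Real.rpow_pos_of_pos hκ ε
  show Λ ≤ _
  have k12 : κ ^ 2 * Λ ≤ 2 * B * ((1 + Real.log (2 * B) + 2 / ε) * (1 / κ) ^ ε) * sup0 T := by
    refine k10.trans ?_
    refine mul_le_mul_of_nonneg_right ?_ hT0
    exact mul_le_mul_of_nonneg_left k11 (by linarith)
  rw [hinv] at k12
  rw [hr2, div_mul_eq_mul_div, le_div_iff₀ (by positivity)]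
  calc Λ * (κ ^ 2 * κ ^ ε) = (κ ^ 2 * Λ) * κ ^ ε := by ring
    _ ≤ 2 * B * ((1 + Real.log (2 * B) + 2 / ε) * (1 / κ ^ ε)) * sup0 T * κ ^ ε :=
        mul_le_mul_of_nonneg_right k12 hκε.le
    _ = 2 * B * (1 + Real.log (2 * B) + 2 / ε) * sup0 T := by
        field_simp

end Pool.Agent.H79.RV
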