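import Pool.Agent.H79.RV.StmF
import Pool.Agent.H79.RV.Count

/-!
# MP_a7284e_an, project RV: the energy of the charged sites
-/

set_option autoImplicit false

namespace Pool.Agent.H79.RV

open Finset Classical
open Pool.Agent.H79.RT Pool.Agent.H79.RU

theorem eg15_nrg {n m : ℕ} (τ : ℕ → ℕ → ℕ) (T : Q n → Q m → ℕ) (κ : ℝ) :
    ∑ i ∈ range n, ∑ j ∈ range m, av2 (fun x y => ind (κ ≤ |dd τ T i j x y|) *
      dd τ T i j x y ^ 2) = nrg (cqb τ T κ) := by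
  unfold nrg
  refine sum_congr rfl fun i _ => sum_congr rfl fun j _ => ?_
  congr 1
  funext x y
  have h := ind_mul_self (cqc τ T κ i j x y)
  calc ind (κ ≤ |dd τ T i j x y|) * dd τ T i j x y ^ 2
      = ind (cqc τ T κ i j x y) * dd τ T i j x y ^ 2 := rfl
    _ = (ind (cqc τ T κ i j x y) * ind (cqc τ T κ i j x y)) * dd τ T i j x y ^ 2 := by rw [h]
    _ = (ind (cqc τ T κ i j x y) * dd τ T i j x y) ^ 2 := by ring
    _ = cqb τ T κ i j x y ^ 2 := rfl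

/-- the energy of the charged sites, explicit form -/
theorem eg15_main (h0 : SC2) {C0 : ℝ} (hC0 : 0 ≤ C0)
    (hC : ∀ (n m : ℕ) (τ : ℕ → ℕ → ℕ) (S : ℕ → ℕ → Q n → Q m → Prop)
      (b : ℕ → ℕ → Q n → Q m → ℝ), Clk τ → Sng S → (∀ i j, Pr i j (b i j)) →
      pair b (fun i j x y => ∃ a c, S a c x y ∧ τ i j < τ a c) ^ 2 ≤
        C0 * (cnt S + ent' S) * nrg b)
    {n m : ℕ} {τ : ℕ → ℕ → ℕ} (T : Q n → Q m → ℕ) {κ : ℝ} (hτ : Clk τ) (hκ : 0 < κ)
    (hκ1 : κ ≤ 1) :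
    nrg (cqb τ T κ) ≤ 2 * (2 * C0 + 2) * (1 + (Real.log (2 * (2 * C0 + 2)) +
      2 * Real.log (1 / κ))) * sup0 T := by
  set B : ℝ := 2 * C0 + 2 with hB
  have hB2 : 2 ≤ B := by rw [hB]; linarith
  have hlB : 0 ≤ Real.log (2 * B) := Real.log_nonneg (by linarith)
  set S := cqS τ T κ with hS
  set N := nrg (cqb τ T κ) with hN
  have hN0 : 0 ≤ N := by
    rw [hN]
    unfold nrg
    exact sum_nonneg fun i _ => sum_nonneg fun j _ => av2_nonneg fun x y => sq_nonneg _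
  have k1 := hC n m τ S (cqb τ T κ) hτ (cq_sng hτ T κ) fun i j => cq_prb h0 τ T κ i j
  have k2 := cq_sum h0 hτ T κ
  have k3 := cq_cnt_nrg τ T hκ
  have k4 := cq_ent_nonneg h0 S
  have k5 := cq_cnt_nonneg S
  have k6 := cq_cnt_le hτ T κ
  rw [← hN] at k1 k2 k3
  rw [← hS] at k2 k6
  set P := pair (cqb τ T κ) (fun i j x y => ∃ a c, S a c x y ∧ τ i j < τ a c) with hP
  set H := cnt S + ent' S with hH
  have hH0 : 0 ≤ H := by rw [hH]; linarith
  have k7 : P ≤ N / 4 + C0 * H := by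
    have h1 : P ^ 2 ≤ (N / 4 + C0 * H) ^ 2 := by nlinarith [sq_nonneg (N / 4 - C0 * H)]
    exact (abs_le_of_sq_le_sq' h1 (by positivity)).2
  have k8 : N ≤ B * H := by
    have h2 : cnt S ≤ H := by rw [hH]; linarith
    rw [hB]
    nlinarith
  set Λ := cnt (cqc τ T κ) with hΛ
  have hs0 : 0 < κ ^ 2 / (2 * B) := by positivity
  have k9 := cq_ent h0 τ T κ hs0
  rw [← hS, ← hΛ] at k9
  have hlog : Real.log (1 / (κ ^ 2 / (2 * B))) = Real.log (2 * B) + 2 * Real.log (1 / κ) := by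
    rw [one_div_div, Real.log_div (by positivity) (by positivity), Real.log_pow, one_div,
      Real.log_inv]
    push_cast
    ring
  rw [hlog] at k9
  have hx1 : (1 : ℝ) ≤ 1 / κ := by
    rw [le_div_iff₀ hκ]; linarith
  have hl1 : 0 ≤ Real.log (1 / κ) := Real.log_nonneg hx1
  set L := Real.log (2 * B) + 2 * Real.log (1 / κ) with hL
  have hL0 : 0 ≤ L := by rw [hL]; positivity
  have h1 : N ≤ B * (cnt S + (L * cnt S + κ ^ 2 / (2 * B) * Λ)) := by
    refine k8.trans ?_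
    refine mul_le_mul_of_nonneg_left ?_ (by linarith)
    rw [hH]
    linarith
  have h2 : B * (κ ^ 2 / (2 * B) * Λ) = κ ^ 2 * Λ / 2 := by field_simp
  have h3 : B * (cnt S + (L * cnt S + κ ^ 2 / (2 * B) * Λ)) =
      B * (1 + L) * cnt S + κ ^ 2 * Λ / 2 := by rw [← h2]; ring
  rw [h3] at h1
  have h4 : B * (1 + L) * cnt S ≤ B * (1 + L) * sup0 T :=
    mul_le_mul_of_nonneg_left k6 (by positivity)
  linarith

/-- X8 -/
theorem eng (h0 : SC2) (h6 : STop2) : SEng := by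
  obtain ⟨C0, hC0, hC⟩ := h6
  have hlB : 0 ≤ Real.log (2 * (2 * C0 + 2)) := Real.log_nonneg (by linarith)
  refine ⟨2 * (2 * C0 + 2) * (2 + Real.log (2 * (2 * C0 + 2))), by positivity, ?_⟩
  intro n m τ T κ hτ hκ hκ1
  rw [eg15_nrg]
  refine (eg15_main h0 hC0 hC T hτ hκ hκ1).trans ?_
  have hx1 : (1 : ℝ) ≤ 1 / κ := by
    rw [le_div_iff₀ hκ]; linarith
  have hl1 : 0 ≤ Real.log (1 / κ) := Real.log_nonneg hx1
  have hT0 : 0 ≤ sup0 T := (cq_cnt_nonneg _).trans (cq_cnt_le hτ T κ)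
  refine mul_le_mul_of_nonneg_right ?_ hT0
  rw [mul_assoc (2 * (2 * C0 + 2)) (2 + Real.log (2 * (2 * C0 + 2)))]
  refine mul_le_mul_of_nonneg_left ?_ (by linarith)
  nlinarith [mul_nonneg hlB hl1]

end Pool.Agent.H79.RV
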