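import Pool.Agent.H79.RV.Stm
import Pool.Agent.H79.RT.Basic

/-!
# MP_a7284e_an, project RV: the entropy inequality (row V1)
-/

set_option autoImplicit false

namespace Pool.Agent.H79.RV

open Finset Classical
open Pool.Agent.H79.RT Pool.Agent.H79.RU

/-- elementary inequality for the binary entropy -/
theorem ent_el {ξ : ℝ} (h1 : -1 ≤ ξ) (h2 : ξ ≤ 1) :
    ξ ^ 2 / 4 ≤ (1 + ξ) / 2 * Real.log (1 + ξ) + (1 - ξ) / 2 * Real.log (1 - ξ) := by
  have key : ∀ z : ℝ, 0 ≤ z → z - Real.sqrt z ≤ z / 2 * Real.log z := by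
    intro z hz
    rcases hz.eq_or_lt with h | h
    · subst h; simp
    · have hs : 0 < Real.sqrt z := Real.sqrt_pos.mpr h
      have hl := Real.one_sub_inv_le_log_of_pos hs
      rw [Real.log_sqrt hz] at hl
      have h0 : Real.sqrt z * Real.sqrt z = z := Real.mul_self_sqrt hz
      have h3 : z * (1 - (Real.sqrt z)⁻¹) ≤ z * (Real.log z / 2) :=
        mul_le_mul_of_nonneg_left hl hz
      have h4 : z * (Real.sqrt z)⁻¹ = Real.sqrt z := by
        rw [← div_eq_mul_inv, div_eq_iff hs.ne']
        exact h0.symm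
      have h5 : z * (1 - (Real.sqrt z)⁻¹) = z - Real.sqrt z := by
        rw [mul_sub, mul_one, h4]
      rw [h5] at h3
      linarith
  have a := key (1 + ξ) (by linarith)
  have b := key (1 - ξ) (by linarith)
  set u := Real.sqrt (1 + ξ) with hu'
  set v := Real.sqrt (1 - ξ) with hv'
  have hu : 0 ≤ u := Real.sqrt_nonneg _
  have hv : 0 ≤ v := Real.sqrt_nonneg _
  have hu2 : u * u = 1 + ξ := Real.mul_self_sqrt (by linarith)
  have hv2 : v * v = 1 - ξ := Real.mul_self_sqrt (by linarith)
  have hξ : ξ ^ 2 ≤ 1 := by nlinarith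
  have huv : u * v ≤ 1 - ξ ^ 2 / 2 := by
    refine (abs_le_of_sq_le_sq' ?_ (by linarith)).2
    have : (u * v) ^ 2 = 1 - ξ ^ 2 := by
      have : (u * v) ^ 2 = (u * u) * (v * v) := by ring
      rw [this, hu2, hv2]; ring
    rw [this]
    nlinarith [sq_nonneg (ξ ^ 2)]
  have hs : u + v ≤ 2 - ξ ^ 2 / 4 := by
    refine (abs_le_of_sq_le_sq' ?_ (by linarith)).2
    nlinarith [sq_nonneg (ξ ^ 2)]
  linarith

section gen

variable {Ω α : Type*} [Fintype Ω]

theorem ent_ind_nonneg (p : Prop) : 0 ≤ ind p := by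
  unfold ind; split_ifs <;> norm_num

theorem ent_ind_true {p : Prop} (h : p) : ind p = 1 := if_pos h

theorem ent_ind_false {p : Prop} (h : ¬p) : ind p = 0 := if_neg h

theorem ent_nn_pos (K : Ω → α) (x : Ω) : 1 ≤ nn K x := by
  unfold nn
  have h := single_le_sum (f := fun x' => ind (K x' = K x)) (s := univ)
    (fun x' _ => ent_ind_nonneg _) (mem_univ x)
  have h1 : ind (K x = K x) = 1 := ent_ind_true rfl
  rw [← h1]
  exact h

theorem ent_nn_congr (K : Ω → α) {x x' : Ω} (h : K x = K x') : nn K x = nn K x' := by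
  unfold nn; rw [h]

theorem ent_nn_card (K : Ω → α) (x : Ω) : nn K x = ((univ.filter fun x' => K x' = K x).card : ℝ) := by
  unfold nn ind
  rw [sum_boole]

/-- the tower property -/
theorem ent_tower (K : Ω → α) (f g : Ω → ℝ) (hg : ∀ x x', K x = K x' → g x = g x') :
    ∑ x, ce K f x * g x = ∑ x, f x * g x := by
  have h1 : ∀ x, ce K f x * g x = ∑ x', ind (K x' = K x) * f x' * g x' / nn K x' := by
    intro x
    unfold ce
    rw [div_mul_eq_mul_div, sum_mul, sum_div]
    refine sum_congr rfl fun x' _ => ?_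
    by_cases h : K x' = K x
    · rw [hg x' x h, ent_nn_congr K h]
    · rw [ent_ind_false h]; simp
  simp_rw [h1]
  rw [sum_comm]
  refine sum_congr rfl fun x' _ => ?_
  have h2 : ∀ x, ind (K x' = K x) * f x' * g x' / nn K x' =
      ind (K x = K x') * (f x' * g x' / nn K x') := by
    intro x
    have : ind (K x' = K x) = ind (K x = K x') := by
      by_cases h : K x' = K x
      · rw [ent_ind_true h, ent_ind_true h.symm]
      · rw [ent_ind_false h, ent_ind_false fun h' => h h'.symm]
    rw [this]; ring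
  simp_rw [h2]
  rw [← sum_mul]
  change nn K x' * _ = _
  have := ent_nn_pos K x'
  field_simp

/-- branching: summing `1 / nn L` over a set -/
theorem ent_fib {β : Type*} (L : Ω → β) (A : Finset Ω) :
    ∑ x ∈ A, 1 / nn L x ≤ ((A.image L).card : ℝ) := by
  rw [← sum_fiberwise_of_maps_to (t := A.image L) (g := L) fun x hx => mem_image_of_mem L hx]
  rw [card_eq_sum_ones, Nat.cast_sum]
  refine sum_le_sum fun v hv => ?_
  obtain ⟨x0, hx0, rfl⟩ := mem_image.mp hv
  have h1 : ∑ x ∈ A.filter fun x => L x = L x0, 1 / nn L x =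
      ((A.filter fun x => L x = L x0).card : ℝ) * (1 / nn L x0) := by
    rw [sum_congr rfl fun x hx => by rw [ent_nn_congr L (mem_filter.mp hx).2], sum_const,
      nsmul_eq_mul]
  rw [h1, Nat.cast_one, mul_one_div, div_le_one (lt_of_lt_of_le one_pos (ent_nn_pos L x0)),
    ent_nn_card]
  exact_mod_cast card_le_card (filter_subset_filter _ (subset_univ A))

/-- one value: the sum of `1 / nn L` is at most one -/
theorem ent_fib1 {β : Type*} (L : Ω → β) (A : Finset Ω)
    (h : ∀ x ∈ A, ∀ y ∈ A, L x = L y) : ∑ x ∈ A, 1 / nn L x ≤ 1 := by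
  refine (ent_fib L A).trans ?_
  have : (A.image L).card ≤ 1 := by
    rw [card_le_one]
    intro a ha b hb
    obtain ⟨x, hx, rfl⟩ := mem_image.mp ha
    obtain ⟨y, hy, rfl⟩ := mem_image.mp hb
    exact h x hx y hy
  exact_mod_cast this

end gen

variable {n : ℕ} {α : Type}

theorem ent_sg {i : ℕ} (hi : i < n) (x : Q n) : sg i x = 1 ∨ sg i x = -1 := by
  unfold sg
  rw [dif_pos hi]
  split_ifs
  · exact Or.inl rfl
  · exact Or.inr rfl

/-- the class of `K` and the coordinate `i` -/
theorem ent_P (K : Q n → α) {i : ℕ} (hi : i < n) (x : Q n) :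
    nn (fun x' => (K x', sg i x')) x = nn K x * (1 + sg i x * ce K (sg i) x) / 2 := by
  have hN := ent_nn_pos K x
  have h1 : ∀ x', ind ((K x', sg i x') = (K x, sg i x)) =
      (ind (K x' = K x) + sg i x * (ind (K x' = K x) * sg i x')) / 2 := by
    intro x'
    by_cases h : K x' = K x
    · rw [ent_ind_true h]
      by_cases h2 : sg i x' = sg i x
      · rw [ent_ind_true (by rw [h, h2]), h2]
        rcases ent_sg hi x with h3 | h3 <;> rw [h3] <;> norm_num
      · rw [ent_ind_false fun h3 => h2 (congrArg Prod.snd h3)]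
        rcases ent_sg hi x with h3 | h3 <;> rcases ent_sg hi x' with h4 | h4
        · exact absurd (h4.trans h3.symm) h2
        · rw [h3, h4]; norm_num
        · rw [h3, h4]; norm_num
        · exact absurd (h4.trans h3.symm) h2
    · rw [ent_ind_false h, ent_ind_false fun h3 => h (congrArg Prod.fst h3)]
      simp
  have h2 : nn (fun x' => (K x', sg i x')) x =
      (nn K x + sg i x * ∑ x', ind (K x' = K x) * sg i x') / 2 := by
    unfold nn
    simp_rw [h1]
    rw [← sum_div, sum_add_distrib, ← mul_sum]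
  have h3 : ce K (sg i) x = (∑ x', ind (K x' = K x) * sg i x') / nn K x := rfl
  rw [h2, h3]
  field_simp

theorem ent_ce_le (K : Q n → α) {i : ℕ} (hi : i < n) (x : Q n) :
    -1 ≤ ce K (sg i) x ∧ ce K (sg i) x ≤ 1 := by
  have hN := ent_nn_pos K x
  unfold ce
  rw [le_div_iff₀ (by linarith), div_le_iff₀ (by linarith)]
  unfold nn
  rw [mul_sum, mul_sum]
  constructor
  · refine sum_le_sum fun x' _ => ?_
    have := ent_ind_nonneg (K x' = K x)
    rcases ent_sg hi x' with h | h <;> rw [h] <;> linarith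
  · refine sum_le_sum fun x' _ => ?_
    have := ent_ind_nonneg (K x' = K x)
    rcases ent_sg hi x' with h | h <;> rw [h] <;> linarith

/-- the entropy of the coordinate -/
theorem ent_log (K : Q n → α) {i : ℕ} (hi : i < n) :
    (∑ x, ce K (sg i) x ^ 2) / 4 ≤ ∑ x, Real.log (1 + sg i x * ce K (sg i) x) := by
  set ξ := ce K (sg i) with hξ
  have hc : ∀ x x', K x = K x' → ξ x = ξ x' := by
    intro x x' h
    rw [hξ]; unfold ce
    rw [h, ent_nn_congr K h]
  have h1 : ∀ x, Real.log (1 + sg i x * ξ x) =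
      (Real.log (1 + ξ x) + Real.log (1 - ξ x)) / 2 +
        sg i x * ((Real.log (1 + ξ x) - Real.log (1 - ξ x)) / 2) := by
    intro x
    rcases ent_sg hi x with h | h
    · rw [h, one_mul]; ring
    · rw [h]
      have : (1 : ℝ) + -1 * ξ x = 1 - ξ x := by ring
      rw [this]; ring
  have h2 := ent_tower K (sg i) (fun x => (Real.log (1 + ξ x) - Real.log (1 - ξ x)) / 2)
    (fun x x' h => by rw [hc x x' h])
  rw [← hξ] at h2
  simp_rw [h1]
  rw [sum_add_distrib, ← h2, ← sum_add_distrib, sum_div]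
  refine sum_le_sum fun x _ => ?_
  have h3 := ent_ce_le K hi x
  have h4 := ent_el h3.1 h3.2
  rw [← hξ] at h4
  linarith

/-- the branching term -/
theorem ent_brn (K : Q n → α) (L : Q n → α) (i : ℕ) (r : Q n → ℕ)
    (h : ∀ x, ((univ.filter fun x' => K x' = K x ∧ sg i x' = sg i x).image L).card ≤ 1 + r x) :
    ∑ x, Real.log (nn (fun x' => (K x', sg i x')) x / nn L x) ≤ ∑ x, (r x : ℝ) := by
  have h1 : ∀ x, Real.log (nn (fun x' => (K x', sg i x')) x / nn L x) ≤
      nn (fun x' => (K x', sg i x')) x / nn L x - 1 := by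
    intro x
    have h2 := ent_nn_pos (fun x' => (K x', sg i x')) x
    have h3 := ent_nn_pos L x
    have h4 : 0 < nn (fun x' => (K x', sg i x')) x / nn L x := div_pos (by linarith) (by linarith)
    exact Real.log_le_sub_one_of_pos h4
  refine (sum_le_sum fun x _ => h1 x).trans ?_
  rw [sum_sub_distrib]
  have h5 : ∑ x, nn (fun x' => (K x', sg i x')) x / nn L x ≤ ∑ x, (1 + (r x : ℝ)) := by
    have h6 : ∀ x, nn (fun x' => (K x', sg i x')) x / nn L x =
        ∑ x', ind ((K x', sg i x') = (K x, sg i x)) * (1 / nn L x) := by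
      intro x
      rw [← sum_mul]
      change _ = nn (fun x' => (K x', sg i x')) x * _
      rw [mul_one_div]
    simp_rw [h6]
    rw [sum_comm]
    refine sum_le_sum fun x' _ => ?_
    have h7 := ent_fib L (univ.filter fun x => K x = K x' ∧ sg i x = sg i x')
    have h8 : ∑ x, ind ((K x', sg i x') = (K x, sg i x)) * (1 / nn L x) =
        ∑ x ∈ univ.filter (fun x => K x = K x' ∧ sg i x = sg i x'), 1 / nn L x := by
      rw [sum_filter]
      refine sum_congr rfl fun x _ => ?_
      by_cases h9 : K x = K x' ∧ sg i x = sg i x'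
      · rw [if_pos h9, ent_ind_true (by rw [h9.1, h9.2]), one_mul]
      · rw [if_neg h9, ent_ind_false, zero_mul]
        intro h10
        exact h9 ⟨(congrArg Prod.fst h10).symm, (congrArg Prod.snd h10).symm⟩
    rw [h8]
    refine h7.trans ?_
    have := h x'
    exact_mod_cast this
  rw [sum_add_distrib] at h5
  linarith

/-- one step of the potential -/
theorem ent_step (K L : Q n → α) {i : ℕ} (hi : i < n) {G : ℝ}
    (hG : ∑ x, Real.log (nn (fun x' => (K x', sg i x')) x / nn L x) ≤ G) :
    (∑ x, Real.log (nn K x)) - (∑ x, Real.log (nn L x)) - 2 ^ n * Real.log 2 ≤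
      G - (∑ x, ce K (sg i) x ^ 2) / 4 := by
  have h1 := ent_log K hi
  have h3 : ∀ x, Real.log (nn K x) - Real.log (nn L x) - Real.log 2 =
      Real.log (nn (fun x' => (K x', sg i x')) x / nn L x) -
        Real.log (1 + sg i x * ce K (sg i) x) := by
    intro x
    have hP := ent_P K hi x
    have p1 := ent_nn_pos K x
    have p2 := ent_nn_pos L x
    have p3 := ent_nn_pos (fun x' => (K x', sg i x')) x
    have p4 : 0 < 1 + sg i x * ce K (sg i) x := by
      by_contra hn
      push Not at hn
      have : nn K x * (1 + sg i x * ce K (sg i) x) ≤ 0 :=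
        mul_nonpos_of_nonneg_of_nonpos (by linarith) hn
      linarith
    rw [Real.log_div (by linarith) (by linarith), hP,
      Real.log_div (mul_pos (by linarith) p4).ne' two_ne_zero, Real.log_mul (by linarith) p4.ne']
    ring
  have h4 : ∑ x, (Real.log (nn K x) - Real.log (nn L x) - Real.log 2) =
      (∑ x, Real.log (nn K x)) - (∑ x, Real.log (nn L x)) - 2 ^ n * Real.log 2 := by
    rw [sum_sub_distrib, sum_sub_distrib, sum_const, card_univ, nsmul_eq_mul]
    have : Fintype.card (Q n) = 2 ^ n := by simp [Q]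
    rw [this]
    push_cast
    ring
  rw [← h4]
  simp_rw [h3]
  rw [sum_sub_distrib]
  linarith

/-- summation of the steps -/
theorem ent_tel (K : ℕ → Q n → α) (G : ℕ → Q n → ℝ) (h0 : ∀ x x', K 0 x = K 0 x')
    (hinj : ∀ x x', K n x = K n x' → x = x')
    (step : ∀ i < n, (∑ x, Real.log (nn (K i) x)) - (∑ x, Real.log (nn (K (i + 1)) x)) -
      2 ^ n * Real.log 2 ≤ (∑ x, G i x) - (∑ x, ce (K i) (sg i) x ^ 2) / 4) :
    ∑ i ∈ range n, av (fun x => ce (K i) (sg i) x ^ 2) ≤ 4 * ∑ i ∈ range n, av (G i) := by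
  have hsum := sum_le_sum fun i (hi : i ∈ range n) => step i (mem_range.mp hi)
  rw [sum_sub_distrib, sum_range_sub' (fun i => ∑ x, Real.log (nn (K i) x)) n,
    sum_sub_distrib] at hsum
  have h0' : ∀ x, nn (K 0) x = 2 ^ n := by
    intro x
    unfold nn
    rw [sum_congr rfl fun x' _ => ent_ind_true (h0 x' x), sum_const, card_univ, nsmul_eq_mul]
    have : Fintype.card (Q n) = 2 ^ n := by simp [Q]
    rw [this]
    push_cast
    ring
  have hn : ∀ x, nn (K n) x = 1 := by
    intro x
    unfold nn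
    rw [sum_eq_single x]
    · exact ent_ind_true rfl
    · intro x' _ hne
      exact ent_ind_false fun h => hne (hinj _ _ h)
    · intro h; exact absurd (mem_univ x) h
  have hH0 : ∑ x : Q n, Real.log (nn (K 0) x) = 2 ^ n * (n * Real.log 2) := by
    simp_rw [h0']
    rw [sum_const, card_univ, nsmul_eq_mul, Real.log_pow]
    have : Fintype.card (Q n) = 2 ^ n := by simp [Q]
    rw [this]
    push_cast
    ring
  have hHn : ∑ x : Q n, Real.log (nn (K n) x) = 0 := by
    simp_rw [hn]
    simp
  rw [hH0, hHn, sum_const, card_range, nsmul_eq_mul, ← sum_div] at hsum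
  have hfin : (∑ i ∈ range n, ∑ x, ce (K i) (sg i) x ^ 2) ≤
      4 * ∑ i ∈ range n, ∑ x, G i x := by
    have : (2 : ℝ) ^ n * (n * Real.log 2) - 0 - n * (2 ^ n * Real.log 2) = 0 := by ring
    linarith
  unfold av
  rw [← sum_div, ← sum_div, ← mul_div_assoc]
  exact div_le_div_of_nonneg_right hfin (by positivity)

theorem ent_sg_inj {i : ℕ} (hi : i < n) {x x' : Q n} (h : sg i x = sg i x') :
    x ⟨i, hi⟩ = x' ⟨i, hi⟩ := by
  unfold sg at h
  rw [dif_pos hi, dif_pos hi] at h
  cases hx : x ⟨i, hi⟩ <;> cases hx' : x' ⟨i, hi⟩ <;> simp [hx, hx'] at h ⊢ <;> norm_num at h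

/-- V1: the entropy inequality, first version -/
theorem ent : SEnt := by
  intro n α K r hR hB
  refine ent_tel K (fun i x => (r i x : ℝ)) hB.1 ?_ fun i hi =>
    ent_step (K i) (K (i + 1)) hi (ent_brn (K i) (K (i + 1)) i (r i) (hB.2 i hi))
  intro x x' h
  have hd : ∀ k ≤ n, K (n - k) x = K (n - k) x' := by
    intro k
    induction k with
    | zero => intro _; simpa using h
    | succ k ih =>
      intro hk
      have h1 := ih (by omega)
      have h2 : n - k = (n - (k + 1)) + 1 := by omega
      rw [h2] at h1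
      exact (hR (n - (k + 1)) (by omega) x x' h1).1
  funext l
  have h1 := hd (n - (l + 1)) (by omega)
  have h2 : n - (n - ((l : ℕ) + 1)) = (l : ℕ) + 1 := by
    have := l.2
    omega
  rw [h2] at h1
  exact ent_sg_inj l.2 (hR l l.2 x x' h1).2

theorem ent_mix {i : ℕ} {x x' : Q n}
    (h : mix i x (fun _ => false) = mix i x' fun _ => false) (l : Fin n) (hl : (l : ℕ) < i) :
    x l = x' l := by
  have := congrFun h l
  unfold mix at this
  rwa [if_pos hl, if_pos hl] at this

/-- the branching term with weights -/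
theorem ent_brn2 (m : ℕ) (v : ℕ → Q n → ℕ) (w : ℕ → ℕ → Q n → ℝ)
    (hv : ∀ i x, v i x ≤ m) (hw0 : ∀ i x, w i 0 x = 1) (hwi : ∀ i j, Inv i (w i j))
    (hwn : ∀ i j x, 0 ≤ w i j x) (hwp : ∀ i x, 0 < w i (v i x) x) {i : ℕ} (hi : i < n) :
    ∑ x, Real.log (nn (fun x' => (Kv v i x', sg i x')) x / nn (Kv v (i + 1)) x) ≤
      ∑ x, (-Real.log (w i (v i x) x) + ∑ j ∈ range m, w i (j + 1) x) := by
  have h1 : ∀ x, Real.log (nn (fun x' => (Kv v i x', sg i x')) x / nn (Kv v (i + 1)) x) ≤
      -Real.log (w i (v i x) x) +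
        (w i (v i x) x * (nn (fun x' => (Kv v i x', sg i x')) x / nn (Kv v (i + 1)) x) - 1) := by
    intro x
    have h2 := ent_nn_pos (fun x' => (Kv v i x', sg i x')) x
    have h3 := ent_nn_pos (Kv v (i + 1)) x
    have h4 : 0 < nn (fun x' => (Kv v i x', sg i x')) x / nn (Kv v (i + 1)) x :=
      div_pos (by linarith) (by linarith)
    have h5 := Real.log_le_sub_one_of_pos (mul_pos (hwp i x) h4)
    rw [Real.log_mul (hwp i x).ne' h4.ne'] at h5
    linarith
  refine (sum_le_sum fun x _ => h1 x).trans ?_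
  rw [sum_add_distrib, sum_sub_distrib, sum_add_distrib]
  have h5 : ∑ x, w i (v i x) x *
      (nn (fun x' => (Kv v i x', sg i x')) x / nn (Kv v (i + 1)) x) ≤
      ∑ x, (1 + ∑ j ∈ range m, w i (j + 1) x) := by
    have h6 : ∀ x, w i (v i x) x *
        (nn (fun x' => (Kv v i x', sg i x')) x / nn (Kv v (i + 1)) x) =
        ∑ x', ind ((Kv v i x', sg i x') = (Kv v i x, sg i x)) *
          (w i (v i x) x * (1 / nn (Kv v (i + 1)) x)) := by
      intro x
      rw [← sum_mul]
      change _ = nn (fun x' => (Kv v i x', sg i x')) x * _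
      ring
    simp_rw [h6]
    rw [sum_comm]
    refine sum_le_sum fun x' _ => ?_
    have h8 : ∑ x, ind ((Kv v i x', sg i x') = (Kv v i x, sg i x)) *
        (w i (v i x) x * (1 / nn (Kv v (i + 1)) x)) =
        ∑ x ∈ univ.filter (fun x => Kv v i x = Kv v i x' ∧ sg i x = sg i x'),
          w i (v i x) x * (1 / nn (Kv v (i + 1)) x) := by
      rw [sum_filter]
      refine sum_congr rfl fun x _ => ?_
      by_cases h9 : Kv v i x = Kv v i x' ∧ sg i x = sg i x'
      · rw [if_pos h9, ent_ind_true (by rw [h9.1, h9.2]), one_mul]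
      · rw [if_neg h9, ent_ind_false, zero_mul]
        intro h10
        exact h9 ⟨(congrArg Prod.fst h10).symm, (congrArg Prod.snd h10).symm⟩
    rw [h8, ← sum_fiberwise_of_maps_to (t := range (m + 1)) (g := v i)
      fun x _ => mem_range.mpr (Nat.lt_succ_of_le (hv i x))]
    have h10 : ∑ k ∈ range (m + 1), w i k x' = 1 + ∑ j ∈ range m, w i (j + 1) x' := by
      rw [sum_range_succ', hw0, add_comm]
    rw [← h10]
    refine sum_le_sum fun k _ => ?_
    -- one value of `v i`
    have h11 : ∀ x ∈ (univ.filter fun x => Kv v i x = Kv v i x' ∧ sg i x = sg i x').filter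
        (fun x => v i x = k), w i (v i x) x * (1 / nn (Kv v (i + 1)) x) =
        w i k x' * (1 / nn (Kv v (i + 1)) x) := by
      intro x hx
      obtain ⟨hx1, hx2⟩ := mem_filter.mp hx
      have hx3 := (mem_filter.mp hx1).2.1
      have hx4 : w i k x = w i k x' := (hwi i k).congr fun l hl =>
        ent_mix (congrArg Prod.fst hx3) l hl
      rw [hx2, hx4]
    rw [sum_congr rfl h11, ← mul_sum]
    have h12 : ∑ x ∈ (univ.filter fun x => Kv v i x = Kv v i x' ∧
        sg i x = sg i x').filter (fun x => v i x = k), 1 / nn (Kv v (i + 1)) x ≤ 1 := by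
      refine ent_fib1 _ _ fun x1 hx1 x2 hx2 => ?_
      obtain ⟨hx3, hx4⟩ := mem_filter.mp hx1
      obtain ⟨hx5, hx6⟩ := mem_filter.mp hx2
      have hx7 := (mem_filter.mp hx3).2
      have hx8 := (mem_filter.mp hx5).2
      have e1 : Kv v i x1 = Kv v i x2 := hx7.1.trans hx8.1.symm
      have e2 : sg i x1 = sg i x2 := hx7.2.trans hx8.2.symm
      have e3 : v i x1 = v i x2 := hx4.trans hx6.symm
      unfold Kv
      refine Prod.ext ?_ ?_
      · funext l
        show mix (i + 1) x1 (fun _ => false) l = mix (i + 1) x2 (fun _ => false) l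
        unfold mix
        by_cases hl : (l : ℕ) < i + 1
        · rw [if_pos hl, if_pos hl]
          rcases Nat.lt_succ_iff_lt_or_eq.mp hl with h | h
          · exact ent_mix (congrArg Prod.fst e1) l h
          · have := ent_sg_inj hi e2
            have hl' : l = ⟨i, hi⟩ := Fin.ext h
            rw [hl']
            exact this
        · rw [if_neg hl, if_neg hl]
      · funext a
        show (if a < i + 1 then v a x1 else 0) = if a < i + 1 then v a x2 else 0
        by_cases hl : a < i + 1
        · rw [if_pos hl, if_pos hl]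
          rcases Nat.lt_succ_iff_lt_or_eq.mp hl with h | h
          · have := congrFun (congrArg Prod.snd e1) a
            unfold Kv at this
            simpa [h] using this
          · rw [h]; exact e3
        · rw [if_neg hl, if_neg hl]
    calc w i k x' * _ ≤ w i k x' * 1 := mul_le_mul_of_nonneg_left h12 (hwn i k x')
      _ = w i k x' := mul_one _
  rw [sum_add_distrib] at h5
  linarith

/-- W1: the entropy inequality -/
theorem ent2 : SEnt2 := by
  intro n m v w hv hw0 hwi hwn hwp
  refine ent_tel (Kv v) (fun i x => -Real.log (w i (v i x) x) + ∑ j ∈ range m, w i (j + 1) x)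
    ?_ ?_ fun i hi => ent_step (Kv v i) (Kv v (i + 1)) hi (ent_brn2 m v w hv hw0 hwi hwn hwp hi)
  · intro x x'
    unfold Kv mix
    simp
  · intro x x' h
    funext l
    exact ent_mix (congrArg Prod.fst h) l l.2

end Pool.Agent.H79.RV
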