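import Pool.Agent.H79.RV.StmF
import Pool.Agent.H79.RT.Basic

/-!
# MP_a7284e_an, project RV: X12, the weak type inequality with one logarithm of the amplitude
-/

set_option autoImplicit false

namespace Pool.Agent.H79.RV

open Finset Classical
open Pool.Agent.H79.RT Pool.Agent.H79.RU

variable {n m : ℕ}

/-- restriction of an array to the sites where the majorant satisfies a condition -/
theorem lx_ar2 {D A : ℕ → ℕ → Q n → Q m → ℝ} (h : Ar2 n m D A) (P : ℝ → Prop)
    [DecidablePred P] :
    Ar2 n m (fun i j x y => if P (A i j x y) then D i j x y else 0)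
      (fun i j x y => if P (A i j x y) then A i j x y else 0) where
  odx i j y x := by
    have h1 : A i j (fl i x) y = A i j x y := h.pax i j y i le_rfl x
    have h2 : D i j (fl i x) y = -D i j x y := h.odx i j y x
    show (if P (A i j (fl i x) y) then D i j (fl i x) y else 0) =
      -(if P (A i j x y) then D i j x y else 0)
    rw [h1, h2]
    split_ifs <;> simp
  invx i j y l hl x := by
    have h1 : A i j (fl l x) y = A i j x y := h.pax i j y l (by omega) x
    have h2 : D i j (fl l x) y = D i j x y := h.invx i j y l hl x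
    show (if P (A i j (fl l x) y) then D i j (fl l x) y else 0) =
      if P (A i j x y) then D i j x y else 0
    rw [h1, h2]
  ody i j x y := by
    have h1 : A i j x (fl j y) = A i j x y := h.pay i j x j le_rfl y
    have h2 : D i j x (fl j y) = -D i j x y := h.ody i j x y
    show (if P (A i j x (fl j y)) then D i j x (fl j y) else 0) =
      -(if P (A i j x y) then D i j x y else 0)
    rw [h1, h2]
    split_ifs <;> simp
  invy i j x l hl y := by
    have h1 : A i j x (fl l y) = A i j x y := h.pay i j x l (by omega) y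
    have h2 : D i j x (fl l y) = D i j x y := h.invy i j x l hl y
    show (if P (A i j x (fl l y)) then D i j x (fl l y) else 0) =
      if P (A i j x y) then D i j x y else 0
    rw [h1, h2]
  pax i j y l hl x := by
    have h1 : A i j (fl l x) y = A i j x y := h.pax i j y l hl x
    show (if P (A i j (fl l x) y) then A i j (fl l x) y else 0) =
      if P (A i j x y) then A i j x y else 0
    rw [h1]
  pay i j x l hl y := by
    have h1 : A i j x (fl l y) = A i j x y := h.pay i j x l hl y
    show (if P (A i j x (fl l y)) then A i j x (fl l y) else 0) =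
      if P (A i j x y) then A i j x y else 0
    rw [h1]
  na i j x y := by
    show 0 ≤ if P (A i j x y) then A i j x y else 0
    split_ifs
    · exact h.na i j x y
    · exact le_rfl
  dom i j x y := by
    show |if P (A i j x y) then D i j x y else 0| ≤ if P (A i j x y) then A i j x y else 0
    split_ifs
    · exact h.dom i j x y
    · rw [abs_zero]
  za i j hij x y := by
    show (if P (A i j x y) then A i j x y else 0) = 0
    rw [h.za i j hij x y, ite_self]

/-- the block of an amplitude -/
noncomputable def rk (a : ℝ) : ℕ := sInf {r : ℕ | (1 / 2 : ℝ) ^ (2 ^ r) ≤ a}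

theorem rk_spec {a : ℝ} (ha : 0 < a) : (1 / 2 : ℝ) ^ (2 ^ rk a) ≤ a := by
  have hne : {r : ℕ | (1 / 2 : ℝ) ^ (2 ^ r) ≤ a}.Nonempty := by
    obtain ⟨k, hk⟩ := exists_pow_lt_of_lt_one ha (by norm_num : (1 / 2 : ℝ) < 1)
    refine ⟨k, ?_⟩
    show (1 / 2 : ℝ) ^ (2 ^ k) ≤ a
    refine le_trans ?_ hk.le
    exact pow_le_pow_of_le_one (by norm_num) (by norm_num) (Nat.lt_two_pow_self).le
  exact Nat.sInf_mem hne

/-- the block is controlled by the logarithm -/
theorem rk_le {a : ℝ} (ha : 0 < a) : (2 : ℝ) ^ rk a ≤ 4 * (1 + max 0 (Real.log (1 / a))) := by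
  have h0 : 0 ≤ max 0 (Real.log (1 / a)) := le_max_left _ _
  rcases Nat.eq_zero_or_pos (rk a) with h | h
  · rw [h, pow_zero]
    linarith
  · obtain ⟨s, hs⟩ : ∃ s, rk a = s + 1 := ⟨rk a - 1, by omega⟩
    have h1 : ¬ (1 / 2 : ℝ) ^ (2 ^ s) ≤ a := by
      have h2 : s ∉ {r : ℕ | (1 / 2 : ℝ) ^ (2 ^ r) ≤ a} := Nat.notMem_of_lt_sInf (by
        show s < rk a
        omega)
      exact h2
    have h2 : Real.log a ≤ Real.log ((1 / 2 : ℝ) ^ (2 ^ s)) :=
      Real.log_le_log ha (not_le.1 h1).le
    have h3 : Real.log ((1 / 2 : ℝ) ^ (2 ^ s)) = -((2 : ℝ) ^ s * Real.log 2) := by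
      rw [Real.log_pow, one_div, Real.log_inv]
      push_cast
      ring
    have h4 : Real.log (1 / a) = -Real.log a := by rw [one_div, Real.log_inv]
    have h5 : (1 / 2 : ℝ) < Real.log 2 := by
      have := Real.log_two_gt_d9
      linarith
    have h6 : (2 : ℝ) ^ s * (1 / 2) ≤ (2 : ℝ) ^ s * Real.log 2 :=
      mul_le_mul_of_nonneg_left h5.le (by positivity)
    have h7 : Real.log (1 / a) ≤ max 0 (Real.log (1 / a)) := le_max_right _ _
    rw [hs, pow_succ]
    linarith

/-- the maximal function is at most the sum of the maximal functions of the blocks -/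
theorem lx_mx (D A : ℕ → ℕ → Q n → Q m → ℝ) (R : ℕ) (x : Q n) (y : Q m)
    (hR : ∀ i < n, ∀ j < m, rk (A i j x y) < R) :
    MX D x y ≤ ∑ r ∈ range R,
      MX (fun i j x y => if rk (A i j x y) = r then D i j x y else 0) x y := by
  refine MX_le fun k _ => ?_
  have h1 : XS D k x y = ∑ r ∈ range R,
      XS (fun i j x y => if rk (A i j x y) = r then D i j x y else 0) k x y := by
    unfold XS
    rw [sum_comm (s := range R)]
    refine sum_congr rfl fun i hi => ?_
    rw [sum_comm (s := range R)]
    refine sum_congr rfl fun j hj => ?_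
    by_cases h : i + j ≤ k
    · have h2 : ∀ r ∈ range R, (if i + j ≤ k then
          (if rk (A i j x y) = r then D i j x y else 0) else 0) =
          if rk (A i j x y) = r then D i j x y else 0 := fun r _ => if_pos h
      rw [if_pos h, sum_congr rfl h2, sum_ite_eq (range R) (rk (A i j x y)) fun _ => D i j x y,
        if_pos (mem_range.2 (hR i (mem_range.1 hi) j (mem_range.1 hj)))]
    · rw [if_neg h]
      exact (sum_eq_zero fun r _ => if_neg h).symm
  rw [h1]
  exact (abs_sum_le_sum_abs _ _).trans (sum_le_sum fun r _ => abs_XS_le_MX _ k x y)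

theorem lw_nn (β s : ℝ) : 0 ≤ lw β s := by
  unfold lw
  have h0 : 0 ≤ max 0 (Real.log (1 / s)) := le_max_left _ _
  exact mul_nonneg (sq_nonneg _) (Real.rpow_nonneg (by linarith) _)

/-- the weight dominates the blocks -/
theorem lx_pt {β a : ℝ} (hβ : 0 ≤ β) (ha : 0 ≤ a) (r : ℕ) :
    ((2 : ℝ) ^ r) ^ β * (if rk a = r then a else 0) ^ 2 ≤
      4 ^ β * if rk a = r then lw β a else 0 := by
  by_cases h : rk a = r
  · rw [if_pos h, if_pos h]
    rcases ha.eq_or_lt with h0 | h0
    · rw [← h0]
      unfold lw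
      simp
    · have h1 := rk_le h0
      rw [h] at h1
      have h2 : 0 ≤ max 0 (Real.log (1 / a)) := le_max_left _ _
      have h3 : ((2 : ℝ) ^ r) ^ β ≤ (4 * (1 + max 0 (Real.log (1 / a)))) ^ β :=
        Real.rpow_le_rpow (by positivity) h1 hβ
      rw [Real.mul_rpow (by norm_num) (by linarith)] at h3
      unfold lw
      calc ((2 : ℝ) ^ r) ^ β * a ^ 2 ≤
          (4 ^ β * (1 + max 0 (Real.log (1 / a))) ^ β) * a ^ 2 :=
            mul_le_mul_of_nonneg_right h3 (sq_nonneg _)
        _ = _ := by ring
  · rw [if_neg h, if_neg h]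
    simp

/-- the numerical inequality for the block `r` -/
theorem lx_num {β θ : ℝ} (hθ : θ = (2 : ℝ) ^ (-((β - 1) / 2))) (r : ℕ) :
    1 + (2 : ℝ) ^ r ≤ 2 * ((2 : ℝ) ^ r) ^ β * (θ ^ r) ^ 2 := by
  set s : ℝ := (2 : ℝ) ^ r with hs
  have hs0 : 0 < s := by positivity
  have hs1 : 1 ≤ s := one_le_pow₀ (by norm_num)
  have h1 : θ ^ r = s ^ (-((β - 1) / 2)) := by
    rw [hθ, hs, ← Real.rpow_natCast, ← Real.rpow_natCast, ← Real.rpow_mul (by norm_num),
      ← Real.rpow_mul (by norm_num), mul_comm]
  have h2 : (θ ^ r) ^ 2 = s ^ (1 - β) := by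
    rw [h1, ← Real.rpow_natCast, ← Real.rpow_mul hs0.le]
    congr 1
    push_cast
    ring
  have h3 : s ^ β * s ^ (1 - β) = s := by
    rw [← Real.rpow_add hs0]
    have : β + (1 - β) = 1 := by ring
    rw [this, Real.rpow_one]
  rw [h2, mul_assoc, h3]
  linarith

/-- X12 -/
theorem lwT (h : SWkA) : SLw := by
  obtain ⟨C, hC, h⟩ := h
  intro β hβ
  set θ : ℝ := (2 : ℝ) ^ (-((β - 1) / 2)) with hθ
  have hθ0 : 0 < θ := Real.rpow_pos_of_pos (by norm_num) _
  have hθ1 : θ < 1 := Real.rpow_lt_one_of_one_lt_of_neg (by norm_num) (by linarith)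
  have hc : 0 < 1 - θ := by linarith
  have h4 : (0 : ℝ) < 4 ^ β := Real.rpow_pos_of_pos (by norm_num) _
  refine ⟨2 * C * 4 ^ β / (1 - θ) ^ 2 + 1, by positivity, ?_, lw_nn β, ?_, ?_, ?_⟩
  · unfold lw
    have h1 : Measurable fun a : ℝ => 1 + max 0 (Real.log (1 / a)) :=
      (measurable_const.max (Real.measurable_log.comp (measurable_const.div measurable_id))).const_add 1
    exact (measurable_id.pow_const 2).mul (h1.pow_const β)
  · unfold lw
    simp
  · intro t ht
    unfold cw
    have h0 : 0 ≤ max 0 (Real.log t) := le_max_left _ _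
    positivity
  · intro n m D A hA t ht
    -- all amplitudes lie in finitely many blocks
    obtain ⟨R, hR⟩ : ∃ R : ℕ, ∀ i < n, ∀ j < m, ∀ x y, rk (A i j x y) < R := by
      refine ⟨(univ : Finset (Fin n × Fin m × Q n × Q m)).sup
        (fun p => rk (A p.1 p.2.1 p.2.2.1 p.2.2.2)) + 1, fun i hi j hj x y => ?_⟩
      exact Nat.lt_succ_of_le (le_sup (f := fun p : Fin n × Fin m × Q n × Q m =>
        rk (A p.1 p.2.1 p.2.2.1 p.2.2.2)) (mem_univ (⟨i, hi⟩, ⟨j, hj⟩, x, y)))
    set L : ℝ := max 0 (Real.log t) with hL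
    have hL0 : 0 ≤ L := le_max_left _ _
    set T : ℕ → ℝ := fun r => t * (1 - θ) * θ ^ r with hT
    have hT0 : ∀ r, 0 < T r := fun r => by rw [hT]; positivity
    have hTt : ∀ r, T r ≤ t := fun r => by
      have e1 : θ ^ r ≤ 1 := pow_le_one₀ hθ0.le hθ1.le
      have e2 : (1 - θ) * θ ^ r ≤ 1 := mul_le_one₀ (by linarith) (by positivity) e1
      calc T r = t * ((1 - θ) * θ ^ r) := by rw [hT]; ring
        _ ≤ t * 1 := mul_le_mul_of_nonneg_left e2 ht.le
        _ = t := mul_one t
    have hTs : ∑ r ∈ range R, T r ≤ t := by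
      rw [hT, ← mul_sum]
      have e1 := geom_sum_mul_neg θ R
      have e2 : (1 - θ) * ∑ r ∈ range R, θ ^ r = 1 - θ ^ R := by rw [mul_comm]; exact e1
      rw [mul_assoc, e2]
      have e3 : 0 ≤ θ ^ R := by positivity
      nlinarith
    -- one block
    have hblk : ∀ r, av2 (fun x y => ind (T r <
        MX (fun i j x y => if rk (A i j x y) = r then D i j x y else 0) x y)) ≤
        2 * C * 4 ^ β / (1 - θ) ^ 2 / t ^ 2 * (1 + L) * ∑ i ∈ range n, ∑ j ∈ range m,
          av2 fun x y => if rk (A i j x y) = r then lw β (A i j x y) else 0 := by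
      intro r
      set s : ℝ := (2 : ℝ) ^ r with hs
      have hs0 : 0 < s := by positivity
      have hα : (0 : ℝ) < (1 / 2 : ℝ) ^ (2 ^ r) := by positivity
      have e1 := h n m _ _ ((1 / 2 : ℝ) ^ (2 ^ r)) (T r) (lx_ar2 hA fun a => rk a = r) hα (hT0 r)
        (fun i j x y => by
          show (if rk (A i j x y) = r then A i j x y else 0) = 0 ∨
            (1 / 2 : ℝ) ^ (2 ^ r) ≤ if rk (A i j x y) = r then A i j x y else 0
          by_cases e : rk (A i j x y) = r
          · rw [if_pos e]
            rcases (hA.na i j x y).eq_or_lt with e2 | e2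
            · exact Or.inl e2.symm
            · exact Or.inr (by rw [← e]; exact rk_spec e2)
          · rw [if_neg e]
            exact Or.inl rfl)
      refine e1.trans ?_
      set X : ℝ := ∑ i ∈ range n, ∑ j ∈ range m,
        av2 fun x y => (if rk (A i j x y) = r then A i j x y else 0) ^ 2 with hX
      set Y : ℝ := ∑ i ∈ range n, ∑ j ∈ range m,
        av2 fun x y => if rk (A i j x y) = r then lw β (A i j x y) else 0 with hY
      have hX0 : 0 ≤ X := sum_nonneg fun i _ => sum_nonneg fun j _ =>
        av2_nonneg fun x y => sq_nonneg _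
      have hXY : s ^ β * X ≤ 4 ^ β * Y := by
        rw [hX, hY, mul_sum, mul_sum]
        refine sum_le_sum fun i _ => ?_
        rw [mul_sum, mul_sum]
        refine sum_le_sum fun j _ => ?_
        rw [← av2_mul_left, ← av2_mul_left]
        exact av2_mono fun x y => lx_pt (by linarith) (hA.na i j x y) r
      have e2 : max 0 (Real.log (T r / (1 / 2 : ℝ) ^ (2 ^ r))) ≤ L + s := by
        refine max_le (by positivity) ?_
        rw [Real.log_div (hT0 r).ne' hα.ne', Real.log_pow, one_div, Real.log_inv]
        have e3 : Real.log (T r) ≤ L :=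
          (Real.log_le_log (hT0 r) (hTt r)).trans (le_max_right _ _)
        have e4 : Real.log 2 ≤ 1 := by
          have := Real.log_two_lt_d9
          linarith
        have e5 : s * Real.log 2 ≤ s * 1 := mul_le_mul_of_nonneg_left e4 hs0.le
        push_cast
        rw [← hs]
        linarith
      have e3 : 1 + max 0 (Real.log (T r / (1 / 2 : ℝ) ^ (2 ^ r))) ≤
          (1 + L) * (2 * s ^ β * (θ ^ r) ^ 2) := by
        have e4 := lx_num hθ r
        rw [← hs] at e4
        calc _ ≤ 1 + (L + s) := by linarith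
          _ ≤ (1 + L) * (1 + s) := by nlinarith [mul_nonneg hL0 hs0.le]
          _ ≤ _ := mul_le_mul_of_nonneg_left e4 (by linarith)
      have hCT : 0 ≤ C / T r ^ 2 := div_nonneg hC (sq_nonneg _)
      have hθr : 0 < θ ^ r := by positivity
      calc C / T r ^ 2 * (1 + max 0 (Real.log (T r / (1 / 2 : ℝ) ^ (2 ^ r)))) * X ≤
          C / T r ^ 2 * ((1 + L) * (2 * s ^ β * (θ ^ r) ^ 2)) * X :=
            mul_le_mul_of_nonneg_right (mul_le_mul_of_nonneg_left e3 hCT) hX0
        _ = 2 * C / (1 - θ) ^ 2 / t ^ 2 * (1 + L) * (s ^ β * X) := by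
            rw [hT]
            field_simp
        _ ≤ 2 * C / (1 - θ) ^ 2 / t ^ 2 * (1 + L) * (4 ^ β * Y) :=
            mul_le_mul_of_nonneg_left hXY (by positivity)
        _ = _ := by ring
    -- the union bound
    have hun : ∀ x y, ind (t < MX D x y) ≤ ∑ r ∈ range R, ind (T r <
        MX (fun i j x y => if rk (A i j x y) = r then D i j x y else 0) x y) := by
      intro x y
      have hi0 : ∀ p : Prop, 0 ≤ ind p := fun p => by
        unfold ind
        split_ifs <;> norm_num
      by_cases ht1 : t < MX D x y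
      · have e1 : ∃ r ∈ range R, T r <
            MX (fun i j x y => if rk (A i j x y) = r then D i j x y else 0) x y := by
          by_contra hcon
          push Not at hcon
          have e2 := (lx_mx D A R x y fun i hi j hj => hR i hi j hj x y).trans
            ((sum_le_sum hcon).trans hTs)
          linarith
        obtain ⟨r, hr, hr2⟩ := e1
        refine le_trans ?_ (single_le_sum (fun r _ => hi0 _) hr)
        unfold ind
        rw [if_pos ht1, if_pos hr2]
      · have e1 : ind (t < MX D x y) = 0 := if_neg ht1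
        rw [e1]
        exact sum_nonneg fun r _ => hi0 _
    -- the sum of the blocks
    have hsum : ∑ r ∈ range R, ∑ i ∈ range n, ∑ j ∈ range m,
        (av2 fun x y => if rk (A i j x y) = r then lw β (A i j x y) else 0) =
        ∑ i ∈ range n, ∑ j ∈ range m, av2 fun x y => lw β (A i j x y) := by
      rw [sum_comm]
      refine sum_congr rfl fun i hi => ?_
      rw [sum_comm]
      refine sum_congr rfl fun j hj => ?_
      rw [← av2_sum]
      congr 1
      funext x y
      rw [sum_ite_eq (range R) (rk (A i j x y)) fun _ => lw β (A i j x y),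
        if_pos (mem_range.2 (hR i (mem_range.1 hi) j (mem_range.1 hj) x y))]
    have hY0 : 0 ≤ ∑ i ∈ range n, ∑ j ∈ range m, av2 fun x y => lw β (A i j x y) :=
      sum_nonneg fun i _ => sum_nonneg fun j _ => av2_nonneg fun x y => lw_nn β _
    calc av2 (fun x y => ind (t < MX D x y)) ≤ av2 fun x y => ∑ r ∈ range R, ind (T r <
          MX (fun i j x y => if rk (A i j x y) = r then D i j x y else 0) x y) :=
          av2_mono hun
      _ = ∑ r ∈ range R, av2 fun x y => ind (T r <
          MX (fun i j x y => if rk (A i j x y) = r then D i j x y else 0) x y) := av2_sum _ _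
      _ ≤ ∑ r ∈ range R, 2 * C * 4 ^ β / (1 - θ) ^ 2 / t ^ 2 * (1 + L) *
          ∑ i ∈ range n, ∑ j ∈ range m,
            av2 fun x y => if rk (A i j x y) = r then lw β (A i j x y) else 0 :=
          sum_le_sum fun r _ => hblk r
      _ = 2 * C * 4 ^ β / (1 - θ) ^ 2 / t ^ 2 * (1 + L) *
          ∑ i ∈ range n, ∑ j ∈ range m, av2 fun x y => lw β (A i j x y) := by
          rw [← mul_sum, hsum]
      _ ≤ cw (2 * C * 4 ^ β / (1 - θ) ^ 2 + 1) t *
          ∑ i ∈ range n, ∑ j ∈ range m, av2 fun x y => lw β (A i j x y) := by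
          refine mul_le_mul_of_nonneg_right ?_ hY0
          unfold cw
          rw [← hL]
          refine mul_le_mul_of_nonneg_right ?_ (by linarith)
          exact div_le_div_of_nonneg_right (by linarith) (by positivity)

end Pool.Agent.H79.RV
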