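import Pool.Agent.H79.RV.StmR

/-!
# MP_a7284e_an, project RV, row P4: the weak type inequality for the sharp cut-offs
-/

set_option autoImplicit false

namespace Pool.Agent.H79.RV

open MeasureTheory FourierTransform Filter Topology Finset Classical ENNReal
open Pool.Agent.H73.Hyp
open Pool.Agent.H79.RT Pool.Agent.H79.RU

/-- the measure of a level set from a majorant -/
theorem mv_maj (K : Finset ℤ) (X : ℤ → L2) {B t : ℝ} (hB : 0 ≤ B) (ht : 0 < t)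
    (h : Maj K X B) :
    volume {z : E2 | ∃ k ∈ K, t < ‖X k z‖} ≤ ENNReal.ofReal (B / t ^ 2) := by
  rcases K.eq_empty_or_nonempty with hK | hK
  · subst hK
    simp
  obtain ⟨G, g1, g2, g3⟩ := h
  obtain ⟨k0, hk0⟩ := hK
  have h0 : 0 ≤ᵐ[volume] G := by
    filter_upwards [g2] with x hx
    exact (sq_nonneg _).trans (hx k0 hk0)
  have ht2 : 0 < t ^ 2 := by positivity
  have e1 : volume {z : E2 | ∃ k ∈ K, t < ‖X k z‖} ≤
      volume {z : E2 | ENNReal.ofReal (t ^ 2) ≤ ENNReal.ofReal (G z)} := by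
    refine measure_mono_ae ?_
    filter_upwards [g2] with x hx
    rintro ⟨k, hk, hkt⟩
    refine ENNReal.ofReal_le_ofReal (le_trans ?_ (hx k hk))
    exact pow_le_pow_left₀ ht.le hkt.le 2
  have e2 : volume {z : E2 | ENNReal.ofReal (t ^ 2) ≤ ENNReal.ofReal (G z)} ≤
      (∫⁻ z : E2, ENNReal.ofReal (G z)) / ENNReal.ofReal (t ^ 2) :=
    meas_ge_le_lintegral_div g1.aemeasurable.ennreal_ofReal
      (by rw [Ne, ENNReal.ofReal_eq_zero]; linarith) ENNReal.ofReal_ne_top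
  have e3 : ∫⁻ z : E2, ENNReal.ofReal (G z) = ENNReal.ofReal (∫ z, G z) :=
    (ofReal_integral_eq_lintegral_ofReal g1 h0).symm
  refine e1.trans (e2.trans ?_)
  rw [e3, ENNReal.ofReal_div_of_pos ht2]
  exact ENNReal.div_le_div_right (ENNReal.ofReal_le_ofReal g3) _

/-- finitely many integers -/
theorem mv_fin (h2 : SAq) {q : ℝ} (hq : 1 < q) {C D : ℝ} (hC : 0 ≤ C) (hD : 0 ≤ D)
    (h1 : ∀ (L L' : ℕ) (f : L2) (K : Finset ℤ) (t : ℝ), 0 < t →
      volume {z : E2 | ∃ k ∈ K, t < ‖Xs L L' k f z‖} ≤ ENNReal.ofReal (C / t ^ q) *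
      ∑ i ∈ range (2 * L), ∑ j ∈ range (2 * L'), ∫⁻ z : E2, ENNReal.ofReal (‖bb L L' f i j z‖ ^ q))
    (h3 : ∀ (f : L2) (K : Finset ℤ), ∃ L L' : ℕ,
      Maj K (fun k => Hc k f - Xs L L' k f) (D * ‖f‖ ^ 2)) (f : L2) (K : Finset ℤ) {t : ℝ}
    (ht : 0 < t) :
    volume {z : E2 | ∃ k ∈ K, t < ‖Hc k f z‖} ≤
      ENNReal.ofReal ((C * 2 ^ q + 4 * D) / t ^ q) * Aq q f +
        ENNReal.ofReal ((C * 2 ^ q + 4 * D) / t ^ 2 * ‖f‖ ^ 2) := by
  obtain ⟨L, L', hM⟩ := h3 f K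
  have ht' : 0 < t / 2 := by positivity
  have hDf : 0 ≤ D * ‖f‖ ^ 2 := by positivity
  have a1 := h1 L L' f K (t / 2) ht'
  have a2 := mv_maj K (fun k => Hc k f - Xs L L' k f) hDf ht' hM
  have h2q : (0 : ℝ) < 2 ^ q := Real.rpow_pos_of_pos (by norm_num) q
  have htq : (0 : ℝ) < t ^ q := Real.rpow_pos_of_pos ht q
  have hsub : volume {z : E2 | ∃ k ∈ K, t < ‖Hc k f z‖} ≤
      volume ({z : E2 | ∃ k ∈ K, t / 2 < ‖Xs L L' k f z‖} ∪
        {z : E2 | ∃ k ∈ K, t / 2 < ‖(Hc k f - Xs L L' k f : L2) z‖}) := by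
    refine measure_mono_ae ?_
    have h4 : ∀ᵐ x : E2, ∀ k ∈ K, (Hc k f - Xs L L' k f : L2) x = Hc k f x - Xs L L' k f x := by
      rw [Finset.eventually_all]
      intro k _
      filter_upwards [Lp.coeFn_sub (Hc k f) (Xs L L' k f)] with x hx
      rw [hx, Pi.sub_apply]
    filter_upwards [h4] with x hx
    rintro ⟨k, hk, hkt⟩
    by_cases hc : t / 2 < ‖Xs L L' k f x‖
    · exact Or.inl ⟨k, hk, hc⟩
    · refine Or.inr ⟨k, hk, ?_⟩
      rw [hx k hk]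
      have := norm_sub_norm_le (Hc k f x) (Xs L L' k f x)
      push Not at hc
      linarith
  refine hsub.trans ((measure_union_le _ _).trans (add_le_add ?_ ?_))
  · refine a1.trans (mul_le_mul' (ENNReal.ofReal_le_ofReal ?_) (h2 q hq f L L'))
    rw [Real.div_rpow ht.le (by norm_num)]
    have e : C / (t ^ q / 2 ^ q) = C * 2 ^ q / t ^ q := by
      field_simp
    rw [e]
    exact div_le_div_of_nonneg_right (by linarith) htq.le
  · refine a2.trans (ENNReal.ofReal_le_ofReal ?_)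
    have e : D * ‖f‖ ^ 2 / (t / 2) ^ 2 = 4 * D / t ^ 2 * ‖f‖ ^ 2 := by
      field_simp
      ring
    rw [e]
    refine mul_le_mul_of_nonneg_right ?_ (sq_nonneg _)
    refine div_le_div_of_nonneg_right ?_ (sq_nonneg _)
    have : 0 ≤ C * 2 ^ q := by positivity
    linarith

/-- P4: the weak type inequality for the sharp hyperbolic cut-offs -/
theorem maxV (h1 : STrV) (h2 : SAq) (h3 : SCmp) : SMaxV := by
  intro q hq hq'
  obtain ⟨C, hC, h1⟩ := h1 q hq hq'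
  obtain ⟨D, hD, h3⟩ := h3
  have h2q : (0 : ℝ) < 2 ^ q := Real.rpow_pos_of_pos (by norm_num) q
  refine ⟨C * 2 ^ q + 4 * D, by positivity, fun f t ht => ?_⟩
  have hU : {z : E2 | ∃ k : ℤ, t < ‖Hc k f z‖} =
      ⋃ N : ℕ, {z : E2 | ∃ k ∈ Finset.Icc (-(N : ℤ)) (N : ℤ), t < ‖Hc k f z‖} := by
    ext z
    simp only [Set.mem_setOf_eq, Set.mem_iUnion]
    constructor
    · rintro ⟨k, hk⟩
      refine ⟨k.natAbs, k, ?_, hk⟩
      rw [Finset.mem_Icc]
      omega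
    · rintro ⟨N, k, -, hk⟩
      exact ⟨k, hk⟩
  have hmono : Monotone fun N : ℕ =>
      {z : E2 | ∃ k ∈ Finset.Icc (-(N : ℤ)) (N : ℤ), t < ‖Hc k f z‖} := by
    intro a b hab z hz
    obtain ⟨k, hk, hkt⟩ := hz
    refine ⟨k, ?_, hkt⟩
    rw [Finset.mem_Icc] at hk ⊢
    omega
  rw [hU, hmono.measure_iUnion]
  exact iSup_le fun N => mv_fin h2 hq hC hD h1 h3 f _ ht

end Pool.Agent.H79.RV
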