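import Pool.Agent.H79.RV.StmF
import Pool.Agent.H79.RV.MaxV

/-!
# MP_a7284e_an, project RV, row F4: the weak type inequality for the sharp cut-offs, general weights
-/

set_option autoImplicit false

namespace Pool.Agent.H79.RV

open MeasureTheory FourierTransform Filter Topology Finset Classical ENNReal
open Pool.Agent.H73.Hyp
open Pool.Agent.H79.RT Pool.Agent.H79.RU

/-- finitely many integers -/
theorem mxf_fin (h1 : STrF) (h2 : SAF) {D : ℝ} (hD : 0 ≤ D)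
    (h3 : ∀ (f : L2) (K : Finset ℤ), ∃ L L' : ℕ,
      Maj K (fun k => Hc k f - Xs L L' k f) (D * ‖f‖ ^ 2)) {Φ c : ℝ → ℝ} (hW : Wt Φ c)
    (f : L2) (K : Finset ℤ) {t : ℝ} (ht : 0 < t) :
    volume {z : E2 | ∃ k ∈ K, t < ‖Hc k f z‖} ≤
      ENNReal.ofReal (2 * c (t / 4)) * AF Φ f + ENNReal.ofReal (4 * D / t ^ 2 * ‖f‖ ^ 2) := by
  obtain ⟨L, L', hM⟩ := h3 f K
  have ht' : 0 < t / 2 := by positivity
  have hDf : 0 ≤ D * ‖f‖ ^ 2 := by positivity
  have a1 := h1 Φ c hW L L' f K (t / 2) ht'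
  have a2 := mv_maj K (fun k => Hc k f - Xs L L' k f) hDf ht' hM
  have hsub : volume {z : E2 | ∃ k ∈ K, t < ‖Hc k f z‖} ≤
      volume ({z : E2 | ∃ k ∈ K, t / 2 < ‖Xs L L' k f z‖} ∪
        {z : E2 | ∃ k ∈ K, t / 2 < ‖(Hc k f - Xs L L' k f : L2) z‖}) := by
    refine measure_mono_ae ?_
    have h4 : ∀ᵐ x : E2, ∀ k ∈ K, (Hc k f - Xs L L' k f : L2) x = Hc k f x - Xs L L' k f x := by
      rw [Finset.eventually_all]
      intro k _
      filter_upwards [Lp.coeFn_sub (Hc k f) (Xs L L' k f)] with x hx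
      rw [hx, Pi.sub_apply]
    filter_upwards [h4] with x hx
    rintro ⟨k, hk, hkt⟩
    by_cases hc : t / 2 < ‖Xs L L' k f x‖
    · exact Or.inl ⟨k, hk, hc⟩
    · refine Or.inr ⟨k, hk, ?_⟩
      rw [hx k hk]
      have := norm_sub_norm_le (Hc k f x) (Xs L L' k f x)
      push Not at hc
      linarith
  refine hsub.trans ((measure_union_le _ _).trans (add_le_add ?_ ?_))
  · have e : t / 2 / 2 = t / 4 := by ring
    rw [e] at a1
    exact a1.trans (mul_le_mul' le_rfl (h2 Φ hW.meas hW.nn f L L'))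
  · refine a2.trans (ENNReal.ofReal_le_ofReal (le_of_eq ?_))
    field_simp
    ring

/-- F4: the weak type inequality for the sharp hyperbolic cut-offs -/
theorem maxF (h1 : STrF) (h2 : SAF) (h3 : SCmp) : SMaxF := by
  obtain ⟨D, hD, h3⟩ := h3
  refine ⟨4 * D, by positivity, fun Φ c hW f t ht => ?_⟩
  have hU : {z : E2 | ∃ k : ℤ, t < ‖Hc k f z‖} =
      ⋃ N : ℕ, {z : E2 | ∃ k ∈ Finset.Icc (-(N : ℤ)) (N : ℤ), t < ‖Hc k f z‖} := by
    ext z
    simp only [Set.mem_setOf_eq, Set.mem_iUnion]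
    constructor
    · rintro ⟨k, hk⟩
      refine ⟨k.natAbs, k, ?_, hk⟩
      rw [Finset.mem_Icc]
      omega
    · rintro ⟨N, k, -, hk⟩
      exact ⟨k, hk⟩
  have hmono : Monotone fun N : ℕ =>
      {z : E2 | ∃ k ∈ Finset.Icc (-(N : ℤ)) (N : ℤ), t < ‖Hc k f z‖} := by
    intro a b hab z hz
    obtain ⟨k, hk, hkt⟩ := hz
    refine ⟨k, ?_, hkt⟩
    rw [Finset.mem_Icc] at hk ⊢
    omega
  rw [hU, hmono.measure_iUnion]
  exact iSup_le fun N => mxf_fin h1 h2 hD h3 hW f _ ht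

end Pool.Agent.H79.RV
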