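import Pool.Agent.H79.RV.Stm

/-!
# MP_a7284e_an, project RV: powers of `dd` (V9) and the times `tri` (V10)
-/

set_option autoImplicit false

namespace Pool.Agent.H79.RV

open Finset Classical
open Pool.Agent.H79.RT Pool.Agent.H79.RU

/-! ### the times -/

/-- triangular numbers -/
def powT (s : ℕ) : ℕ := s * (s + 1) / 2

theorem powT_succ (s : ℕ) : powT (s + 1) = powT s + (s + 1) := by
  unfold powT
  have h : (s + 1) * (s + 1 + 1) = s * (s + 1) + 2 * (s + 1) := by ring
  rw [h]
  omega

theorem powT_mono {s t : ℕ} (h : s ≤ t) : powT s ≤ powT t := by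
  induction t with
  | zero => rw [Nat.le_zero.1 h]
  | succ t ih =>
    rcases Nat.lt_or_ge t s with h1 | h1
    · rw [show s = t + 1 by omega]
    · rw [powT_succ]
      exact (ih h1).trans (Nat.le_add_right _ _)

theorem pow_tri (i j : ℕ) : tri i j = powT (i + j) + i + 1 := rfl

theorem pow_tri_gt (i j : ℕ) : powT (i + j) < tri i j := by
  rw [pow_tri]; omega

theorem pow_tri_le (i j : ℕ) : tri i j ≤ powT (i + j + 1) := by
  rw [pow_tri, powT_succ]; omega

/-- the level of a site is monotone in its time -/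
theorem pow_tri_lt {i j i' j' : ℕ} (h : i + j < i' + j') : tri i j < tri i' j' :=
  (pow_tri_le i j).trans_lt ((powT_mono h).trans_lt (pow_tri_gt i' j'))

theorem triC : STri := by
  refine ⟨⟨fun i j => ?_, fun i i' j h => pow_tri_lt (by omega),
    fun i j j' h => pow_tri_lt (by omega), fun i j i' j' h => ?_⟩, fun i j k => ?_⟩
  · rw [pow_tri]; omega
  · have h1 : i + j = i' + j' := by
      rcases lt_trichotomy (i + j) (i' + j') with h2 | h2 | h2
      · exact absurd h (pow_tri_lt h2).ne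
      · exact h2
      · exact absurd h (pow_tri_lt h2).ne'
    rw [pow_tri, pow_tri, h1] at h
    omega
  · have h0 : (k + 1) * (k + 2) / 2 = powT (k + 1) := rfl
    rw [h0]
    constructor
    · intro h
      exact (pow_tri_le i j).trans (powT_mono (by omega))
    · intro h
      by_contra hc
      have h1 := pow_tri_gt i j
      have h2 : powT (k + 1) ≤ powT (i + j) := powT_mono (by omega)
      omega

/-! ### powers -/

theorem pow_ind_nonneg (p : Prop) : 0 ≤ ind p := by
  unfold ind; split <;> norm_num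

theorem pow_ind_le (p : Prop) : ind p ≤ 1 := by
  unfold ind; split <;> norm_num

theorem pow_sg_abs {n : ℕ} (i : ℕ) (x : Q n) : |sg i x| ≤ 1 := by
  unfold sg
  split
  · split <;> simp
  · simp

theorem pow_av2_abs {n m : ℕ} {F : Q n → Q m → ℝ} (h : ∀ x y, |F x y| ≤ 1) : |av2 F| ≤ 1 := by
  rw [abs_le]
  constructor
  · rw [← av2_const (n := n) (m := m) (-1)]
    exact av2_mono fun x y => (abs_le.1 (h x y)).1
  · rw [← av2_const (n := n) (m := m) 1]
    exact av2_mono fun x y => (abs_le.1 (h x y)).2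

theorem pow_dd_abs {n m : ℕ} (τ : ℕ → ℕ → ℕ) (T : Q n → Q m → ℕ) (i j : ℕ) (x : Q n)
    (y : Q m) : |dd τ T i j x y| ≤ 1 := by
  unfold dd c2
  refine pow_av2_abs fun u v => ?_
  rw [abs_mul, abs_mul]
  have h1 := pow_sg_abs i (mix i x u)
  have h2 := pow_sg_abs j (mix j y v)
  have h3 : |ind (τ i j ≤ T (mix i x u) (mix j y v))| ≤ 1 := by
    rw [abs_of_nonneg (pow_ind_nonneg _)]
    exact pow_ind_le _
  have h4 : |sg i (mix i x u)| * |sg j (mix j y v)| ≤ 1 :=
    mul_le_one₀ h1 (abs_nonneg _) h2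
  exact mul_le_one₀ h4 (abs_nonneg _) h3

/-- dyadic decomposition of a power -/
theorem pow_dyadic {p : ℝ} (hp : 0 < p) {d : ℝ} (h0 : 0 ≤ d) (h1 : d ≤ 1) (L : ℕ) :
    d ^ p ≤ ∑ l ∈ range L, ((1 / 2 : ℝ) ^ p) ^ l * ind ((1 / 2 : ℝ) ^ (l + 1) ≤ d) +
      ((1 / 2 : ℝ) ^ p) ^ L := by
  have hq : 0 ≤ (1 / 2 : ℝ) ^ p := by positivity
  induction L with
  | zero =>
    simp only [range_zero, sum_empty, pow_zero, zero_add]
    exact Real.rpow_le_one h0 h1 hp.le
  | succ L ih =>
    rw [sum_range_succ]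
    by_cases h : (1 / 2 : ℝ) ^ (L + 1) ≤ d
    · rw [show ind ((1 / 2 : ℝ) ^ (L + 1) ≤ d) = 1 from if_pos h, mul_one]
      exact ih.trans (le_add_of_nonneg_right (pow_nonneg hq _))
    · have h2 : d ≤ (1 / 2 : ℝ) ^ (L + 1) := (not_le.1 h).le
      have h3 : d ^ p ≤ ((1 / 2 : ℝ) ^ p) ^ (L + 1) := by
        refine (Real.rpow_le_rpow h0 h2 hp.le).trans (le_of_eq ?_)
        rw [← Real.rpow_natCast, ← Real.rpow_natCast, ← Real.rpow_mul (by norm_num),
          ← Real.rpow_mul (by norm_num), mul_comm]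
      refine h3.trans (le_add_of_nonneg_left (add_nonneg (sum_nonneg fun l _ => ?_) ?_))
      · exact mul_nonneg (pow_nonneg hq _) (pow_ind_nonneg _)
      · exact mul_nonneg (pow_nonneg hq _) (pow_ind_nonneg _)

theorem powr (h8 : SCount2) : SPow := by
  intro p hp
  obtain ⟨C, hC, h8⟩ := h8 ((2 + p) / 2) (by linarith)
  set r : ℝ := (2 + p) / 2 with hr
  set q : ℝ := (1 / 2 : ℝ) ^ p with hqd
  set s : ℝ := (1 / 2 : ℝ) ^ r with hsd
  have hq0 : 0 < q := by positivity
  have hs0 : 0 < s := by positivity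
  have hqs : q < s :=
    Real.rpow_lt_rpow_of_exponent_gt (by norm_num) (by norm_num) (by rw [hr]; linarith)
  have hs1 : s ≤ 1 := Real.rpow_le_one (by norm_num) (by norm_num) (by rw [hr]; linarith)
  have hr0 : 0 ≤ q / s := by positivity
  have hr1 : q / s < 1 := (div_lt_one hs0).2 hqs
  refine ⟨C / s / (1 - q / s), div_nonneg (by positivity) (by linarith), ?_⟩
  intro n m τ T hτ
  have hs : 0 ≤ sup0 T := av2_nonneg fun x y => pow_ind_nonneg _
  have key : ∀ L : ℕ, ∑ i ∈ range n, ∑ j ∈ range m, av2 (fun x y => |dd τ T i j x y| ^ p) ≤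
      C / s / (1 - q / s) * sup0 T + n * m * q ^ L := by
    intro L
    have e1 : ∀ i j, av2 (fun x y => |dd τ T i j x y| ^ p) ≤
        ∑ l ∈ range L, q ^ l * av2 (fun x y => ind ((1 / 2 : ℝ) ^ (l + 1) ≤ |dd τ T i j x y|)) +
          q ^ L := by
      intro i j
      refine (av2_mono fun x y => pow_dyadic (by linarith) (abs_nonneg _)
        (pow_dd_abs τ T i j x y) L).trans (le_of_eq ?_)
      rw [av2_add, av2_const, av2_sum]
      congr 1
      refine sum_congr rfl fun l _ => ?_
      exact av2_mul_left _ _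
    have e2 : ∑ i ∈ range n, ∑ j ∈ range m, av2 (fun x y => |dd τ T i j x y| ^ p) ≤
        ∑ l ∈ range L, q ^ l * cnt (fun i j x y => (1 / 2 : ℝ) ^ (l + 1) ≤ |dd τ T i j x y|) +
          n * m * q ^ L := by
      refine (sum_le_sum fun i _ => sum_le_sum fun j _ => e1 i j).trans (le_of_eq ?_)
      simp only [sum_add_distrib, sum_const, card_range, nsmul_eq_mul]
      congr 1
      · unfold cnt
        simp only [mul_sum]
        exact (sum_congr rfl fun i _ => sum_comm).trans sum_comm
      · ring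
    have e3 : ∀ l, q ^ l *
        cnt (fun i j x y => (1 / 2 : ℝ) ^ (l + 1) ≤ |dd τ T i j x y|) ≤
          (C / s * sup0 T) * (q / s) ^ l := by
      intro l
      have h1 := h8 n m τ T ((1 / 2 : ℝ) ^ (l + 1)) hτ (by positivity)
        (pow_le_one₀ (by norm_num) (by norm_num))
      refine (mul_le_mul_of_nonneg_left h1 (pow_nonneg hq0.le l)).trans (le_of_eq ?_)
      have h2 : ((1 / 2 : ℝ) ^ (l + 1)) ^ r = s * s ^ l := by
        rw [← pow_succ', hsd, ← Real.rpow_natCast, ← Real.rpow_natCast,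
          ← Real.rpow_mul (by norm_num), ← Real.rpow_mul (by norm_num), mul_comm]
      rw [h2, div_pow]
      field_simp
    have e4 : ∑ l ∈ range L, q ^ l *
        cnt (fun i j x y => (1 / 2 : ℝ) ^ (l + 1) ≤ |dd τ T i j x y|) ≤
          C / s / (1 - q / s) * sup0 T := by
      refine (sum_le_sum fun l _ => e3 l).trans ?_
      rw [← mul_sum]
      have h1 : ∑ l ∈ range L, (q / s) ^ l ≤ 1 / (1 - q / s) := by
        rw [le_div_iff₀ (by linarith), mul_comm, mul_neg_geom_sum]
        have := pow_nonneg hr0 L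
        linarith
      have h2 : 0 ≤ C / s * sup0 T := mul_nonneg (by positivity) hs
      refine (mul_le_mul_of_nonneg_left h1 h2).trans (le_of_eq ?_)
      ring
    linarith
  have hlim : Filter.Tendsto (fun L : ℕ => C / s / (1 - q / s) * sup0 T + n * m * q ^ L)
      Filter.atTop (nhds (C / s / (1 - q / s) * sup0 T + n * m * 0)) :=
    tendsto_const_nhds.add (tendsto_const_nhds.mul
      (tendsto_pow_atTop_nhds_zero_of_lt_one hq0.le (by linarith)))
  rw [mul_zero, add_zero] at hlim
  exact ge_of_tendsto' hlim key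

end Pool.Agent.H79.RV
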