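import Pool.Agent.H79.RV.StmR
import Pool.Agent.H79.RT.Real

/-!
# MP_a7284e_an, project RV, row P8: real parameters
-/

set_option autoImplicit false

namespace Pool.Agent.H79.RV

open MeasureTheory FourierTransform Filter Topology Finset Classical ENNReal
open Pool.Agent.H73.Hyp
open Pool.Agent.H79.RT Pool.Agent.H79.RU

/-- Markov inequality for an integrable majorant -/
theorem rlv_markov (G : E2 → ℝ) (hG : Integrable G) (h0 : ∀ᵐ x, 0 ≤ G x) (B : ℝ)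
    (hB : ∫ x, G x ≤ B) (a : ℝ) (ha : 0 < a) :
    volume {x : E2 | a < G x} ≤ ENNReal.ofReal (B / a) := by
  have h1 : volume {x : E2 | a < G x} ≤
      volume {x : E2 | ENNReal.ofReal a ≤ ENNReal.ofReal (G x)} := by
    refine measure_mono fun x hx => ?_
    exact ENNReal.ofReal_le_ofReal (le_of_lt hx)
  have hm : AEMeasurable (fun x => ENNReal.ofReal (G x)) (volume : Measure E2) :=
    hG.aestronglyMeasurable.aemeasurable.ennreal_ofReal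
  have h2 := meas_ge_le_lintegral_div hm (ε := ENNReal.ofReal a)
    (by simpa using ha) ENNReal.ofReal_ne_top
  rw [← ofReal_integral_eq_lintegral_ofReal hG h0, ← ENNReal.ofReal_div_of_pos ha] at h2
  refine h1.trans (h2.trans (ENNReal.ofReal_le_ofReal ?_))
  exact div_le_div_of_nonneg_right hB ha.le

/-- one of three terms is large -/
theorem rlv_three (a b c : ℂ) (s A B : ℝ) (hs : 0 < s) (h1 : ‖a - b‖ ^ 2 ≤ A)
    (h2 : ‖b - c‖ ^ 2 ≤ B) (h : s < ‖a‖) :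
    (s / 3) ^ 2 < A ∨ (s / 3) ^ 2 < B ∨ s / 3 < ‖c‖ := by
  by_contra hn
  simp only [not_or, not_lt] at hn
  obtain ⟨n1, n2, n3⟩ := hn
  have s3 : 0 ≤ s / 3 := by positivity
  have e1 : ‖a - b‖ ≤ s / 3 := le_of_sq_le_sq (h1.trans n1) s3
  have e2 : ‖b - c‖ ≤ s / 3 := le_of_sq_le_sq (h2.trans n2) s3
  have e : ‖a‖ ≤ ‖a - b‖ + ‖b - c‖ + ‖c‖ := by
    have := norm_add₃_le (a := a - b) (b := b - c) (c := c)
    rwa [sub_add_sub_cancel, sub_add_cancel] at this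
  linarith

/-- the weak type inequality for the continuous versions -/
theorem rlv_weak {lam : ℝ} (hl : 1 / 2 < lam) (hl0 : 0 < lam) {q : ℝ} (hq2 : q < 2)
    {C D : ℝ} (hC : 0 ≤ C) (hD : 0 ≤ D) (f : L2)
    (v : ℝ → E2 → ℂ) (W : ℤ → E2 → ℝ) (h3 : ∀ k, Integrable (W k)) (h4 : ∀ k x, 0 ≤ W k x)
    (h5 : ∀ K : Finset ℤ, ∑ k ∈ K, ∫ x, W k x ≤ C * ‖f‖ ^ 2)
    (h6 : ∀ᵐ x, ∀ (k : ℤ) (t : ℝ), (k : ℝ) ≤ t → t ≤ k + 1 →
        ‖v t x - Ph lam hl0 f k x‖ ^ 2 ≤ W k x)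
    (hm : ∀ t : ℝ, 0 < t → volume {z : E2 | ∃ k : ℤ, t < ‖Hc k f z‖} ≤
      ENNReal.ofReal (D / t ^ q) * Aq q f + ENNReal.ofReal (D / t ^ 2 * ‖f‖ ^ 2))
    (s : ℝ) (hs : 0 < s) :
    volume {z : E2 | ∃ t : ℝ, s < ‖v t z‖} ≤
      ENNReal.ofReal ((9 * D + 9 * C + 18 * (max 1 lam) ^ 2) / s ^ q) * Aq q f +
        ENNReal.ofReal ((9 * D + 9 * C + 18 * (max 1 lam) ^ 2) / s ^ 2 * ‖f‖ ^ 2) := by
  obtain ⟨GW, w1, w2, w3⟩ := real_sum W h3 h4 _ h5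
  obtain ⟨GR, r1, r2, r3⟩ := real_cmp hl hl0 f
  have s3 : 0 < (s / 3) ^ 2 := by positivity
  have w0 : ∀ᵐ x : E2, 0 ≤ GW x := by
    filter_upwards [w2] with x hx
    exact (h4 0 x).trans (hx 0)
  have r0 : ∀ᵐ x : E2, 0 ≤ GR x := by
    filter_upwards [r2] with x hx
    exact (sq_nonneg _).trans (hx 0)
  have a1 := rlv_markov GW w1 w0 _ w3 _ s3
  have a2 := rlv_markov GR r1 r0 _ r3 _ s3
  have a3 := hm (s / 3) (by positivity)
  have a0 : volume {z : E2 | ∃ t : ℝ, s < ‖v t z‖} ≤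
      volume ({x : E2 | (s / 3) ^ 2 < GW x} ∪ ({x : E2 | (s / 3) ^ 2 < GR x} ∪
        {z : E2 | ∃ k : ℤ, s / 3 < ‖Hc k f z‖})) := by
    refine measure_mono_ae ?_
    filter_upwards [w2, r2, h6] with x x1 x2 x3
    intro hx
    obtain ⟨t, ht⟩ : ∃ t : ℝ, s < ‖v t x‖ := hx
    have b1 := x3 ⌊t⌋ t (Int.floor_le t) (Int.lt_floor_add_one t).le
    rw [Ph_int] at b1
    rcases rlv_three _ _ _ s _ _ hs (b1.trans (x1 ⌊t⌋)) (x2 ⌊t⌋) ht with c1 | c1 | c1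
    · exact Or.inl c1
    · exact Or.inr (Or.inl c1)
    · exact Or.inr (Or.inr ⟨⌊t⌋, c1⟩)
  have p0 : (0 : ℝ) ≤ ‖f‖ ^ 2 := sq_nonneg _
  have sq0 : 0 < s ^ q := Real.rpow_pos_of_pos hs q
  have b1 : ENNReal.ofReal (D / (s / 3) ^ q) ≤
      ENNReal.ofReal ((9 * D + 9 * C + 18 * (max 1 lam) ^ 2) / s ^ q) := by
    refine ENNReal.ofReal_le_ofReal ?_
    rw [Real.div_rpow hs.le (by norm_num), div_div_eq_mul_div]
    refine div_le_div_of_nonneg_right ?_ sq0.le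
    have e3 : (3 : ℝ) ^ q ≤ 9 := by
      have := Real.rpow_le_rpow_of_exponent_le (x := (3 : ℝ)) (by norm_num) hq2.le
      have e4 : (3 : ℝ) ^ (2 : ℝ) = 9 := by norm_num
      rwa [e4] at this
    have e5 : D * (3 : ℝ) ^ q ≤ D * 9 := mul_le_mul_of_nonneg_left e3 hD
    have e6 : 0 ≤ 18 * (max 1 lam) ^ 2 := by positivity
    linarith
  have b2 : ENNReal.ofReal (C * ‖f‖ ^ 2 / (s / 3) ^ 2) +
      (ENNReal.ofReal ((max 1 lam) ^ 2 * (2 * ‖f‖ ^ 2) / (s / 3) ^ 2) +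
        ENNReal.ofReal (D / (s / 3) ^ 2 * ‖f‖ ^ 2)) =
      ENNReal.ofReal ((9 * D + 9 * C + 18 * (max 1 lam) ^ 2) / s ^ 2 * ‖f‖ ^ 2) := by
    rw [← ENNReal.ofReal_add (by positivity) (by positivity),
      ← ENNReal.ofReal_add (by positivity) (by positivity)]
    congr 1
    field_simp
    ring
  calc volume {z : E2 | ∃ t : ℝ, s < ‖v t z‖}
      ≤ _ := a0
    _ ≤ volume {x : E2 | (s / 3) ^ 2 < GW x} + (volume {x : E2 | (s / 3) ^ 2 < GR x} +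
        volume {z : E2 | ∃ k : ℤ, s / 3 < ‖Hc k f z‖}) :=
        (measure_union_le _ _).trans (by gcongr; exact measure_union_le _ _)
    _ ≤ ENNReal.ofReal (C * ‖f‖ ^ 2 / (s / 3) ^ 2) +
        (ENNReal.ofReal ((max 1 lam) ^ 2 * (2 * ‖f‖ ^ 2) / (s / 3) ^ 2) +
          (ENNReal.ofReal (D / (s / 3) ^ q) * Aq q f +
            ENNReal.ofReal (D / (s / 3) ^ 2 * ‖f‖ ^ 2))) := by
        gcongr
    _ = ENNReal.ofReal (D / (s / 3) ^ q) * Aq q f +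
        (ENNReal.ofReal (C * ‖f‖ ^ 2 / (s / 3) ^ 2) +
          (ENNReal.ofReal ((max 1 lam) ^ 2 * (2 * ‖f‖ ^ 2) / (s / 3) ^ 2) +
            ENNReal.ofReal (D / (s / 3) ^ 2 * ‖f‖ ^ 2))) := by ring
    _ ≤ _ := by
        rw [b2]
        gcongr

theorem realV (h4 : SMaxV) (h7 : SConvV) : SRealV := by
  intro lam hl0 hl q hq hq2
  obtain ⟨C, hC, hv⟩ := exists_ver hl hl0
  obtain ⟨D, hD, hm⟩ := h4 q hq hq2
  refine ⟨9 * D + 9 * C + 18 * (max 1 lam) ^ 2, by positivity, fun f hf => ?_⟩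
  obtain ⟨v, W, g1, g2, g3, g4, g5, g6⟩ := hv f
  exact ⟨v, g1, g2, real_conv hl hl0 f v W g3 g4 g5 g6 (h7 q hq hq2 f hf),
    fun s hs => rlv_weak hl hl0 hq2 hC hD f v W g3 g4 g5 g6 (hm f) s hs⟩

end Pool.Agent.H79.RV
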