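import Pool.Agent.H79.RV.StmF
import Pool.Agent.H79.RV.RealV

/-!
# MP_a7284e_an, project RV, row F8: real parameters, general weight
-/

set_option autoImplicit false

namespace Pool.Agent.H79.RV

open MeasureTheory FourierTransform Filter Topology Finset Classical ENNReal
open Pool.Agent.H73.Hyp
open Pool.Agent.H79.RT Pool.Agent.H79.RU

/-- the weak type inequality for the continuous versions, general form -/
theorem rlf_weak {lam : ℝ} (hl : 1 / 2 < lam) (hl0 : 0 < lam)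
    {C D : ℝ} (hC : 0 ≤ C) (hD : 0 ≤ D) (f : L2)
    (v : ℝ → E2 → ℂ) (W : ℤ → E2 → ℝ) (h3 : ∀ k, Integrable (W k)) (h4 : ∀ k x, 0 ≤ W k x)
    (h5 : ∀ K : Finset ℤ, ∑ k ∈ K, ∫ x, W k x ≤ C * ‖f‖ ^ 2)
    (h6 : ∀ᵐ x, ∀ (k : ℤ) (t : ℝ), (k : ℝ) ≤ t → t ≤ k + 1 →
        ‖v t x - Ph lam hl0 f k x‖ ^ 2 ≤ W k x)
    (s : ℝ) (hs : 0 < s) (X : ℝ≥0∞)
    (hm : volume {z : E2 | ∃ k : ℤ, s / 3 < ‖Hc k f z‖} ≤
      X + ENNReal.ofReal (D / (s / 3) ^ 2 * ‖f‖ ^ 2)) :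
    volume {z : E2 | ∃ t : ℝ, s < ‖v t z‖} ≤
      X + ENNReal.ofReal ((9 * D + 9 * C + 18 * (max 1 lam) ^ 2) / s ^ 2 * ‖f‖ ^ 2) := by
  obtain ⟨GW, w1, w2, w3⟩ := real_sum W h3 h4 _ h5
  obtain ⟨GR, r1, r2, r3⟩ := real_cmp hl hl0 f
  have s3 : 0 < (s / 3) ^ 2 := by positivity
  have w0 : ∀ᵐ x : E2, 0 ≤ GW x := by
    filter_upwards [w2] with x hx
    exact (h4 0 x).trans (hx 0)
  have r0 : ∀ᵐ x : E2, 0 ≤ GR x := by
    filter_upwards [r2] with x hx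
    exact (sq_nonneg _).trans (hx 0)
  have a1 := rlv_markov GW w1 w0 _ w3 _ s3
  have a2 := rlv_markov GR r1 r0 _ r3 _ s3
  have a0 : volume {z : E2 | ∃ t : ℝ, s < ‖v t z‖} ≤
      volume ({x : E2 | (s / 3) ^ 2 < GW x} ∪ ({x : E2 | (s / 3) ^ 2 < GR x} ∪
        {z : E2 | ∃ k : ℤ, s / 3 < ‖Hc k f z‖})) := by
    refine measure_mono_ae ?_
    filter_upwards [w2, r2, h6] with x x1 x2 x3
    intro hx
    obtain ⟨t, ht⟩ : ∃ t : ℝ, s < ‖v t x‖ := hx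
    have b1 := x3 ⌊t⌋ t (Int.floor_le t) (Int.lt_floor_add_one t).le
    rw [Ph_int] at b1
    rcases rlv_three _ _ _ s _ _ hs (b1.trans (x1 ⌊t⌋)) (x2 ⌊t⌋) ht with c1 | c1 | c1
    · exact Or.inl c1
    · exact Or.inr (Or.inl c1)
    · exact Or.inr (Or.inr ⟨⌊t⌋, c1⟩)
  have p0 : (0 : ℝ) ≤ ‖f‖ ^ 2 := sq_nonneg _
  have b2 : ENNReal.ofReal (C * ‖f‖ ^ 2 / (s / 3) ^ 2) +
      (ENNReal.ofReal ((max 1 lam) ^ 2 * (2 * ‖f‖ ^ 2) / (s / 3) ^ 2) +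
        ENNReal.ofReal (D / (s / 3) ^ 2 * ‖f‖ ^ 2)) =
      ENNReal.ofReal ((9 * D + 9 * C + 18 * (max 1 lam) ^ 2) / s ^ 2 * ‖f‖ ^ 2) := by
    rw [← ENNReal.ofReal_add (by positivity) (by positivity),
      ← ENNReal.ofReal_add (by positivity) (by positivity)]
    congr 1
    field_simp
    ring
  calc volume {z : E2 | ∃ t : ℝ, s < ‖v t z‖}
      ≤ _ := a0
    _ ≤ volume {x : E2 | (s / 3) ^ 2 < GW x} + (volume {x : E2 | (s / 3) ^ 2 < GR x} +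
        volume {z : E2 | ∃ k : ℤ, s / 3 < ‖Hc k f z‖}) :=
        (measure_union_le _ _).trans (by gcongr; exact measure_union_le _ _)
    _ ≤ ENNReal.ofReal (C * ‖f‖ ^ 2 / (s / 3) ^ 2) +
        (ENNReal.ofReal ((max 1 lam) ^ 2 * (2 * ‖f‖ ^ 2) / (s / 3) ^ 2) +
          (X + ENNReal.ofReal (D / (s / 3) ^ 2 * ‖f‖ ^ 2))) := by
        gcongr
    _ = X + (ENNReal.ofReal (C * ‖f‖ ^ 2 / (s / 3) ^ 2) +
          (ENNReal.ofReal ((max 1 lam) ^ 2 * (2 * ‖f‖ ^ 2) / (s / 3) ^ 2) +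
            ENNReal.ofReal (D / (s / 3) ^ 2 * ‖f‖ ^ 2))) := by ring
    _ ≤ _ := by
        rw [b2]

/-- F8 -/
theorem realF (h4 : SMaxF) (h7 : SConvF) : SRealF := by
  intro lam hl0 hl
  obtain ⟨C, hC, hv⟩ := exists_ver hl hl0
  obtain ⟨D, hD, hm⟩ := h4
  refine ⟨9 * D + 9 * C + 18 * (max 1 lam) ^ 2, by positivity, fun Φ c hw f hf => ?_⟩
  obtain ⟨v, W, g1, g2, g3, g4, g5, g6⟩ := hv f
  refine ⟨v, g1, g2, real_conv hl hl0 f v W g3 g4 g5 g6 (h7 Φ c hw f hf), fun s hs => ?_⟩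
  refine rlf_weak hl hl0 hC hD f v W g3 g4 g5 g6 s hs _ ?_
  have h := hm Φ c hw f (s / 3) (by positivity)
  have e : s / 3 / 4 = s / 12 := by ring
  rw [e] at h
  exact h

end Pool.Agent.H79.RV
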