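import Pool.Agent.H79.RV.Stm
import Pool.Agent.H79.RT.Bdg

/-!
# MP_a7284e_an, project RV, row V5a: the maximal inequality for rectangular sums
-/

set_option autoImplicit false

namespace Pool.Agent.H79.RV

open Finset Classical
open Pool.Agent.H79.RT Pool.Agent.H79.RU

variable {n m : ℕ}

/-! ### signs and mixed points -/

theorem rct_sg_odd (i : ℕ) : Od i (sg i : Q n → ℝ) := by
  intro x
  unfold sg
  by_cases h : i < n
  · rw [dif_pos h, dif_pos h]
    have : fl i x ⟨i, h⟩ = !x ⟨i, h⟩ := by
      unfold fl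
      rw [if_pos rfl]
    rw [this]
    cases x ⟨i, h⟩ <;> simp
  · rw [dif_neg h, dif_neg h, neg_zero]

theorem rct_sg_fl {i l : ℕ} (h : i ≠ l) (x : Q n) : sg i (fl l x) = sg i x := by
  unfold sg
  by_cases hi : i < n
  · rw [dif_pos hi, dif_pos hi]
    have : fl l x ⟨i, hi⟩ = x ⟨i, hi⟩ := by
      unfold fl
      rw [if_neg h]
    rw [this]
  · rw [dif_neg hi, dif_neg hi]

theorem rct_sg_sq (i : ℕ) (x : Q n) : sg i x ^ 2 ≤ 1 := by
  unfold sg
  by_cases hi : i < n
  · rw [dif_pos hi]
    split_ifs <;> norm_num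
  · rw [dif_neg hi]
    norm_num

theorem rct_mix_all (x u : Q n) : mix n x u = x := by
  funext l
  unfold mix
  rw [if_pos l.isLt]

theorem rct_mix_fl {i l : ℕ} (h : i ≤ l) (x u : Q n) : mix i (fl l x) u = mix i x u := by
  funext k
  unfold mix fl
  by_cases hk : (k : ℕ) < i
  · rw [if_pos hk, if_pos hk, if_neg (by omega)]
  · rw [if_neg hk, if_neg hk]

theorem rct_mix_fl' {i l : ℕ} (h : i ≤ l) (x u : Q n) : mix i x (fl l u) = fl l (mix i x u) := by
  funext k
  simp only [mix, fl]
  by_cases hk : (k : ℕ) < i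
  · rw [if_pos hk, if_neg (by omega), if_pos hk]
  · rw [if_neg hk, if_neg hk]

/-- one more coordinate -/
theorem rct_mix_succ (i : ℕ) (x u : Q n) :
    (mix (i + 1) x u = mix i x u ∧ mix (i + 1) (fl i x) u = mix i x (fl i u)) ∨
      (mix (i + 1) x u = mix i x (fl i u) ∧ mix (i + 1) (fl i x) u = mix i x u) := by
  by_cases hi : i < n
  · by_cases hx : x ⟨i, hi⟩ = u ⟨i, hi⟩
    · refine Or.inl ⟨funext fun k => ?_, funext fun k => ?_⟩
      · unfold mix
        rcases lt_trichotomy (k : ℕ) i with h | h | h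
        · rw [if_pos (by omega), if_pos h]
        · have hk : k = ⟨i, hi⟩ := Fin.ext h
          rw [if_pos (by omega), if_neg (by omega), hk, hx]
        · rw [if_neg (by omega), if_neg (by omega)]
      · unfold mix fl
        rcases lt_trichotomy (k : ℕ) i with h | h | h
        · rw [if_pos (by omega), if_neg (by omega), if_pos h]
        · have hk : k = ⟨i, hi⟩ := Fin.ext h
          rw [if_pos (by omega), if_pos h, if_neg (by omega), if_pos h, hk, hx]
        · rw [if_neg (by omega), if_neg (by omega), if_neg (by omega)]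
    · have hx' : x ⟨i, hi⟩ = !u ⟨i, hi⟩ := by
        cases h1 : x ⟨i, hi⟩ <;> cases h2 : u ⟨i, hi⟩ <;> simp_all
      refine Or.inr ⟨funext fun k => ?_, funext fun k => ?_⟩
      · unfold mix fl
        rcases lt_trichotomy (k : ℕ) i with h | h | h
        · rw [if_pos (by omega), if_pos h]
        · have hk : k = ⟨i, hi⟩ := Fin.ext h
          rw [if_pos (by omega), if_neg (by omega), if_pos h, hk, hx']
        · rw [if_neg (by omega), if_neg (by omega), if_neg (by omega)]
      · unfold mix fl
        rcases lt_trichotomy (k : ℕ) i with h | h | h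
        · rw [if_pos (by omega), if_neg (by omega), if_pos h]
        · have hk : k = ⟨i, hi⟩ := Fin.ext h
          rw [if_pos (by omega), if_pos h, if_neg (by omega), hk, hx', Bool.not_not]
        · rw [if_neg (by omega), if_neg (by omega)]
  · refine Or.inl ⟨funext fun k => ?_, funext fun k => ?_⟩
    · unfold mix
      have := k.isLt
      rw [if_pos (by omega), if_pos (by omega)]
    · unfold mix fl
      have := k.isLt
      rw [if_pos (by omega), if_neg (by omega), if_pos (by omega)]

/-! ### one parameter -/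

/-- average over the coordinates with index at least `i` -/
noncomputable def rctG (F : Q n → ℝ) (i : ℕ) (x : Q n) : ℝ := av fun u => F (mix i x u)

theorem rctG_inv (F : Q n → ℝ) (i : ℕ) : Inv i (rctG F i) := by
  intro l hl x
  unfold rctG
  congr 1
  funext u
  rw [rct_mix_fl hl]

theorem rctG_succ (F : Q n → ℝ) (i : ℕ) (x : Q n) :
    rctG F i x = (rctG F (i + 1) x + rctG F (i + 1) (fl i x)) / 2 := by
  unfold rctG
  rw [av_symm i fun u => F (mix i x u), ← av_add, div_eq_mul_inv, ← av_mul_right]
  congr 1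
  funext u
  rcases rct_mix_succ i x u with ⟨h1, h2⟩ | ⟨h1, h2⟩
  · rw [h1, h2]
    ring
  · rw [h1, h2]
    ring

theorem rctG_all (F : Q n → ℝ) (x : Q n) : rctG F n x = F x := by
  unfold rctG
  have : (fun u : Q n => F (mix n x u)) = fun _ => F x := by
    funext u
    rw [rct_mix_all]
  rw [this, av_const]

theorem rct_cs (F : Q n → ℝ) : av F ^ 2 ≤ av fun x => F x ^ 2 := by
  have h : 0 ≤ av fun x => (F x - av F) ^ 2 := av_nonneg fun x => sq_nonneg _
  have e : (fun x => (F x - av F) ^ 2) = fun x => F x ^ 2 + (-2 * av F * F x + av F ^ 2) := by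
    funext x
    ring
  rw [e, av_add, av_add, av_mul_left, av_const] at h
  nlinarith

/-- the differences of the averages -/
noncomputable def rctD (F : Q n → ℝ) (i : ℕ) (x : Q n) : ℝ := rctG F (i + 1) x - rctG F i x

theorem rctD_od (F : Q n → ℝ) (i : ℕ) : Od i (rctD F i) := by
  intro x
  unfold rctD
  have h1 := rctG_succ F i x
  have h2 := rctG_inv F i i le_rfl x
  rw [h2]
  linarith

theorem rctD_inv (F : Q n → ℝ) (i : ℕ) : Inv (i + 1) (rctD F i) := by
  intro l hl x
  unfold rctD
  rw [rctG_inv F (i + 1) l hl x, rctG_inv F i l (by omega) x]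

theorem rctD_sum (F : Q n → ℝ) (N : ℕ) (x : Q n) : bdgM (rctD F) N x = rctG F N x - rctG F 0 x := by
  unfold bdgM rctD
  exact sum_range_sub (fun i => rctG F i x) N

/-- the maximal inequality for averages of a nonnegative function -/
theorem rct_max (F : Q n → ℝ) (hF : ∀ x, 0 ≤ F x) : ∃ M : Q n → ℝ, (∀ x, 0 ≤ M x) ∧
    (∀ x, ∀ i ≤ n, rctG F i x ≤ M x) ∧ av (fun x => M x ^ 2) ≤ 34 * av fun x => F x ^ 2 := by
  have h0 : ∀ x, 0 ≤ rctG F 0 x := fun x => av_nonneg fun u => hF _
  refine ⟨fun x => rctG F 0 x + bdgX (rctD F) n x, fun x => add_nonneg (h0 x)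
    (bdgX_nonneg _ _ _), fun x i hi => ?_, ?_⟩
  · have h1 := bdg_abs_le (rctD F) hi x
    rw [rctD_sum] at h1
    have h2 := le_abs_self (rctG F i x - rctG F 0 x)
    linarith
  · have h1 := bdg_doob (rctD_od F) (rctD_inv F) 1 le_rfl n
    have h2 : ∀ x, rctG F 0 x ^ 2 ≤ av fun x => F x ^ 2 := by
      intro x
      have e : rctG F 0 x = av F := by
        unfold rctG
        congr 1
      rw [e]
      exact rct_cs F
    have h3 : av (fun x => rctG F 0 x ^ 2) ≤ av fun x => F x ^ 2 := av_le_const h2
    have h4 : av (fun x => (|bdgM (rctD F) n x| ^ 1) ^ 2) ≤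
        2 * av (fun x => F x ^ 2) + 2 * av fun x => rctG F 0 x ^ 2 := by
      rw [← av_mul_left, ← av_mul_left, ← av_add]
      refine av_mono fun x => ?_
      rw [pow_one, sq_abs, rctD_sum, rctG_all]
      nlinarith [sq_nonneg (F x + rctG F 0 x)]
    have h5 : av (fun x => (rctG F 0 x + bdgX (rctD F) n x) ^ 2) ≤
        2 * av (fun x => rctG F 0 x ^ 2) + 2 * av fun x => (bdgX (rctD F) n x ^ 1) ^ 2 := by
      rw [← av_mul_left, ← av_mul_left, ← av_add]
      refine av_mono fun x => ?_
      rw [pow_one]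
      nlinarith [sq_nonneg (rctG F 0 x - bdgX (rctD F) n x)]
    refine h5.trans ?_
    linarith

/-- orthogonality -/
theorem rct_orth {d : ℕ → Q n → ℝ} (hO : ∀ i, Od i (d i)) (hI : ∀ i, Inv (i + 1) (d i)) (N : ℕ) :
    av (fun x => (∑ i ∈ range N, d i x) ^ 2) = ∑ i ∈ range N, av fun x => d i x ^ 2 := by
  induction N with
  | zero =>
    simp only [range_zero, sum_empty]
    rw [show (fun _ : Q n => (0 : ℝ) ^ 2) = fun _ => 0 from funext fun _ => by norm_num, av_const]
  | succ N ih =>
    rw [sum_range_succ, ← ih]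
    have e : (fun x => (∑ i ∈ range (N + 1), d i x) ^ 2) = fun x =>
        (∑ i ∈ range N, d i x) ^ 2 + (2 * ((∑ i ∈ range N, d i x) * d N x) + d N x ^ 2) := by
      funext x
      rw [sum_range_succ]
      ring
    have hodd : Od N fun x => (∑ i ∈ range N, d i x) * d N x := by
      intro x
      have h1 : ∑ i ∈ range N, d i (fl N x) = ∑ i ∈ range N, d i x := by
        refine sum_congr rfl fun i hi => ?_
        rw [mem_range] at hi
        exact hI i N (by omega) x
      show (∑ i ∈ range N, d i (fl N x)) * d N (fl N x) = -((∑ i ∈ range N, d i x) * d N x)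
      rw [h1, hO N x]
      ring
    rw [e, av_add, av_add, av_mul_left, av_od hodd]
    ring

/-- the sums of the first differences are averages of the full sum -/
theorem rct_part {d : ℕ → Q n → ℝ} (hO : ∀ i, Od i (d i)) (hI : ∀ i, Inv (i + 1) (d i)) {I : ℕ}
    (h : I ≤ n) (x : Q n) : ∑ i ∈ range I, d i x = rctG (fun u => ∑ i ∈ range n, d i u) I x := by
  unfold rctG
  rw [av_sum (range n) fun i u => d i (mix I x u)]
  have h1 : ∀ i < I, av (fun u => d i (mix I x u)) = d i x := by
    intro i hi
    have : (fun u => d i (mix I x u)) = fun _ => d i x := by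
      funext u
      refine (hI i).congr fun l hl => ?_
      unfold mix
      rw [if_pos (by omega)]
    rw [this, av_const]
  have h2 : ∀ i, I ≤ i → av (fun u => d i (mix I x u)) = 0 := by
    intro i hi
    refine av_od (i := i) fun u => ?_
    rw [rct_mix_fl' hi, hO i]
  rw [← sum_subset (range_subset_range.2 h) fun i _ hi => h2 i (by
    rw [mem_range] at hi
    omega)]
  exact sum_congr rfl fun i hi => (h1 i (mem_range.1 hi)).symm

/-! ### two parameters -/

section two

variable {b : ℕ → ℕ → Q n → Q m → ℝ} (hb : ∀ i j, Pr i j (b i j))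

include hb in
theorem rct_odx (i j : ℕ) (y : Q m) : Od i fun x => sg i x * sg j y * b i j x y := by
  intro x
  show sg i (fl i x) * sg j y * b i j (fl i x) y = -(sg i x * sg j y * b i j x y)
  have h1 : b i j (fl i x) y = b i j x y := (hb i j).1 y i le_rfl x
  rw [h1, rct_sg_odd i x]
  ring

include hb in
theorem rct_invx (i j : ℕ) (y : Q m) : Inv (i + 1) fun x => sg i x * sg j y * b i j x y := by
  intro l hl x
  show sg i (fl l x) * sg j y * b i j (fl l x) y = sg i x * sg j y * b i j x y
  have h1 : b i j (fl l x) y = b i j x y := (hb i j).1 y l (by omega) x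
  rw [h1, rct_sg_fl (by omega) x]

include hb in
theorem rct_ody (i j : ℕ) (x : Q n) : Od j fun y => sg i x * sg j y * b i j x y := by
  intro y
  show sg i x * sg j (fl j y) * b i j x (fl j y) = -(sg i x * sg j y * b i j x y)
  rw [(hb i j).2 x j le_rfl y, rct_sg_odd j y]
  ring

include hb in
theorem rct_invy (i j : ℕ) (x : Q n) : Inv (j + 1) fun y => sg i x * sg j y * b i j x y := by
  intro l hl y
  show sg i x * sg j (fl l y) * b i j x (fl l y) = sg i x * sg j y * b i j x y
  rw [(hb i j).2 x l (by omega) y, rct_sg_fl (by omega) y]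

theorem rct_sq (i j : ℕ) (x : Q n) (y : Q m) :
    (sg i x * sg j y * b i j x y) ^ 2 ≤ b i j x y ^ 2 := by
  have h1 := rct_sg_sq i x
  have h2 := rct_sg_sq j y
  have h3 : sg i x ^ 2 * sg j y ^ 2 ≤ 1 := mul_le_one₀ h1 (sq_nonneg _) h2
  have h4 : 0 ≤ b i j x y ^ 2 := sq_nonneg _
  have e : (sg i x * sg j y * b i j x y) ^ 2 = sg i x ^ 2 * sg j y ^ 2 * b i j x y ^ 2 := by ring
  rw [e]
  nlinarith

end two

/-- sums over the first variable -/
noncomputable def rctR (b : ℕ → ℕ → Q n → Q m → ℝ) (x : Q n) (j : ℕ) (y : Q m) : ℝ :=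
  ∑ i ∈ range n, sg i x * sg j y * b i j x y

section two

variable {b : ℕ → ℕ → Q n → Q m → ℝ} (hb : ∀ i j, Pr i j (b i j))

include hb in
theorem rctR_od (x : Q n) (j : ℕ) : Od j (rctR b x j) := by
  intro y
  unfold rctR
  rw [← sum_neg_distrib]
  exact sum_congr rfl fun i _ => rct_ody hb i j x y

include hb in
theorem rctR_inv (x : Q n) (j : ℕ) : Inv (j + 1) (rctR b x j) := by
  intro l hl y
  unfold rctR
  exact sum_congr rfl fun i _ => rct_invy hb i j x l hl y

include hb in
theorem rct_energy : av2 (fun x y => bdgM (rctR b x) m y ^ 2) ≤ nrg b := by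
  have h1 : ∀ x, av (fun y => bdgM (rctR b x) m y ^ 2) =
      ∑ j ∈ range m, av fun y => rctR b x j y ^ 2 :=
    fun x => rct_orth (rctR_od hb x) (rctR_inv hb x) m
  have h2 : ∀ j (y : Q m), av (fun x : Q n => rctR b x j y ^ 2) =
      ∑ i ∈ range n, av fun x => (sg i x * sg j y * b i j x y) ^ 2 := fun j y =>
    rct_orth (d := fun i x => sg i x * sg j y * b i j x y) (fun i => rct_odx hb i j y)
      (fun i => rct_invx hb i j y) n
  have h3 : av2 (fun x y => bdgM (rctR b x) m y ^ 2) =
      ∑ j ∈ range m, av2 fun x y => rctR b x j y ^ 2 := by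
    rw [← av2_sum]
    unfold av2
    congr 1
    funext x
    rw [h1 x, ← av_sum]
  have h4 : ∀ j, av2 (fun (x : Q n) (y : Q m) => rctR b x j y ^ 2) =
      ∑ i ∈ range n, av2 fun x y => (sg i x * sg j y * b i j x y) ^ 2 := by
    intro j
    rw [av2_swap, ← av2_sum, av2_swap fun x y => ∑ i ∈ range n, (sg i x * sg j y * b i j x y) ^ 2]
    unfold av2
    congr 1
    funext y
    rw [h2 j y, ← av_sum]
  rw [h3]
  unfold nrg
  rw [sum_comm]
  refine sum_le_sum fun j _ => ?_
  rw [h4 j]
  exact sum_le_sum fun i _ => av2_mono fun x y => rct_sq i j x y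

end two

/-- V5a -/
theorem rect : SRect := by
  refine ⟨136, by norm_num, fun n m b hb => ?_⟩
  have hmax : ∀ y : Q m, ∃ M : Q n → ℝ, (∀ x, 0 ≤ M x) ∧
      (∀ x, ∀ i ≤ n, rctG (fun u => bdgX (rctR b u) m y) i x ≤ M x) ∧
      av (fun x => M x ^ 2) ≤ 34 * av fun x => bdgX (rctR b x) m y ^ 2 :=
    fun y => rct_max (fun u => bdgX (rctR b u) m y) fun u => bdgX_nonneg _ _ _
  choose M hM0 hM1 hM2 using hmax
  refine ⟨fun x y => M y x, fun x y => hM0 y x, fun x y I hI J hJ => ?_, ?_⟩
  · refine le_trans ?_ (hM1 y x I hI)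
    have h1 : ∑ i ∈ range I, ∑ j ∈ range J, sg i x * sg j y * b i j x y =
        rctG (fun u => bdgM (rctR b u) J y) I x := by
      have h2 := rct_part (n := n) (d := fun i x => ∑ j ∈ range J, sg i x * sg j y * b i j x y)
        (fun i x => by
          rw [← sum_neg_distrib]
          exact sum_congr rfl fun j _ => rct_odx hb i j y x)
        (fun i l hl x => sum_congr rfl fun j _ => rct_invx hb i j y l hl x) hI x
      rw [h2]
      congr 1
      funext u
      unfold bdgM rctR
      rw [sum_comm]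
    rw [h1]
    unfold rctG
    have h3 : ∀ u : Q n, |bdgM (rctR b (mix I x u)) J y| ≤ bdgX (rctR b (mix I x u)) m y :=
      fun u => bdg_abs_le _ hJ y
    rw [abs_le]
    constructor
    · have h4 : -av (fun u => bdgX (rctR b (mix I x u)) m y) =
          av fun u => -1 * bdgX (rctR b (mix I x u)) m y := by
        rw [av_mul_left]
        ring
      rw [h4]
      exact av_mono fun u => by
        have := (abs_le.1 (h3 u)).1
        linarith
    · exact av_mono fun u => (abs_le.1 (h3 u)).2
  · have h1 : av2 (fun (x : Q n) (y : Q m) => M y x ^ 2) ≤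
        34 * av2 fun x y => bdgX (rctR b x) m y ^ 2 := by
      rw [av2_swap, av2_swap fun (x : Q n) (y : Q m) => bdgX (rctR b x) m y ^ 2, ← av2_mul_left]
      unfold av2
      refine av_mono fun y => ?_
      rw [av_mul_left]
      exact hM2 y
    have h2 : av2 (fun (x : Q n) (y : Q m) => bdgX (rctR b x) m y ^ 2) ≤
        4 * av2 fun x y => bdgM (rctR b x) m y ^ 2 := by
      rw [← av2_mul_left]
      unfold av2
      refine av_mono fun x => ?_
      rw [av_mul_left]
      have h3 := bdg_doob (rctR_od hb x) (rctR_inv hb x) 1 le_rfl m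
      simp only [pow_one, sq_abs] at h3
      exact h3
    have h3 := rct_energy hb
    linarith

end Pool.Agent.H79.RV
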