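import Pool.Agent.H79.RV.StmR
import Pool.Agent.H73.Hyp.Est3

/-!
# MP_a7284e_an, project RV: the tails
-/

set_option autoImplicit false

namespace Pool.Agent.H79.RV

open MeasureTheory FourierTransform Filter Topology Finset Classical ENNReal
open Pool.Agent.H73.Hyp
open Pool.Agent.H79.RT Pool.Agent.H79.RU

/-- dominated convergence for sums over the pairs of integers -/
theorem tlv_tsum (F : ℕ → ℤ × ℤ → ℝ≥0∞) (G : ℤ × ℤ → ℝ≥0∞) (h1 : ∀ n i, F n i ≤ G i)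
    (h2 : ∑' i, G i ≠ ⊤) (h3 : ∀ i, Tendsto (fun n => F n i) atTop (𝓝 0)) :
    Tendsto (fun n => ∑' i, F n i) atTop (𝓝 0) := by
  have h := tendsto_lintegral_of_dominated_convergence (μ := (Measure.count : Measure (ℤ × ℤ)))
    (F := F) (f := fun _ => 0) G (fun n => measurable_of_countable _)
    (fun n => Eventually.of_forall (h1 n)) (by rw [lintegral_count]; exact h2)
    (Eventually.of_forall h3)
  simpa [lintegral_count] using h

/-- the Haar coefficients of the tail -/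
theorem tlv_cf (h : SCf) (f : L2) (b : ℤ) (p r : ℤ × ℤ) :
    cf (f - Ep (Uf 0) b (Ep (Uf 1) b f)) p r = if p.1 < b ∧ r.1 < b then 0 else cf f p r := by
  obtain ⟨h0, h1, h2, -⟩ := h
  rw [h2, h0, h1]
  by_cases hp : p.1 < b <;> by_cases hr : r.1 < b <;> simp [hp, hr]

/-- the terms of the double sum -/
noncomputable def tlvT (q : ℝ) (f : L2) (p r : ℤ × ℤ) : ℝ≥0∞ :=
  ENNReal.ofReal ((2 : ℝ) ^ (-(p.1 + r.1)) *
    ((2 : ℝ) ^ (((p.1 + r.1 : ℤ) : ℝ) / 2) * ‖cf f p r‖) ^ q)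

theorem tlv_Aq (q : ℝ) (f : L2) : Aq q f = ∑' p : ℤ × ℤ, ∑' r : ℤ × ℤ, tlvT q f p r := rfl

theorem tlv_T_eq (h : SCf) {q : ℝ} (hq : 1 < q) (f : L2) (b : ℤ) (p r : ℤ × ℤ) :
    tlvT q (f - Ep (Uf 0) b (Ep (Uf 1) b f)) p r =
      if p.1 < b ∧ r.1 < b then 0 else tlvT q f p r := by
  unfold tlvT
  rw [tlv_cf h]
  by_cases hb : p.1 < b ∧ r.1 < b
  · rw [if_pos hb, if_pos hb, norm_zero, mul_zero, Real.zero_rpow (by linarith), mul_zero,
      ENNReal.ofReal_zero]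
  · rw [if_neg hb, if_neg hb]

theorem tlv_T_le (h : SCf) {q : ℝ} (hq : 1 < q) (f : L2) (b : ℤ) (p r : ℤ × ℤ) :
    tlvT q (f - Ep (Uf 0) b (Ep (Uf 1) b f)) p r ≤ tlvT q f p r := by
  rw [tlv_T_eq h hq]
  split_ifs
  · exact zero_le
  · exact le_rfl

theorem tlv_T_lim (h : SCf) {q : ℝ} (hq : 1 < q) (f : L2) (p r : ℤ × ℤ) :
    Tendsto (fun b : ℕ => tlvT q (f - Ep (Uf 0) (b : ℤ) (Ep (Uf 1) (b : ℤ) f)) p r) atTop
      (𝓝 0) := by
  refine tendsto_const_nhds.congr' ?_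
  filter_upwards [eventually_ge_atTop (Int.toNat (max p.1 r.1) + 1)] with b hb
  have hb' : max p.1 r.1 < (b : ℤ) := by
    have := Int.self_le_toNat (max p.1 r.1)
    omega
  rw [tlv_T_eq h hq, if_pos ⟨lt_of_le_of_lt (le_max_left _ _) hb',
    lt_of_le_of_lt (le_max_right _ _) hb'⟩]

theorem tlv_norm (f : L2) :
    Tendsto (fun b : ℕ => ‖f - Ep (Uf 0) (b : ℤ) (Ep (Uf 1) (b : ℤ) f)‖) atTop (𝓝 0) := by
  have h0 : Tendsto (fun b : ℕ => ‖f - Ep (Uf 0) (b : ℤ) f‖) atTop (𝓝 0) := by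
    have h1 := (tendsto_const_nhds (x := f)).sub (Ep_up 0 f)
    rw [sub_self] at h1
    exact tendsto_zero_iff_norm_tendsto_zero.1 h1
  have h1 : Tendsto (fun b : ℕ => ‖f - Ep (Uf 1) (b : ℤ) f‖) atTop (𝓝 0) := by
    have h1 := (tendsto_const_nhds (x := f)).sub (Ep_up 1 f)
    rw [sub_self] at h1
    exact tendsto_zero_iff_norm_tendsto_zero.1 h1
  have h2 := h0.add h1
  rw [add_zero] at h2
  refine squeeze_zero (fun b => norm_nonneg _) (fun b => ?_) h2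
  have e : f - Ep (Uf 0) (b : ℤ) (Ep (Uf 1) (b : ℤ) f) =
      (f - Ep (Uf 0) (b : ℤ) f) + Ep (Uf 0) (b : ℤ) (f - Ep (Uf 1) (b : ℤ) f) := by
    rw [map_sub]
    abel
  rw [e]
  exact (norm_add_le _ _).trans (add_le_add le_rfl (Ep_norm_le _ _ _))

/-- P5 -/
theorem tailV (h : SCf) : STailV := by
  intro q hq f hfin
  refine ⟨?_, tlv_norm f⟩
  simp only [tlv_Aq]
  rw [tlv_Aq] at hfin
  refine tlv_tsum _ (fun p => ∑' r, tlvT q f p r)
    (fun n p => ENNReal.tsum_le_tsum fun r => tlv_T_le h hq f n p r) hfin fun p => ?_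
  refine tlv_tsum _ (tlvT q f p) (fun n r => tlv_T_le h hq f n p r)
    (ne_top_of_le_ne_top hfin (ENNReal.le_tsum (f := fun p => ∑' r, tlvT q f p r) p))
    fun r => tlv_T_lim h hq f p r

end Pool.Agent.H79.RV
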