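import Pool.Agent.H79.RV.StmF
import Pool.Agent.H79.RV.TailV

/-!
# MP_a7284e_an, project RV, third version: the tails
-/

set_option autoImplicit false

namespace Pool.Agent.H79.RV

open MeasureTheory FourierTransform Filter Topology Finset Classical ENNReal
open Pool.Agent.H73.Hyp
open Pool.Agent.H79.RT Pool.Agent.H79.RU

/-- the terms of the double sum -/
noncomputable def tlfT (Φ : ℝ → ℝ) (f : L2) (p r : ℤ × ℤ) : ℝ≥0∞ :=
  ENNReal.ofReal ((2 : ℝ) ^ (-(p.1 + r.1)) *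
    Φ ((2 : ℝ) ^ (((p.1 + r.1 : ℤ) : ℝ) / 2) * ‖cf f p r‖))

theorem tlf_AF (Φ : ℝ → ℝ) (f : L2) : AF Φ f = ∑' p : ℤ × ℤ, ∑' r : ℤ × ℤ, tlfT Φ f p r := rfl

theorem tlf_T_eq (h : SCf) {Φ : ℝ → ℝ} (h0 : Φ 0 = 0) (f : L2) (b : ℤ) (p r : ℤ × ℤ) :
    tlfT Φ (f - Ep (Uf 0) b (Ep (Uf 1) b f)) p r =
      if p.1 < b ∧ r.1 < b then 0 else tlfT Φ f p r := by
  unfold tlfT
  rw [tlv_cf h]
  by_cases hb : p.1 < b ∧ r.1 < b
  · rw [if_pos hb, if_pos hb, norm_zero, mul_zero, h0, mul_zero, ENNReal.ofReal_zero]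
  · rw [if_neg hb, if_neg hb]

theorem tlf_T_le (h : SCf) {Φ : ℝ → ℝ} (h0 : Φ 0 = 0) (f : L2) (b : ℤ) (p r : ℤ × ℤ) :
    tlfT Φ (f - Ep (Uf 0) b (Ep (Uf 1) b f)) p r ≤ tlfT Φ f p r := by
  rw [tlf_T_eq h h0]
  split_ifs
  · exact zero_le
  · exact le_rfl

theorem tlf_T_lim (h : SCf) {Φ : ℝ → ℝ} (h0 : Φ 0 = 0) (f : L2) (p r : ℤ × ℤ) :
    Tendsto (fun b : ℕ => tlfT Φ (f - Ep (Uf 0) (b : ℤ) (Ep (Uf 1) (b : ℤ) f)) p r) atTop
      (𝓝 0) := by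
  refine tendsto_const_nhds.congr' ?_
  filter_upwards [eventually_ge_atTop (Int.toNat (max p.1 r.1) + 1)] with b hb
  have hb' : max p.1 r.1 < (b : ℤ) := by
    have := Int.self_le_toNat (max p.1 r.1)
    omega
  rw [tlf_T_eq h h0, if_pos ⟨lt_of_le_of_lt (le_max_left _ _) hb',
    lt_of_le_of_lt (le_max_right _ _) hb'⟩]

/-- F5 -/
theorem tailF (h : SCf) : STailF := by
  intro Φ _ h0 f hfin
  refine ⟨?_, tlv_norm f⟩
  simp only [tlf_AF]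
  rw [tlf_AF] at hfin
  refine tlv_tsum _ (fun p => ∑' r, tlfT Φ f p r)
    (fun n p => ENNReal.tsum_le_tsum fun r => tlf_T_le h h0 f n p r) hfin fun p => ?_
  refine tlv_tsum _ (tlfT Φ f p) (fun n r => tlf_T_le h h0 f n p r)
    (ne_top_of_le_ne_top hfin (ENNReal.le_tsum (f := fun p => ∑' r, tlfT Φ f p r) p))
    fun r => tlf_T_lim h h0 f p r

end Pool.Agent.H79.RV
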