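import Pool.Agent.H79.RV.Stm
import Pool.Agent.H79.RT.Basic

/-!
# MP_a7284e_an, project RV, row W6: all sites before the chosen site
-/

set_option autoImplicit false

namespace Pool.Agent.H79.RV

open Finset Classical
open Pool.Agent.H79.RT Pool.Agent.H79.RU

variable {n m : ℕ}

theorem tq_true {p : Prop} (h : p) : ind p = 1 := if_pos h

theorem tq_false {p : Prop} (h : ¬p) : ind p = 0 := if_neg h

theorem tq_ind_nonneg (p : Prop) : 0 ≤ ind p := by
  unfold ind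
  split_ifs <;> norm_num

theorem tq_ind_le (p : Prop) : ind p ≤ 1 := by
  unfold ind
  split_ifs <;> norm_num

theorem tq_cnt (S : ℕ → ℕ → Q n → Q m → Prop) :
    cnt (fun j i (y : Q m) (x : Q n) => S i j x y) = cnt S := by
  unfold cnt
  rw [sum_comm]
  exact sum_congr rfl fun i _ => sum_congr rfl fun j _ => av2_swap _

theorem tq_nrg (b : ℕ → ℕ → Q n → Q m → ℝ) :
    nrg (fun j i (y : Q m) (x : Q n) => b i j x y) = nrg b := by
  unfold nrg
  rw [sum_comm]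
  exact sum_congr rfl fun i _ => sum_congr rfl fun j _ => av2_swap _

theorem tq_mm (S : ℕ → ℕ → Q n → Q m → Prop) (i j : ℕ) (x : Q n) (y : Q m) :
    mm (fun j i (y : Q m) (x : Q n) => S i j x y) j i y x = mm S i j x y := by
  unfold mm c2
  exact av2_swap _

theorem tq_ent (S : ℕ → ℕ → Q n → Q m → Prop) :
    ent' (fun j i (y : Q m) (x : Q n) => S i j x y) = ent' S := by
  unfold ent'
  rw [sum_comm]
  refine sum_congr rfl fun i _ => sum_congr rfl fun j _ => ?_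
  rw [av2_swap]
  simp only [tq_mm]

theorem tq_pair (b : ℕ → ℕ → Q n → Q m → ℝ) (Z : ℕ → ℕ → Q n → Q m → Prop) :
    pair (fun j i (y : Q m) (x : Q n) => b i j x y) (fun j i y x => Z i j x y) = pair b Z := by
  unfold pair
  rw [sum_comm]
  refine sum_congr rfl fun i _ => sum_congr rfl fun j _ => ?_
  rw [av2_swap]
  congr 1
  funext x y
  ring

theorem tq_clk {τ : ℕ → ℕ → ℕ} (h : Clk τ) : Clk fun j i => τ i j where
  pos := fun i j => h.pos j i
  mi := fun i i' j hi => h.mj j i i' hi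
  mj := fun i j j' hj => h.mi j j' i hj
  inj := fun i j i' j' he => (h.inj j i j' i' he).symm

theorem tq_sng {S : ℕ → ℕ → Q n → Q m → Prop} (h : Sng S) :
    Sng fun j i (y : Q m) (x : Q n) => S i j x y :=
  ⟨fun _ _ _ _ hs => (h.1 _ _ _ _ hs).symm, fun _ _ _ _ _ _ hs ht => (h.2 _ _ _ _ _ _ hs ht).symm⟩

theorem tq_mm_nonneg (S : ℕ → ℕ → Q n → Q m → Prop) (i j : ℕ) (x : Q n) (y : Q m) :
    0 ≤ mm S i j x y := by
  unfold mm c2
  exact av2_nonneg fun u v => tq_ind_nonneg _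

theorem tq_mm_le (S : ℕ → ℕ → Q n → Q m → Prop) (i j : ℕ) (x : Q n) (y : Q m) :
    mm S i j x y ≤ 1 := by
  unfold mm c2
  exact (av2_mono (G := fun _ _ => (1 : ℝ)) fun u v => tq_ind_le _).trans_eq (av2_const 1)

theorem tq_ent_nonneg (S : ℕ → ℕ → Q n → Q m → Prop) : 0 ≤ ent' S :=
  sum_nonneg fun i _ => sum_nonneg fun j _ => av2_nonneg fun x y =>
    Real.negMulLog_nonneg (tq_mm_nonneg S i j x y) (tq_mm_le S i j x y)

theorem tq_cnt_nonneg (S : ℕ → ℕ → Q n → Q m → Prop) : 0 ≤ cnt S :=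
  sum_nonneg fun _ _ => sum_nonneg fun _ _ => av2_nonneg fun _ _ => tq_ind_nonneg _

theorem tq_nrg_nonneg (b : ℕ → ℕ → Q n → Q m → ℝ) : 0 ≤ nrg b :=
  sum_nonneg fun _ _ => sum_nonneg fun _ _ => av2_nonneg fun _ _ => sq_nonneg _

theorem tq_clk_lt {τ : ℕ → ℕ → ℕ} (h : Clk τ) {i j a c : ℕ} (ha : a < i) (hc : c < j) :
    τ a c < τ i j := (h.mi a i c ha).trans (h.mj i c j hc)

theorem tq_dec {τ : ℕ → ℕ → ℕ} (hτ : Clk τ) {S : ℕ → ℕ → Q n → Q m → Prop} (hS : Sng S)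
    (i j : ℕ) (x : Q n) (y : Q m) :
    ind (∃ a c, S a c x y ∧ τ i j < τ a c) =
      ind (∃ a c, S a c x y ∧ a < i ∧ τ i j < τ a c) +
      ind (∃ c a, S a c x y ∧ c < j ∧ τ i j < τ a c) +
      ind (∃ a c, S a c x y ∧ i ≤ a ∧ j ≤ c ∧ τ i j < τ a c) := by
  by_cases hE : ∃ a c, S a c x y ∧ τ i j < τ a c
  · obtain ⟨a, c, hs, ht⟩ := hE
    rw [tq_true ⟨a, c, hs, ht⟩]
    have hu : ∀ a' c', S a' c' x y → a' = a ∧ c' = c := fun a' c' h => hS.2 _ _ _ _ _ _ h hs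
    by_cases h1 : a < i
    · have h2 : ¬c < j := fun h2 => absurd (tq_clk_lt hτ h1 h2) (by omega)
      rw [tq_true ⟨a, c, hs, h1, ht⟩, tq_false, tq_false]
      · norm_num
      · rintro ⟨a', c', h3, h4, h5, h6⟩
        obtain ⟨rfl, rfl⟩ := hu _ _ h3
        omega
      · rintro ⟨c', a', h3, h4, h5⟩
        obtain ⟨rfl, rfl⟩ := hu _ _ h3
        exact h2 h4
    · have h3 : ¬∃ a' c', S a' c' x y ∧ a' < i ∧ τ i j < τ a' c' := by
        rintro ⟨a', c', h3, h4, h5⟩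
        obtain ⟨rfl, rfl⟩ := hu _ _ h3
        exact h1 h4
      rw [tq_false h3]
      by_cases h2 : c < j
      · rw [tq_true ⟨c, a, hs, h2, ht⟩, tq_false]
        · norm_num
        · rintro ⟨a', c', h3, h4, h5, h6⟩
          obtain ⟨rfl, rfl⟩ := hu _ _ h3
          omega
      · rw [tq_true (p := ∃ a c, S a c x y ∧ i ≤ a ∧ j ≤ c ∧ τ i j < τ a c)
          ⟨a, c, hs, by omega, by omega, ht⟩, tq_false]
        · norm_num
        · rintro ⟨c', a', h3, h4, h5⟩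
          obtain ⟨rfl, rfl⟩ := hu _ _ h3
          exact h2 h4
  · rw [tq_false hE, tq_false, tq_false, tq_false]
    · norm_num
    · rintro ⟨a, c, h1, _, _, h2⟩
      exact hE ⟨a, c, h1, h2⟩
    · rintro ⟨c, a, h1, _, h2⟩
      exact hE ⟨a, c, h1, h2⟩
    · rintro ⟨a, c, h1, _, h2⟩
      exact hE ⟨a, c, h1, h2⟩

theorem tq_pair_dec {τ : ℕ → ℕ → ℕ} (hτ : Clk τ) {S : ℕ → ℕ → Q n → Q m → Prop} (hS : Sng S)
    (b : ℕ → ℕ → Q n → Q m → ℝ) :
    pair b (fun i j x y => ∃ a c, S a c x y ∧ τ i j < τ a c) =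
      pair b (fun i j x y => ∃ a c, S a c x y ∧ a < i ∧ τ i j < τ a c) +
      pair b (fun i j x y => ∃ c a, S a c x y ∧ c < j ∧ τ i j < τ a c) +
      pair b (fun i j x y => ∃ a c, S a c x y ∧ i ≤ a ∧ j ≤ c ∧ τ i j < τ a c) := by
  unfold pair
  rw [← sum_add_distrib, ← sum_add_distrib]
  refine sum_congr rfl fun i _ => ?_
  rw [← sum_add_distrib, ← sum_add_distrib]
  refine sum_congr rfl fun j _ => ?_
  rw [← av2_add, ← av2_add]
  congr 1
  funext x y
  rw [tq_dec hτ hS i j x y]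
  ring

/-- W6: all sites before the chosen site -/
theorem top2 (_h0 : SC2) (h4 : SLeft2) (h5 : SDeep2) : STop2 := by
  obtain ⟨C, hC, h4⟩ := h4
  obtain ⟨D, hD, h5⟩ := h5
  refine ⟨3 * (2 * C + D), by positivity, fun n m τ S b hτ hS hb => ?_⟩
  have h1 := h4 n m τ S b hτ hS hb
  have h2 := h4 m n (fun j i => τ i j) (fun j i (y : Q m) (x : Q n) => S i j x y)
    (fun j i (y : Q m) (x : Q n) => b i j x y) (tq_clk hτ) (tq_sng hS)
    fun j i => ⟨fun x => (hb i j).2 x, fun y => (hb i j).1 y⟩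
  rw [tq_cnt, tq_ent, tq_nrg] at h2
  have h2' : pair b (fun i j x y => ∃ c a, S a c x y ∧ c < j ∧ τ i j < τ a c) ^ 2 ≤
      C * (cnt S + ent' S) * nrg b := by
    rw [← tq_pair b]
    exact h2
  have h3 := h5 n m τ S b hτ hS hb
  rw [tq_pair_dec hτ hS b]
  have e1 := tq_ent_nonneg S
  have e2 := tq_cnt_nonneg S
  have e3 := tq_nrg_nonneg b
  have e4 : D * cnt S * nrg b ≤ D * (cnt S + ent' S) * nrg b := by
    have : 0 ≤ D * ent' S * nrg b := by positivity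
    nlinarith [this]
  generalize pair b (fun i j x y => ∃ a c, S a c x y ∧ a < i ∧ τ i j < τ a c) = p1 at *
  generalize pair b (fun i j x y => ∃ c a, S a c x y ∧ c < j ∧ τ i j < τ a c) = p2 at *
  generalize pair b (fun i j x y => ∃ a c, S a c x y ∧ i ≤ a ∧ j ≤ c ∧ τ i j < τ a c) = p3 at *
  have e5 : (p1 + p2 + p3) ^ 2 ≤ 3 * (p1 ^ 2 + p2 ^ 2 + p3 ^ 2) := by
    nlinarith [sq_nonneg (p1 - p2), sq_nonneg (p1 - p3), sq_nonneg (p2 - p3)]
  have e6 : 3 * (2 * C + D) * (cnt S + ent' S) * nrg b =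
      3 * (C * (cnt S + ent' S) * nrg b + C * (cnt S + ent' S) * nrg b +
        D * (cnt S + ent' S) * nrg b) := by ring
  rw [e6]
  linarith

end Pool.Agent.H79.RV
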