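import Pool.Agent.H79.RV.StmR
import Pool.Agent.H79.RT.Tr

/-!
# MP_a7284e_an, project RV: transfer along the orbits of the flips (row P1)
-/

set_option autoImplicit false

namespace Pool.Agent.H79.RV

open MeasureTheory FourierTransform Filter Topology Finset Classical ENNReal
open Pool.Agent.H73.Hyp
open Pool.Agent.H79.RT Pool.Agent.H79.RU

/-! ### averages over the orbits and the integral -/

theorem tv_av2_eq {n m : ℕ} (F : Q n → Q m → ℝ) :
    av2 F = (∑ g, ∑ h, F g h) * (1 / (2 ^ m * 2 ^ n)) := by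
  unfold av2 av
  rw [← sum_div]
  field_simp

theorem tv_ofReal_av2 {n m : ℕ} {F : Q n → Q m → ℝ} (hF : ∀ g h, 0 ≤ F g h) :
    ENNReal.ofReal (av2 F) =
      ENNReal.ofReal (1 / (2 ^ m * 2 ^ n)) * ∑ g, ∑ h, ENNReal.ofReal (F g h) := by
  rw [tv_av2_eq, mul_comm, ENNReal.ofReal_mul (by positivity),
    ENNReal.ofReal_sum_of_nonneg fun g _ => sum_nonneg fun h _ => hF g h]
  congr 1
  exact sum_congr rfl fun g _ => ENNReal.ofReal_sum_of_nonneg fun h _ => hF g h

theorem tv_meas {n m : ℕ} {F : E2 → ℝ} (hF : Measurable F) (hF0 : ∀ x, 0 ≤ F x)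
    (T : Q n → Q m → E2 → E2) (hT : ∀ g h, MeasurePreserving (T g h) volume volume) :
    Measurable fun x => ENNReal.ofReal (av2 fun g h => F (T g h x)) := by
  have e : (fun x => ENNReal.ofReal (av2 fun g h => F (T g h x))) = fun x =>
      ENNReal.ofReal (1 / (2 ^ m * 2 ^ n)) * ∑ g, ∑ h, ENNReal.ofReal (F (T g h x)) := by
    funext x
    exact tv_ofReal_av2 fun g h => hF0 _
  rw [e]
  refine Measurable.const_mul ?_ _
  refine Finset.measurable_fun_sum _ fun g _ => Finset.measurable_fun_sum _ fun h _ => ?_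
  exact (hF.comp (hT g h).measurable).ennreal_ofReal

theorem tv_lint {n m : ℕ} {F : E2 → ℝ} (hF : Measurable F) (hF0 : ∀ x, 0 ≤ F x)
    (T : Q n → Q m → E2 → E2) (hT : ∀ g h, MeasurePreserving (T g h) volume volume) :
    ∫⁻ x, ENNReal.ofReal (av2 fun g h => F (T g h x)) = ∫⁻ x, ENNReal.ofReal (F x) := by
  have e : ∀ x, ENNReal.ofReal (av2 fun g h => F (T g h x)) =
      ENNReal.ofReal (1 / (2 ^ m * 2 ^ n)) * ∑ g, ∑ h, ENNReal.ofReal (F (T g h x)) :=
    fun x => tv_ofReal_av2 fun g h => hF0 _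
  have hm : ∀ g h, Measurable fun x => ENNReal.ofReal (F (T g h x)) := fun g h =>
    (hF.comp (hT g h).measurable).ennreal_ofReal
  have hm1 : ∀ g, Measurable fun x => ∑ h, ENNReal.ofReal (F (T g h x)) := fun g =>
    Finset.measurable_fun_sum _ fun h _ => hm g h
  rw [lintegral_congr e, lintegral_const_mul _ (Finset.measurable_fun_sum _ fun g _ => hm1 g),
    lintegral_finsetSum _ fun g _ => hm1 g]
  have e1 : ∀ g h, ∫⁻ x, ENNReal.ofReal (F (T g h x)) = ∫⁻ x, ENNReal.ofReal (F x) :=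
    fun g h => (hT g h).lintegral_comp hF.ennreal_ofReal
  have e2 : ∀ g, ∫⁻ x, ∑ h, ENNReal.ofReal (F (T g h x)) =
      (2 : ℝ≥0∞) ^ m * ∫⁻ x, ENNReal.ofReal (F x) := by
    intro g
    rw [lintegral_finsetSum _ fun h _ => hm g h, sum_congr rfl fun h _ => e1 g h, sum_const,
      card_univ, nsmul_eq_mul, Fintype.card_fun, Fintype.card_bool, Fintype.card_fin]
    norm_num
  rw [sum_congr rfl fun g _ => e2 g, sum_const, card_univ, nsmul_eq_mul, Fintype.card_fun,
    Fintype.card_bool, Fintype.card_fin, ← mul_assoc, ← mul_assoc]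
  have e3 : ENNReal.ofReal (1 / (2 ^ m * 2 ^ n)) * ((2 ^ n : ℕ) : ℝ≥0∞) * (2 : ℝ≥0∞) ^ m = 1 := by
    have h2 : ((2 ^ n : ℕ) : ℝ≥0∞) = ENNReal.ofReal (2 ^ n) := by
      rw [ENNReal.ofReal_pow zero_le_two]
      norm_num
    have h3 : (2 : ℝ≥0∞) ^ m = ENNReal.ofReal (2 ^ m) := by
      rw [ENNReal.ofReal_pow zero_le_two]
      norm_num
    rw [h2, h3, ← ENNReal.ofReal_mul (by positivity), ← ENNReal.ofReal_mul (by positivity),
      ← ENNReal.ofReal_one]
    congr 1
    field_simp
  rw [e3, one_mul]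

/-! ### the relations on almost every orbit -/

/-- the relations which hold almost everywhere -/
def tvGood (L L' : ℕ) (f : L2) (K : Finset ℤ) (y : E2) : Prop :=
  (∀ i j : ℕ, bb L L' f i j (H73.Hyp.fl 0 ((i : ℤ) - L) y) = -bb L L' f i j y) ∧
  (∀ i j l : ℕ, i < l → bb L L' f i j (H73.Hyp.fl 0 ((l : ℤ) - L) y) = bb L L' f i j y) ∧
  (∀ i j : ℕ, bb L L' f i j (H73.Hyp.fl 1 ((j : ℤ) - L') y) = -bb L L' f i j y) ∧
  (∀ i j l : ℕ, j < l → bb L L' f i j (H73.Hyp.fl 1 ((l : ℤ) - L') y) = bb L L' f i j y) ∧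
  ∀ k ∈ K, Xs L L' k f y = ∑ i ∈ range (2 * L),
    ∑ j ∈ (range (2 * L')).filter (fun j : ℕ => (i : ℤ) + j ≤ k + L + L'), bb L L' f i j y

theorem tv_good (L L' : ℕ) (f : L2) (K : Finset ℤ) : ∀ᵐ y : E2, tvGood L L' f K y := by
  have a1 : ∀ᵐ y : E2, ∀ i j : ℕ,
      bb L L' f i j (H73.Hyp.fl 0 ((i : ℤ) - L) y) = -bb L L' f i j y :=
    ae_all_iff.2 fun i => ae_all_iff.2 fun j => bb_flip0 L L' f i j
  have a2 : ∀ᵐ y : E2, ∀ i j l : ℕ, i < l →
      bb L L' f i j (H73.Hyp.fl 0 ((l : ℤ) - L) y) = bb L L' f i j y :=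
    ae_all_iff.2 fun i => ae_all_iff.2 fun j => ae_all_iff.2 fun l => ae_all_iff.2 fun hl =>
      bb_flip0_lt L L' f i j l hl
  have a3 : ∀ᵐ y : E2, ∀ i j : ℕ,
      bb L L' f i j (H73.Hyp.fl 1 ((j : ℤ) - L') y) = -bb L L' f i j y :=
    ae_all_iff.2 fun i => ae_all_iff.2 fun j => bb_flip1 L L' f i j
  have a4 : ∀ᵐ y : E2, ∀ i j l : ℕ, j < l →
      bb L L' f i j (H73.Hyp.fl 1 ((l : ℤ) - L') y) = bb L L' f i j y :=
    ae_all_iff.2 fun i => ae_all_iff.2 fun j => ae_all_iff.2 fun l => ae_all_iff.2 fun hl =>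
      bb_flip1_lt L L' f i j l hl
  have a6 : ∀ᵐ x : E2, ∀ k ∈ K, Xs L L' k f x = ∑ i ∈ range (2 * L),
      ∑ j ∈ (range (2 * L')).filter (fun j : ℕ => (i : ℤ) + j ≤ k + L + L'),
        bb L L' f i j x := by
    rw [Finset.eventually_all]
    intro k _
    have b0 : ∀ᵐ x : E2, ∀ i ∈ range (2 * L),
        (∑ j ∈ (range (2 * L')).filter (fun j : ℕ => (i : ℤ) + j ≤ k + L + L'),
          bb L L' f i j : L2) x =
        ∑ j ∈ (range (2 * L')).filter (fun j : ℕ => (i : ℤ) + j ≤ k + L + L'),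
          bb L L' f i j x := by
      rw [Finset.eventually_all]
      intro i _
      exact coe_sum _ _
    filter_upwards [coe_sum (range (2 * L)) fun i =>
      ∑ j ∈ (range (2 * L')).filter (fun j : ℕ => (i : ℤ) + j ≤ k + L + L'), bb L L' f i j,
      b0] with x b1 b2
    unfold Xs
    rw [b1]
    exact sum_congr rfl fun i hi => b2 i hi
  filter_upwards [a1, a2, a3, a4, a6] with y h1 h2 h3 h4 h6
  exact ⟨h1, h2, h3, h4, h6⟩

/-- the majorants of an orbit -/
noncomputable def tvA (L L' : ℕ) (f : L2) (x : E2) (i j : ℕ) (g : Q (2 * L))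
    (h : Q (2 * L')) : ℝ :=
  if i < 2 * L ∧ j < 2 * L' then ‖bb L L' f i j (trT L L' g h x)‖ else 0

section orbit

variable {L L' : ℕ} {f : L2} {K : Finset ℤ} {x : E2}

theorem tv_arr {φ : ℂ → ℝ} (hφn : ∀ z, φ (-z) = -φ z) (hφb : ∀ z, |φ z| ≤ ‖z‖)
    (hx : ∀ (g : Q (2 * L)) (h : Q (2 * L')), tvGood L L' f K (trT L L' g h x)) :
    Ar2 (2 * L) (2 * L') (trD L L' f φ x) (tvA L L' f x) where
  odx i j h g := by
    show trD L L' f φ x i j (fl i g) h = -trD L L' f φ x i j g h
    unfold trD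
    split_ifs with hij
    · rw [trT_fl0 L L' g h hij.1, (hx g h).1 i j, hφn]
    · rw [neg_zero]
  invx i j h l hl g := by
    show trD L L' f φ x i j (fl l g) h = trD L L' f φ x i j g h
    rcases Nat.lt_or_ge l (2 * L) with h1 | h1
    · unfold trD
      split_ifs with hij
      · rw [trT_fl0 L L' g h h1, (hx g h).2.1 i j l (by omega)]
      · rfl
    · rw [fl_of_le h1]
  ody i j g h := by
    show trD L L' f φ x i j g (fl j h) = -trD L L' f φ x i j g h
    unfold trD
    split_ifs with hij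
    · rw [trT_fl1 L L' g h hij.2, (hx g h).2.2.1 i j, hφn]
    · rw [neg_zero]
  invy i j g l hl h := by
    show trD L L' f φ x i j g (fl l h) = trD L L' f φ x i j g h
    rcases Nat.lt_or_ge l (2 * L') with h1 | h1
    · unfold trD
      split_ifs with hij
      · rw [trT_fl1 L L' g h h1, (hx g h).2.2.2.1 i j l (by omega)]
      · rfl
    · rw [fl_of_le h1]
  pax i j h l hl g := by
    show tvA L L' f x i j (fl l g) h = tvA L L' f x i j g h
    rcases Nat.lt_or_ge l (2 * L) with h1 | h1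
    · unfold tvA
      split_ifs with hij
      · rw [trT_fl0 L L' g h h1]
        rcases Nat.eq_or_lt_of_le hl with h2 | h2
        · rw [← h2, (hx g h).1 i j, norm_neg]
        · rw [(hx g h).2.1 i j l h2]
      · rfl
    · rw [fl_of_le h1]
  pay i j g l hl h := by
    show tvA L L' f x i j g (fl l h) = tvA L L' f x i j g h
    rcases Nat.lt_or_ge l (2 * L') with h1 | h1
    · unfold tvA
      split_ifs with hij
      · rw [trT_fl1 L L' g h h1]
        rcases Nat.eq_or_lt_of_le hl with h2 | h2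
        · rw [← h2, (hx g h).2.2.1 i j, norm_neg]
        · rw [(hx g h).2.2.2.1 i j l h2]
      · rfl
    · rw [fl_of_le h1]
  na i j g h := by
    unfold tvA
    split_ifs
    · exact norm_nonneg _
    · exact le_rfl
  dom i j g h := by
    unfold trD tvA
    split_ifs with hij
    · exact hφb _
    · rw [abs_zero]
  za i j hij g h := by
    unfold tvA
    rw [if_neg (by omega)]

theorem tv_XS {φ : ℂ → ℝ} (hφs : ∀ (s : Finset ℕ) (z : ℕ → ℂ), φ (∑ i ∈ s, z i) =
      ∑ i ∈ s, φ (z i))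
    (hx : ∀ (g : Q (2 * L)) (h : Q (2 * L')), tvGood L L' f K (trT L L' g h x))
    (g : Q (2 * L)) (h : Q (2 * L')) (k : ℤ) (hk : k ∈ K) :
    |φ (Xs L L' k f (trT L L' g h x))| ≤ MX (trD L L' f φ x) g h := by
  have e : φ (Xs L L' k f (trT L L' g h x)) = ∑ i ∈ range (2 * L), ∑ j ∈ range (2 * L'),
      if (i : ℤ) + j ≤ k + L + L' then trD L L' f φ x i j g h else 0 := by
    rw [(hx g h).2.2.2.2 k hk, hφs]
    refine sum_congr rfl fun i hi => ?_
    rw [hφs, sum_filter]
    refine sum_congr rfl fun j hj => ?_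
    split_ifs
    · unfold trD
      rw [if_pos ⟨mem_range.1 hi, mem_range.1 hj⟩]
    · rfl
  by_cases h0 : 0 ≤ k + L + L'
  · have e2 : φ (Xs L L' k f (trT L L' g h x)) =
        XS (trD L L' f φ x) (k + L + L').toNat g h := by
      rw [e]
      unfold XS
      refine sum_congr rfl fun i _ => sum_congr rfl fun j _ => ?_
      by_cases h1 : (i : ℤ) + j ≤ k + L + L'
      · rw [if_pos h1, if_pos (by omega)]
      · rw [if_neg h1, if_neg (by omega)]
    rw [e2]
    exact abs_XS_le_MX _ _ _ _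
  · have e2 : φ (Xs L L' k f (trT L L' g h x)) = 0 := by
      rw [e]
      refine sum_eq_zero fun i _ => sum_eq_zero fun j _ => ?_
      rw [if_neg (by omega)]
    rw [e2, abs_zero]
    exact MX_nonneg _ _ _

end orbit

theorem tv_ind_nonneg (p : Prop) : 0 ≤ ind p := by
  unfold ind
  split_ifs
  · exact zero_le_one
  · exact le_rfl

/-- row P1 -/
theorem trV (h : SWeak) : STrV := by
  intro q hq1 hq2
  obtain ⟨C, hC, hfin⟩ := h q hq1 hq2
  refine ⟨2 * 2 ^ q * C, by positivity, ?_⟩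
  intro L L' f K t ht
  -- the exceptional set
  set E : Set E2 := {z : E2 | ∃ k ∈ K, t < ‖Xs L L' k f z‖} with hE
  have hEm : MeasurableSet E := by
    have e : E = ⋃ k ∈ K, {z : E2 | t < ‖Xs L L' k f z‖} := by
      ext z
      simp [hE]
    rw [e]
    refine Finset.measurableSet_biUnion K fun k _ => ?_
    exact measurableSet_lt measurable_const (Lp.stronglyMeasurable (Xs L L' k f)).measurable.norm
  have hFi : (fun z : E2 => ind (z ∈ E)) = E.indicator fun _ => (1 : ℝ) := by
    funext z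
    unfold ind
    by_cases hz : z ∈ E
    · rw [if_pos hz, Set.indicator_of_mem hz]
    · rw [if_neg hz, Set.indicator_of_notMem hz]
  have hFm : Measurable fun z : E2 => ind (z ∈ E) := by
    rw [hFi]
    exact measurable_const.indicator hEm
  have hvol : volume E = ∫⁻ z, ENNReal.ofReal (ind (z ∈ E)) := by
    rw [← lintegral_indicator_one hEm]
    refine lintegral_congr fun z => ?_
    unfold ind
    by_cases hz : z ∈ E
    · rw [if_pos hz, Set.indicator_of_mem hz, ENNReal.ofReal_one, Pi.one_apply]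
    · rw [if_neg hz, Set.indicator_of_notMem hz, ENNReal.ofReal_zero]
  -- the pieces
  have hbm : ∀ i j : ℕ, Measurable fun z : E2 => ‖bb L L' f i j z‖ ^ q := fun i j =>
    (Lp.stronglyMeasurable (bb L L' f i j)).measurable.norm.pow_const q
  have hb0 : ∀ (i j : ℕ) (z : E2), 0 ≤ ‖bb L L' f i j z‖ ^ q := fun i j z =>
    Real.rpow_nonneg (norm_nonneg _) _
  have hbT : ∀ i j : ℕ, Measurable fun x : E2 => ENNReal.ofReal
      (av2 fun (g : Q (2 * L)) (h : Q (2 * L')) => ‖bb L L' f i j (trT L L' g h x)‖ ^ q) :=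
    fun i j => tv_meas (hbm i j) (hb0 i j) (trT L L') (trT_mp L L')
  have good : ∀ᵐ x : E2, ∀ (g : Q (2 * L)) (h : Q (2 * L')),
      tvGood L L' f K (trT L L' g h x) := by
    rw [ae_all_iff]
    intro g
    rw [ae_all_iff]
    intro h
    exact (trT_mp L L' g h).quasiMeasurePreserving.ae (tv_good L L' f K)
  -- the inequality on almost every orbit
  have key : ∀ᵐ x : E2, ENNReal.ofReal (av2 fun (g : Q (2 * L)) (h : Q (2 * L')) =>
      ind (trT L L' g h x ∈ E)) ≤ ENNReal.ofReal (2 * 2 ^ q * C / t ^ q) *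
      ∑ i ∈ range (2 * L), ∑ j ∈ range (2 * L'), ENNReal.ofReal
        (av2 fun (g : Q (2 * L)) (h : Q (2 * L')) => ‖bb L L' f i j (trT L L' g h x)‖ ^ q) := by
    filter_upwards [good] with x hx
    have t2 : 0 < t / 2 := by linarith
    have A1 := hfin (2 * L) (2 * L') _ _ (tv_arr (φ := Complex.re)
      (fun z => Complex.neg_re z) Complex.abs_re_le_norm hx) (t / 2) t2
    have A2 := hfin (2 * L) (2 * L') _ _ (tv_arr (φ := Complex.im)
      (fun z => Complex.neg_im z) Complex.abs_im_le_norm hx) (t / 2) t2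
    have M1 : (av2 fun (g : Q (2 * L)) (h : Q (2 * L')) => ind (trT L L' g h x ∈ E)) ≤
        av2 fun (g : Q (2 * L)) (h : Q (2 * L')) =>
          ind (t / 2 < MX (trD L L' f Complex.re x) g h) +
            ind (t / 2 < MX (trD L L' f Complex.im x) g h) := by
      refine av2_mono fun g h => ?_
      by_cases hz : trT L L' g h x ∈ E
      · obtain ⟨k, hk, hkt⟩ := hz
        have c1 := tv_XS (φ := Complex.re) (fun s z => Complex.re_sum s z) hx g h k hk
        have c2 := tv_XS (φ := Complex.im) (fun s z => Complex.im_sum s z) hx g h k hk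
        have c3 := Complex.norm_le_abs_re_add_abs_im (Xs L L' k f (trT L L' g h x))
        have c4 : ind (trT L L' g h x ∈ E) ≤ 1 := by
          unfold ind
          split_ifs
          · exact le_rfl
          · exact zero_le_one
        by_cases d : t / 2 < MX (trD L L' f Complex.re x) g h
        · have e1 : ind (t / 2 < MX (trD L L' f Complex.re x) g h) = 1 := if_pos d
          have e2 := tv_ind_nonneg (t / 2 < MX (trD L L' f Complex.im x) g h)
          linarith
        · have e1 : ind (t / 2 < MX (trD L L' f Complex.im x) g h) = 1 :=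
            if_pos (by linarith [not_lt.1 d])
          have e2 := tv_ind_nonneg (t / 2 < MX (trD L L' f Complex.re x) g h)
          linarith
      · have e0 : ind (trT L L' g h x ∈ E) = 0 := if_neg hz
        rw [e0]
        exact add_nonneg (tv_ind_nonneg _) (tv_ind_nonneg _)
    rw [av2_add] at M1
    have e3 : C / (t / 2) ^ q = 2 ^ q * C / t ^ q := by
      rw [Real.div_rpow ht.le zero_le_two]
      field_simp
    have e4 : (∑ i ∈ range (2 * L), ∑ j ∈ range (2 * L'),
        av2 fun (g : Q (2 * L)) (h : Q (2 * L')) => tvA L L' f x i j g h ^ q) =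
        ∑ i ∈ range (2 * L), ∑ j ∈ range (2 * L'),
          av2 fun (g : Q (2 * L)) (h : Q (2 * L')) => ‖bb L L' f i j (trT L L' g h x)‖ ^ q := by
      refine sum_congr rfl fun i hi => sum_congr rfl fun j hj => ?_
      congr 1
      funext g h
      unfold tvA
      rw [if_pos ⟨mem_range.1 hi, mem_range.1 hj⟩]
    rw [e3, e4] at A1 A2
    set S : ℝ := ∑ i ∈ range (2 * L), ∑ j ∈ range (2 * L'),
      av2 fun (g : Q (2 * L)) (h : Q (2 * L')) => ‖bb L L' f i j (trT L L' g h x)‖ ^ q with hS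
    have M2 : (av2 fun (g : Q (2 * L)) (h : Q (2 * L')) => ind (trT L L' g h x ∈ E)) ≤
        2 * 2 ^ q * C / t ^ q * S := by
      have e5 : 2 * 2 ^ q * C / t ^ q * S = 2 ^ q * C / t ^ q * S + 2 ^ q * C / t ^ q * S := by
        ring
      rw [e5]
      linarith
    refine (ENNReal.ofReal_le_ofReal M2).trans (le_of_eq ?_)
    rw [ENNReal.ofReal_mul (by positivity), hS, ENNReal.ofReal_sum_of_nonneg fun i _ =>
      sum_nonneg fun j _ => av2_nonneg fun g h => hb0 i j _]
    congr 1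
    exact sum_congr rfl fun i _ => ENNReal.ofReal_sum_of_nonneg fun j _ =>
      av2_nonneg fun g h => hb0 i j _
  -- integration
  calc volume E = ∫⁻ x : E2, ENNReal.ofReal (av2 fun (g : Q (2 * L)) (h : Q (2 * L')) =>
        ind (trT L L' g h x ∈ E)) := by
        rw [hvol]
        exact (tv_lint hFm (fun z => tv_ind_nonneg _) (trT L L') (trT_mp L L')).symm
    _ ≤ ∫⁻ x : E2, ENNReal.ofReal (2 * 2 ^ q * C / t ^ q) *
      ∑ i ∈ range (2 * L), ∑ j ∈ range (2 * L'), ENNReal.ofReal
        (av2 fun (g : Q (2 * L)) (h : Q (2 * L')) => ‖bb L L' f i j (trT L L' g h x)‖ ^ q) :=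
        lintegral_mono_ae key
    _ = ENNReal.ofReal (2 * 2 ^ q * C / t ^ q) *
      ∑ i ∈ range (2 * L), ∑ j ∈ range (2 * L'),
        ∫⁻ z : E2, ENNReal.ofReal (‖bb L L' f i j z‖ ^ q) := by
        rw [lintegral_const_mul _ (Finset.measurable_fun_sum _ fun i _ =>
          Finset.measurable_fun_sum _ fun j _ => hbT i j),
          lintegral_finsetSum _ fun i _ => Finset.measurable_fun_sum _ fun j _ => hbT i j]
        congr 1
        refine sum_congr rfl fun i _ => ?_
        rw [lintegral_finsetSum _ fun j _ => hbT i j]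
        exact sum_congr rfl fun j _ => tv_lint (hbm i j) (hb0 i j) (trT L L') (trT_mp L L')

end Pool.Agent.H79.RV
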