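import Pool.Agent.H79.RV.StmF
import Pool.Agent.H79.RV.TrV

/-!
# MP_a7284e_an, project RV: transfer along the orbits of the flips, general weight (row F1)
-/

set_option autoImplicit false

namespace Pool.Agent.H79.RV

open MeasureTheory FourierTransform Filter Topology Finset Classical ENNReal
open Pool.Agent.H73.Hyp
open Pool.Agent.H79.RT Pool.Agent.H79.RU

/-- row F1 -/
theorem trF : STrF := by
  intro Φ c hW L L' f K t ht
  have t2 : 0 < t / 2 := by linarith
  have hc0 : 0 < c (t / 2) := hW.pos _ t2
  -- the exceptional set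
  set E : Set E2 := {z : E2 | ∃ k ∈ K, t < ‖Xs L L' k f z‖} with hE
  have hEm : MeasurableSet E := by
    have e : E = ⋃ k ∈ K, {z : E2 | t < ‖Xs L L' k f z‖} := by
      ext z
      simp [hE]
    rw [e]
    refine Finset.measurableSet_biUnion K fun k _ => ?_
    exact measurableSet_lt measurable_const (Lp.stronglyMeasurable (Xs L L' k f)).measurable.norm
  have hFi : (fun z : E2 => ind (z ∈ E)) = E.indicator fun _ => (1 : ℝ) := by
    funext z
    unfold ind
    by_cases hz : z ∈ E
    · rw [if_pos hz, Set.indicator_of_mem hz]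
    · rw [if_neg hz, Set.indicator_of_notMem hz]
  have hFm : Measurable fun z : E2 => ind (z ∈ E) := by
    rw [hFi]
    exact measurable_const.indicator hEm
  have hvol : volume E = ∫⁻ z, ENNReal.ofReal (ind (z ∈ E)) := by
    rw [← lintegral_indicator_one hEm]
    refine lintegral_congr fun z => ?_
    unfold ind
    by_cases hz : z ∈ E
    · rw [if_pos hz, Set.indicator_of_mem hz, ENNReal.ofReal_one, Pi.one_apply]
    · rw [if_neg hz, Set.indicator_of_notMem hz, ENNReal.ofReal_zero]
  -- the pieces
  have hbm : ∀ i j : ℕ, Measurable fun z : E2 => Φ ‖bb L L' f i j z‖ := fun i j =>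
    hW.meas.comp (Lp.stronglyMeasurable (bb L L' f i j)).measurable.norm
  have hb0 : ∀ (i j : ℕ) (z : E2), 0 ≤ Φ ‖bb L L' f i j z‖ := fun i j z => hW.nn _
  have hbT : ∀ i j : ℕ, Measurable fun x : E2 => ENNReal.ofReal
      (av2 fun (g : Q (2 * L)) (h : Q (2 * L')) => Φ ‖bb L L' f i j (trT L L' g h x)‖) :=
    fun i j => tv_meas (hbm i j) (hb0 i j) (trT L L') (trT_mp L L')
  have good : ∀ᵐ x : E2, ∀ (g : Q (2 * L)) (h : Q (2 * L')),
      tvGood L L' f K (trT L L' g h x) := by
    rw [ae_all_iff]
    intro g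
    rw [ae_all_iff]
    intro h
    exact (trT_mp L L' g h).quasiMeasurePreserving.ae (tv_good L L' f K)
  -- the inequality on almost every orbit
  have key : ∀ᵐ x : E2, ENNReal.ofReal (av2 fun (g : Q (2 * L)) (h : Q (2 * L')) =>
      ind (trT L L' g h x ∈ E)) ≤ ENNReal.ofReal (2 * c (t / 2)) *
      ∑ i ∈ range (2 * L), ∑ j ∈ range (2 * L'), ENNReal.ofReal
        (av2 fun (g : Q (2 * L)) (h : Q (2 * L')) => Φ ‖bb L L' f i j (trT L L' g h x)‖) := by
    filter_upwards [good] with x hx
    have A1 := hW.ineq (2 * L) (2 * L') _ _ (tv_arr (φ := Complex.re)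
      (fun z => Complex.neg_re z) Complex.abs_re_le_norm hx) (t / 2) t2
    have A2 := hW.ineq (2 * L) (2 * L') _ _ (tv_arr (φ := Complex.im)
      (fun z => Complex.neg_im z) Complex.abs_im_le_norm hx) (t / 2) t2
    have M1 : (av2 fun (g : Q (2 * L)) (h : Q (2 * L')) => ind (trT L L' g h x ∈ E)) ≤
        av2 fun (g : Q (2 * L)) (h : Q (2 * L')) =>
          ind (t / 2 < MX (trD L L' f Complex.re x) g h) +
            ind (t / 2 < MX (trD L L' f Complex.im x) g h) := by
      refine av2_mono fun g h => ?_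
      by_cases hz : trT L L' g h x ∈ E
      · obtain ⟨k, hk, hkt⟩ := hz
        have c1 := tv_XS (φ := Complex.re) (fun s z => Complex.re_sum s z) hx g h k hk
        have c2 := tv_XS (φ := Complex.im) (fun s z => Complex.im_sum s z) hx g h k hk
        have c3 := Complex.norm_le_abs_re_add_abs_im (Xs L L' k f (trT L L' g h x))
        have c4 : ind (trT L L' g h x ∈ E) ≤ 1 := by
          unfold ind
          split_ifs
          · exact le_rfl
          · exact zero_le_one
        by_cases d : t / 2 < MX (trD L L' f Complex.re x) g h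
        · have e1 : ind (t / 2 < MX (trD L L' f Complex.re x) g h) = 1 := if_pos d
          have e2 := tv_ind_nonneg (t / 2 < MX (trD L L' f Complex.im x) g h)
          linarith
        · have e1 : ind (t / 2 < MX (trD L L' f Complex.im x) g h) = 1 :=
            if_pos (by linarith [not_lt.1 d])
          have e2 := tv_ind_nonneg (t / 2 < MX (trD L L' f Complex.re x) g h)
          linarith
      · have e0 : ind (trT L L' g h x ∈ E) = 0 := if_neg hz
        rw [e0]
        exact add_nonneg (tv_ind_nonneg _) (tv_ind_nonneg _)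
    rw [av2_add] at M1
    have e4 : (∑ i ∈ range (2 * L), ∑ j ∈ range (2 * L'),
        av2 fun (g : Q (2 * L)) (h : Q (2 * L')) => Φ (tvA L L' f x i j g h)) =
        ∑ i ∈ range (2 * L), ∑ j ∈ range (2 * L'),
          av2 fun (g : Q (2 * L)) (h : Q (2 * L')) => Φ ‖bb L L' f i j (trT L L' g h x)‖ := by
      refine sum_congr rfl fun i hi => sum_congr rfl fun j hj => ?_
      congr 1
      funext g h
      unfold tvA
      rw [if_pos ⟨mem_range.1 hi, mem_range.1 hj⟩]
    rw [e4] at A1 A2
    set S : ℝ := ∑ i ∈ range (2 * L), ∑ j ∈ range (2 * L'),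
      av2 fun (g : Q (2 * L)) (h : Q (2 * L')) => Φ ‖bb L L' f i j (trT L L' g h x)‖ with hS
    have M2 : (av2 fun (g : Q (2 * L)) (h : Q (2 * L')) => ind (trT L L' g h x ∈ E)) ≤
        2 * c (t / 2) * S := by
      linarith
    refine (ENNReal.ofReal_le_ofReal M2).trans (le_of_eq ?_)
    rw [ENNReal.ofReal_mul (by positivity), hS, ENNReal.ofReal_sum_of_nonneg fun i _ =>
      sum_nonneg fun j _ => av2_nonneg fun g h => hb0 i j _]
    congr 1
    exact sum_congr rfl fun i _ => ENNReal.ofReal_sum_of_nonneg fun j _ =>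
      av2_nonneg fun g h => hb0 i j _
  -- integration
  calc volume E = ∫⁻ x : E2, ENNReal.ofReal (av2 fun (g : Q (2 * L)) (h : Q (2 * L')) =>
        ind (trT L L' g h x ∈ E)) := by
        rw [hvol]
        exact (tv_lint hFm (fun z => tv_ind_nonneg _) (trT L L') (trT_mp L L')).symm
    _ ≤ ∫⁻ x : E2, ENNReal.ofReal (2 * c (t / 2)) *
      ∑ i ∈ range (2 * L), ∑ j ∈ range (2 * L'), ENNReal.ofReal
        (av2 fun (g : Q (2 * L)) (h : Q (2 * L')) => Φ ‖bb L L' f i j (trT L L' g h x)‖) :=
        lintegral_mono_ae key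
    _ = ENNReal.ofReal (2 * c (t / 2)) *
      ∑ i ∈ range (2 * L), ∑ j ∈ range (2 * L'),
        ∫⁻ z : E2, ENNReal.ofReal (Φ ‖bb L L' f i j z‖) := by
        rw [lintegral_const_mul _ (Finset.measurable_fun_sum _ fun i _ =>
          Finset.measurable_fun_sum _ fun j _ => hbT i j),
          lintegral_finsetSum _ fun i _ => Finset.measurable_fun_sum _ fun j _ => hbT i j]
        congr 1
        refine sum_congr rfl fun i _ => ?_
        rw [lintegral_finsetSum _ fun j _ => hbT i j]
        exact sum_congr rfl fun j _ => tv_lint (hbm i j) (hb0 i j) (trT L L') (trT_mp L L')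

end Pool.Agent.H79.RV
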