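import Pool.Agent.H79.RV.StmF
import Pool.Agent.H79.RV.Pow
import Pool.Agent.H79.RV.C2

/-!
# MP_a7284e_an, project RV, row X11: the weak type inequality, amplitudes bounded below
-/

set_option autoImplicit false

namespace Pool.Agent.H79.RV

open Finset Classical
open Pool.Agent.H79.RT Pool.Agent.H79.RU

variable {n m : ℕ}

/-- one site: the pairing with the switch is at most the pairing of the majorant with `dd` -/
theorem wka_site (h0 : SC2) {D A : ℕ → ℕ → Q n → Q m → ℝ} (hD : Ar2 n m D A) (τ : ℕ → ℕ → ℕ)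
    (T : Q n → Q m → ℕ) (i j : ℕ) :
    av2 (fun x y => D i j x y * ind (τ i j ≤ T x y)) ≤
      av2 fun x y => A i j x y * |dd τ T i j x y| := by
  by_cases hij : n ≤ i ∨ m ≤ j
  · have hA := hD.za i j hij
    refine av2_mono fun x y => ?_
    have h1 : |D i j x y| ≤ 0 := by rw [← hA x y]; exact hD.dom i j x y
    have h2 : D i j x y = 0 := abs_eq_zero.1 (le_antisymm h1 (abs_nonneg _))
    rw [h2, hA x y]; simp
  · have hi : i < n := by
      by_contra h; exact hij (Or.inl (not_lt.1 h))
    have hj : j < m := by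
      by_contra h; exact hij (Or.inr (not_lt.1 h))
    set B : Q n → Q m → ℝ := fun x y => sg i x * sg j y * D i j x y with hB
    have hPr : Pr i j B := by
      constructor
      · intro y l hl x
        have h1 := sg_mul_inv (hD.odx i j y) (hD.invx i j y) l hl x
        show sg i (fl l x) * sg j y * D i j (fl l x) y = sg i x * sg j y * D i j x y
        have h2 : sg i (fl l x) * D i j (fl l x) y = sg i x * D i j x y := h1
        calc sg i (fl l x) * sg j y * D i j (fl l x) y
            = sg j y * (sg i (fl l x) * D i j (fl l x) y) := by ring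
          _ = sg j y * (sg i x * D i j x y) := by rw [h2]
          _ = _ := by ring
      · intro x l hl y
        have h1 := sg_mul_inv (hD.ody i j x) (hD.invy i j x) l hl y
        show sg i x * sg j (fl l y) * D i j x (fl l y) = sg i x * sg j y * D i j x y
        have h2 : sg j (fl l y) * D i j x (fl l y) = sg j y * D i j x y := h1
        calc sg i x * sg j (fl l y) * D i j x (fl l y)
            = sg i x * (sg j (fl l y) * D i j x (fl l y)) := by ring
          _ = sg i x * (sg j y * D i j x y) := by rw [h2]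
          _ = _ := by ring
    have h1 := (h0 n m i j).2.1 (fun x y => sg i x * sg j y * ind (τ i j ≤ T x y)) B hPr
    have h2 : (fun (x : Q n) (y : Q m) => D i j x y * ind (τ i j ≤ T x y)) =
        fun x y => sg i x * sg j y * ind (τ i j ≤ T x y) * B x y := by
      funext x y
      have h3 := sg_sq hi x
      have h4 := sg_sq hj y
      show D i j x y * ind (τ i j ≤ T x y) =
        sg i x * sg j y * ind (τ i j ≤ T x y) * (sg i x * sg j y * D i j x y)
      calc D i j x y * ind (τ i j ≤ T x y)
          = 1 * 1 * (D i j x y * ind (τ i j ≤ T x y)) := by ring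
        _ = sg i x ^ 2 * sg j y ^ 2 * (D i j x y * ind (τ i j ≤ T x y)) := by rw [h3, h4]
        _ = _ := by ring
    rw [h2, ← h1]
    refine av2_mono fun x y => ?_
    have h5 : |B x y| ≤ A i j x y := by
      show |sg i x * sg j y * D i j x y| ≤ A i j x y
      rw [abs_mul, abs_mul]
      have h6 : |sg i x| * |sg j y| ≤ 1 := mul_le_one₀ (sg_abs_le i x) (abs_nonneg _)
        (sg_abs_le j y)
      calc |sg i x| * |sg j y| * |D i j x y| ≤ 1 * |D i j x y| :=
            mul_le_mul_of_nonneg_right h6 (abs_nonneg _)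
        _ ≤ A i j x y := by rw [one_mul]; exact hD.dom i j x y
    show dd τ T i j x y * B x y ≤ _
    calc dd τ T i j x y * B x y ≤ |dd τ T i j x y * B x y| := le_abs_self _
      _ = |B x y| * |dd τ T i j x y| := by rw [abs_mul, mul_comm]
      _ ≤ A i j x y * |dd τ T i j x y| := mul_le_mul_of_nonneg_right h5 (abs_nonneg _)

/-- one side: the times and the first inequality -/
theorem wka_one (h0 : SC2) (h10 : STri) {D A : ℕ → ℕ → Q n → Q m → ℝ} (hD : Ar2 n m D A) (t : ℝ) :
    ∃ T : Q n → Q m → ℕ, (∀ x y, (∃ k, t < XS D k x y) → 0 < T x y) ∧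
      t * sup0 T ≤ ∑ i ∈ range n, ∑ j ∈ range m,
        av2 fun x y => A i j x y * |dd tri T i j x y| := by
  obtain ⟨hc, htri⟩ := h10
  let T : Q n → Q m → ℕ := fun x y =>
    if h : ∃ k, t < XS D k x y then (Classical.choose h + 1) * (Classical.choose h + 2) / 2 else 0
  have hpos : ∀ k : ℕ, 0 < (k + 1) * (k + 2) / 2 := by
    intro k
    have h1 : 2 ≤ (k + 1) * (k + 2) := by nlinarith
    exact Nat.div_pos h1 (by norm_num)
  have hT1 : ∀ x y (h : ∃ k, t < XS D k x y),
      T x y = (Classical.choose h + 1) * (Classical.choose h + 2) / 2 := by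
    intro x y h
    exact dif_pos h
  have hT0 : ∀ x y, (¬ ∃ k, t < XS D k x y) → T x y = 0 := by
    intro x y h
    exact dif_neg h
  refine ⟨T, fun x y h => by rw [hT1 x y h]; exact hpos _, ?_⟩
  have key : ∀ x y, t * ind (0 < T x y) ≤
      ∑ i ∈ range n, ∑ j ∈ range m, D i j x y * ind (tri i j ≤ T x y) := by
    intro x y
    by_cases h : ∃ k, t < XS D k x y
    · have h1 := Classical.choose_spec h
      have h2 := hT1 x y h
      have h3 : ind (0 < T x y) = 1 := ind_pos (by rw [h2]; exact hpos _)
      generalize Classical.choose h = k at h1 h2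
      rw [h3, mul_one]
      refine h1.le.trans (le_of_eq ?_)
      unfold XS
      refine sum_congr rfl fun i _ => sum_congr rfl fun j _ => ?_
      by_cases hk : i + j ≤ k
      · have h4 : tri i j ≤ T x y := by rw [h2]; exact (htri i j _).1 hk
        rw [if_pos hk, ind_pos h4, mul_one]
      · have h4 : ¬ tri i j ≤ T x y := by
          rw [h2]; intro h5; exact hk ((htri i j _).2 h5)
        rw [if_neg hk, ind_neg h4, mul_zero]
    · have h2 := hT0 x y h
      have h3 : ind (0 < T x y) = 0 := ind_neg (by rw [h2]; exact lt_irrefl 0)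
      rw [h3, mul_zero]
      refine le_of_eq (Eq.symm (sum_eq_zero fun i _ => sum_eq_zero fun j _ => ?_))
      have h4 : ¬ tri i j ≤ T x y := by
        rw [h2]; have := hc.pos i j; omega
      rw [ind_neg h4, mul_zero]
  calc t * sup0 T = av2 fun x y => t * ind (0 < T x y) := by
        unfold sup0; rw [av2_mul_left]
    _ ≤ av2 fun x y => ∑ i ∈ range n, ∑ j ∈ range m, D i j x y * ind (tri i j ≤ T x y) :=
        av2_mono key
    _ = ∑ i ∈ range n, ∑ j ∈ range m, av2 fun x y => D i j x y * ind (tri i j ≤ T x y) := by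
        rw [av2_sum]
        refine sum_congr rfl fun i _ => ?_
        rw [av2_sum]
    _ ≤ _ := sum_le_sum fun i _ => sum_le_sum fun j _ => wka_site h0 hD tri T i j

/-- one side: the measure of the set -/
theorem wka_half {C : ℝ} (hC : 0 ≤ C) (h8 : ∀ (n m : ℕ) (τ : ℕ → ℕ → ℕ) (T : Q n → Q m → ℕ)
    (κ : ℝ), Clk τ → 0 < κ → κ ≤ 1 →
    ∑ i ∈ range n, ∑ j ∈ range m, av2 (fun x y => ind (κ ≤ |dd τ T i j x y|) *
      dd τ T i j x y ^ 2) ≤ C * (1 + Real.log (1 / κ)) * sup0 T) (hc : Clk tri)
    {A : ℕ → ℕ → Q n → Q m → ℝ} (hA : ∀ i j x y, 0 ≤ A i j x y) {α t : ℝ} (hα : 0 < α)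
    (ht : 0 < t) (hb : ∀ i j x y, A i j x y = 0 ∨ α ≤ A i j x y) (T : Q n → Q m → ℕ)
    (h : t * sup0 T ≤ ∑ i ∈ range n, ∑ j ∈ range m,
        av2 fun x y => A i j x y * |dd tri T i j x y|) :
    sup0 T ≤ (3 + C) / t ^ 2 * (1 + max 0 (Real.log (t / α))) *
      ∑ i ∈ range n, ∑ j ∈ range m, av2 fun x y => A i j x y ^ 2 := by
  set X : ℝ := ∑ i ∈ range n, ∑ j ∈ range m, av2 fun x y => A i j x y ^ 2 with hX
  have hX0 : 0 ≤ X := sum_nonneg fun i _ => sum_nonneg fun j _ => av2_nonneg fun x y =>
    sq_nonneg _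
  have hs0 : 0 ≤ sup0 T := av2_nonneg fun x y => ind_nonneg _
  have hAα : ∀ i j x y, A i j x y ≤ A i j x y ^ 2 / α := by
    intro i j x y
    rw [le_div_iff₀ hα]
    rcases hb i j x y with h1 | h1
    · rw [h1]; simp
    · rw [sq]; exact mul_le_mul_of_nonneg_left h1 (hA i j x y)
  have hA1 : ∑ i ∈ range n, ∑ j ∈ range m, av2 (fun x y => A i j x y) ≤ X / α := by
    rw [hX, sum_div]
    refine sum_le_sum fun i _ => ?_
    rw [sum_div]
    refine sum_le_sum fun j _ => ?_
    have h1 : av2 (fun (x : Q n) (y : Q m) => A i j x y) ≤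
        av2 fun x y => 1 / α * A i j x y ^ 2 := by
      refine av2_mono fun x y => (hAα i j x y).trans (le_of_eq ?_)
      ring
    refine h1.trans (le_of_eq ?_)
    rw [av2_mul_left]
    ring
  have hmax : 0 ≤ max 0 (Real.log (t / α)) := le_max_left _ _
  have ht2 : 0 < t ^ 2 := by positivity
  by_cases hta : t < α
  · -- small heights
    have h1 : t * sup0 T ≤ X / α := by
      refine h.trans (le_trans (sum_le_sum fun i _ => sum_le_sum fun j _ => ?_) hA1)
      refine av2_mono fun x y => ?_
      have h2 := pow_dd_abs tri T i j x y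
      calc A i j x y * |dd tri T i j x y| ≤ A i j x y * 1 :=
            mul_le_mul_of_nonneg_left h2 (hA i j x y)
        _ = A i j x y := mul_one _
    have h2 : X / α ≤ X / t := div_le_div_of_nonneg_left hX0 ht hta.le
    have h3 : sup0 T ≤ X / t ^ 2 := by
      rw [le_div_iff₀ ht2]
      have h4 := (h1.trans h2)
      rw [le_div_iff₀ ht] at h4
      nlinarith
    refine h3.trans ?_
    have h5 : X / t ^ 2 = 1 / t ^ 2 * 1 * X := by ring
    rw [h5]
    have h6 : 1 / t ^ 2 ≤ (3 + C) / t ^ 2 := div_le_div_of_nonneg_right (by linarith) ht2.le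
    have h7 : (1 : ℝ) ≤ 1 + max 0 (Real.log (t / α)) := by linarith
    have h8 : 0 ≤ 1 / t ^ 2 := by positivity
    exact mul_le_mul_of_nonneg_right (mul_le_mul h6 h7 zero_le_one (h8.trans h6)) hX0
  · -- large heights
    have hta' : α ≤ t := not_lt.1 hta
    set κ : ℝ := α / t with hκ
    have hκ0 : 0 < κ := div_pos hα ht
    have hκ1 : κ ≤ 1 := by rw [hκ, div_le_one ht]; exact hta'
    have hinv : 1 / κ = t / α := by rw [hκ, one_div_div]
    have hlog : 0 ≤ Real.log (t / α) := Real.log_nonneg (by rw [le_div_iff₀ hα]; linarith)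
    have hmx : max 0 (Real.log (t / α)) = Real.log (t / α) := max_eq_right hlog
    set L : ℝ := 1 + Real.log (t / α) with hL
    have hL1 : 1 ≤ L := by linarith
    have hE := h8 n m tri T κ hc hκ0 hκ1
    rw [hinv, ← hL] at hE
    set C' : ℝ := C + 1 with hC'
    have hC'1 : 1 ≤ C' := by linarith
    set s : ℝ := t / (C' * L) with hs
    have hCL : 0 < C' * L := by positivity
    have hs0' : 0 < s := div_pos ht hCL
    have hpt : ∀ i j x y, A i j x y * |dd tri T i j x y| ≤ κ * A i j x y +
        (1 / (2 * s) * A i j x y ^ 2 +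
          s / 2 * (ind (κ ≤ |dd tri T i j x y|) * dd tri T i j x y ^ 2)) := by
      intro i j x y
      set a := A i j x y
      set d := dd tri T i j x y
      have ha : 0 ≤ a := hA i j x y
      by_cases hd : κ ≤ |d|
      · rw [ind_pos hd, one_mul]
        have h1 : 0 ≤ κ * a := by positivity
        have h2 : a * |d| ≤ 1 / (2 * s) * a ^ 2 + s / 2 * d ^ 2 := by
          have h3 : 0 ≤ (a - s * |d|) ^ 2 / (2 * s) := by positivity
          have h4 : (a - s * |d|) ^ 2 / (2 * s) =
              1 / (2 * s) * a ^ 2 + s / 2 * d ^ 2 - a * |d| := by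
            rw [← sq_abs d]
            field_simp
            ring
          linarith
        linarith
      · rw [ind_neg hd, zero_mul, mul_zero, add_zero]
        have h1 : a * |d| ≤ a * κ := mul_le_mul_of_nonneg_left (not_le.1 hd).le ha
        have h2 : 0 ≤ 1 / (2 * s) * a ^ 2 := by positivity
        nlinarith
    have hsum : ∑ i ∈ range n, ∑ j ∈ range m, av2 (fun x y => A i j x y * |dd tri T i j x y|) ≤
        κ * ∑ i ∈ range n, ∑ j ∈ range m, av2 (fun x y => A i j x y) +
        (1 / (2 * s) * X + s / 2 * ∑ i ∈ range n, ∑ j ∈ range m,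
          av2 (fun x y => ind (κ ≤ |dd tri T i j x y|) * dd tri T i j x y ^ 2)) := by
      have h1 : ∀ i j : ℕ, av2 (fun (x : Q n) (y : Q m) => A i j x y * |dd tri T i j x y|) ≤
          κ * av2 (fun x y => A i j x y) + (1 / (2 * s) * av2 (fun x y => A i j x y ^ 2) +
            s / 2 * av2 (fun x y => ind (κ ≤ |dd tri T i j x y|) * dd tri T i j x y ^ 2)) := by
        intro i j
        refine (av2_mono fun x y => hpt i j x y).trans (le_of_eq ?_)
        rw [av2_add, av2_add, av2_mul_left, av2_mul_left, av2_mul_left]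
      refine (sum_le_sum fun i _ => sum_le_sum fun j _ => h1 i j).trans (le_of_eq ?_)
      simp only [sum_add_distrib, mul_sum, hX]
    have hfin : t * sup0 T ≤ X / t + (1 / (2 * s) * X + s / 2 * (C * L * sup0 T)) := by
      refine h.trans (hsum.trans ?_)
      refine add_le_add ?_ (add_le_add le_rfl ?_)
      · calc κ * ∑ i ∈ range n, ∑ j ∈ range m, av2 (fun x y => A i j x y)
            ≤ κ * (X / α) := mul_le_mul_of_nonneg_left hA1 hκ0.le
          _ = X / t := by rw [hκ]; field_simp
      · exact mul_le_mul_of_nonneg_left hE (by positivity)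
    have h1 : s / 2 * (C * L * sup0 T) ≤ t * sup0 T / 2 := by
      have h2 : s * (C * L) ≤ t := by
        rw [hs, div_mul_eq_mul_div, div_le_iff₀ hCL]
        have h3 : C * L ≤ C' * L := mul_le_mul_of_nonneg_right (by linarith) (by linarith)
        exact mul_le_mul_of_nonneg_left h3 ht.le
      have h3 := mul_le_mul_of_nonneg_right h2 hs0
      nlinarith
    have h2 : 1 / (2 * s) * X = C' * L / (2 * t) * X := by
      rw [hs]; field_simp
    rw [h2] at hfin
    have h3 : t * sup0 T / 2 ≤ X / t + C' * L / (2 * t) * X := by linarith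
    have h4 : sup0 T ≤ (2 + C' * L) * X / t ^ 2 := by
      rw [le_div_iff₀ ht2]
      have h5 : t * sup0 T / 2 * (2 * t) ≤ (X / t + C' * L / (2 * t) * X) * (2 * t) :=
        mul_le_mul_of_nonneg_right h3 (by positivity)
      have h6 : (X / t + C' * L / (2 * t) * X) * (2 * t) = (2 + C' * L) * X := by
        field_simp
      rw [h6] at h5
      nlinarith
    refine h4.trans ?_
    rw [hmx, ← hL]
    have h5 : (3 + C) / t ^ 2 * L * X = (3 + C) * L * X / t ^ 2 := by ring
    rw [h5]
    refine div_le_div_of_nonneg_right (mul_le_mul_of_nonneg_right ?_ hX0) ht2.le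
    nlinarith

/-- X11 -/
theorem wkA (h0 : SC2) (h8 : SEng) (h10 : STri) : SWkA := by
  obtain ⟨C, hC, h8⟩ := h8
  refine ⟨2 * (3 + C), by linarith, ?_⟩
  intro n m D A α t hD hα ht hb
  have hc := h10.1
  set X : ℝ := ∑ i ∈ range n, ∑ j ∈ range m, av2 fun x y => A i j x y ^ 2 with hX
  have hN : Ar2 n m (fun i j x y => -D i j x y) A := by
    constructor
    · intro i j y x
      show -D i j (fl i x) y = - -D i j x y
      have h : D i j (fl i x) y = -D i j x y := hD.odx i j y x
      rw [h]
    · intro i j y l hl x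
      show -D i j (fl l x) y = -D i j x y
      have h : D i j (fl l x) y = D i j x y := hD.invx i j y l hl x
      rw [h]
    · intro i j x y
      show -D i j x (fl j y) = - -D i j x y
      have h : D i j x (fl j y) = -D i j x y := hD.ody i j x y
      rw [h]
    · intro i j x l hl y
      show -D i j x (fl l y) = -D i j x y
      have h : D i j x (fl l y) = D i j x y := hD.invy i j x l hl y
      rw [h]
    · exact hD.pax
    · exact hD.pay
    · exact hD.na
    · intro i j x y
      show |-D i j x y| ≤ A i j x y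
      rw [abs_neg]; exact hD.dom i j x y
    · exact hD.za
  obtain ⟨T1, hT1, hs1⟩ := wka_one h0 h10 hD t
  obtain ⟨T2, hT2, hs2⟩ := wka_one h0 h10 hN t
  have h1 := wka_half hC h8 hc hD.na hα ht hb T1 hs1
  have h2 := wka_half hC h8 hc hN.na hα ht hb T2 hs2
  rw [← hX] at h1 h2
  have hpt : ∀ (x : Q n) (y : Q m), ind (t < MX D x y) ≤ ind (0 < T1 x y) + ind (0 < T2 x y) := by
    intro x y
    by_cases h : t < MX D x y
    · unfold MX at h
      rw [Finset.lt_sup'_iff] at h
      obtain ⟨k, _, hk⟩ := h
      rcases lt_abs.1 hk with h3 | h3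
      · have h4 := hT1 x y ⟨k, h3⟩
        have h5 : ind (0 < T1 x y) = 1 := ind_pos h4
        have h6 := ind_nonneg (0 < T2 x y)
        have h7 := pow_ind_le (t < MX D x y)
        linarith
      · have h4 : t < XS (fun i j x y => -D i j x y) k x y := by
          refine h3.trans_le (le_of_eq ?_)
          unfold XS
          rw [← sum_neg_distrib]
          refine sum_congr rfl fun i _ => ?_
          rw [← sum_neg_distrib]
          refine sum_congr rfl fun j _ => ?_
          split_ifs <;> simp
        have h5 : ind (0 < T2 x y) = 1 := ind_pos (hT2 x y ⟨k, h4⟩)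
        have h6 := ind_nonneg (0 < T1 x y)
        have h7 := pow_ind_le (t < MX D x y)
        linarith
    · rw [ind_neg h]
      have h5 := ind_nonneg (0 < T1 x y)
      have h6 := ind_nonneg (0 < T2 x y)
      linarith
  calc av2 (fun x y => ind (t < MX D x y))
      ≤ av2 fun x y => ind (0 < T1 x y) + ind (0 < T2 x y) := av2_mono hpt
    _ = sup0 T1 + sup0 T2 := by rw [av2_add]; rfl
    _ ≤ (3 + C) / t ^ 2 * (1 + max 0 (Real.log (t / α))) * X +
        (3 + C) / t ^ 2 * (1 + max 0 (Real.log (t / α))) * X := add_le_add h1 h2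
    _ = 2 * (3 + C) / t ^ 2 * (1 + max 0 (Real.log (t / α))) * X := by ring

end Pool.Agent.H79.RV
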