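import Pool.Agent.H79.RV.StmF
import Pool.Agent.H79.RV.C2
import Pool.Agent.H79.RV.Ent
import Pool.Agent.H79.RV.Du
import Pool.Agent.H47.RV.Left2
import Pool.Agent.H79.RV.Rect
import Pool.Agent.H79.RV.Deep
import Pool.Agent.H79.RV.Top
import Pool.Agent.H79.RV.Eng
import Pool.Agent.H79.RV.Pow
import Pool.Agent.H79.RV.WkA
import Pool.Agent.H79.RV.Lw
import Pool.Agent.H42.RV.Cmp
import Pool.Agent.H79.RV.TrF
import Pool.Agent.H79.RV.AFT
import Pool.Agent.H79.RV.MaxF
import Pool.Agent.H79.RV.TailF
import Pool.Agent.H79.RV.Clo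
import Pool.Agent.H79.RV.ConvF
import Pool.Agent.H79.RV.RealF
import Pool.Agent.H79.RT.All

/-!
# MP_a7284e_an, project RV: assembly
-/

set_option autoImplicit false

namespace Pool.Agent.H79.RV

/-- the weak type inequality on cubes, one logarithm of the amplitude -/
theorem lw_all : SLw :=
  lwT (wkA sc2 (eng sc2 (top2 sc2 (Pool.Agent.H47.RV.left2 sc2 (du2 ent2)) (deep2 rect))) triC)

/-- the weak type inequality in the plane -/
theorem maxF_all : SMaxF := maxF trF (aft Pool.Agent.H79.RT.haar_all) Pool.Agent.H42.RV.cmp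

/-- convergence of the sharp cut-offs -/
theorem convF_all : SConvF :=
  convF maxF_all (tailF Pool.Agent.H79.RT.cf_spec) clo Pool.Agent.H79.RT.step

/-- real parameters -/
theorem realF_all : SRealF := realF maxF_all convF_all

end Pool.Agent.H79.RV
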