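import Pool.Agent.H79.RV.StmR
import Pool.Agent.H79.RT.Conv

/-!
# MP_a7284e_an, project RV: closure of almost everywhere convergence (row P6)
-/

set_option autoImplicit false

namespace Pool.Agent.H79.RV

open MeasureTheory FourierTransform Filter Topology Finset Classical ENNReal
open Pool.Agent.H73.Hyp
open Pool.Agent.H79.RT Pool.Agent.H79.RU

/-- row P6 -/
theorem clo : SClo := by
  intro f hX
  have hpos : ∀ s : ℕ, (0 : ℝ) < (1 / 4) ^ s := fun s => by positivity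
  have hgeo : Summable fun s : ℕ => ((1 : ℝ) / 4) ^ s :=
    summable_geometric_of_lt_one (by norm_num) (by norm_num)
  choose g g1 g2 g3 using fun s : ℕ => hX ((1 / 4) ^ s) (hpos s)
  have hBC : ∑' s : ℕ, volume {z : E2 | ∃ k : ℤ, ((1 : ℝ) / 4) ^ s < ‖Hc k (f - g s) z‖} ≠ ⊤ := by
    refine ne_top_of_le_ne_top ?_ (ENNReal.tsum_le_tsum g2)
    rw [← ENNReal.ofReal_tsum_of_nonneg (fun s => (hpos s).le) hgeo]
    exact ENNReal.ofReal_ne_top
  have hev := ae_eventually_notMem hBC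
  have hz := ae_zero_of_summable (fun s => f - g s)
    (Summable.of_nonneg_of_le (fun s => sq_nonneg _) g1 hgeo)
  have hid : ∀ᵐ x : E2, ∀ (s k : ℕ), Hc k f x - f x =
      (Hc k (f - g s) x - (f - g s : L2) x) + (Hc k (g s) x - g s x) := by
    refine ae_all_iff.2 fun s => ae_all_iff.2 fun k => ?_
    have e : Hc k f - f = (Hc k (f - g s) - (f - g s)) + (Hc k (g s) - g s) := by
      rw [map_sub]
      abel
    filter_upwards [Lp.coeFn_sub (Hc k f) f, Lp.coeFn_sub (Hc k (f - g s)) (f - g s),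
      Lp.coeFn_sub (Hc k (g s)) (g s),
      Lp.coeFn_add (Hc k (f - g s) - (f - g s)) (Hc k (g s) - g s)] with x a1 a2 a3 a4
    rw [e, a4, Pi.add_apply, a2, a3] at a1
    exact a1.symm
  filter_upwards [hev, hz, hid, ae_all_iff.2 g3] with x x1 x2 x3 x5
  have t1 : Tendsto (fun s : ℕ => ((1 : ℝ) / 4) ^ s) atTop (𝓝 0) :=
    tendsto_pow_atTop_nhds_zero_of_lt_one (by norm_num) (by norm_num)
  have t2 := t1.add x2.norm
  rw [norm_zero, add_zero] at t2
  rw [Metric.tendsto_atTop]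
  intro ε hε
  obtain ⟨J, hJ1, hJ2⟩ :=
    ((t2.eventually_lt_const (show (0 : ℝ) < ε / 2 by positivity)).and x1).exists
  obtain ⟨K, hK⟩ := (Metric.tendsto_atTop.1 (x5 J)) (ε / 2) (by positivity)
  refine ⟨K, fun k hk => ?_⟩
  have h1 := hK k hk
  rw [dist_eq_norm] at h1 ⊢
  rw [x3 J k]
  have h2 : ‖Hc k (f - g J) x‖ ≤ ((1 : ℝ) / 4) ^ J :=
    not_lt.1 fun h => hJ2 ⟨(k : ℤ), h⟩
  have h3 := norm_sub_le (Hc k (f - g J) x) ((f - g J : L2) x)
  have h4 := norm_add_le (Hc k (f - g J) x - (f - g J : L2) x) (Hc k (g J) x - g J x)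
  linarith

end Pool.Agent.H79.RV
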