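import Pool.Agent.H79.RV.StmR

/-!
# MP_a7284e_an, project RV: convergence of the sharp cut-offs (row P7)
-/

set_option autoImplicit false

namespace Pool.Agent.H79.RV

open MeasureTheory FourierTransform Filter Topology Finset Classical ENNReal
open Pool.Agent.H73.Hyp
open Pool.Agent.H79.RT Pool.Agent.H79.RU

/-- row P7 -/
theorem convV (h4 : SMaxV) (h5 : STailV) (h6 : SClo) (hs : SStep) : SConvV := by
  intro q hq hq' f hA
  obtain ⟨C, -, hmax⟩ := h4 q hq hq'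
  obtain ⟨t1, t2⟩ := h5 q hq f hA
  refine h6 f fun ε hε => ?_
  have T1 : Tendsto (fun b : ℕ => ENNReal.ofReal (C / ε ^ q) *
      Aq q (f - Ep (Uf 0) (b : ℤ) (Ep (Uf 1) (b : ℤ) f)) + ENNReal.ofReal (C / ε ^ 2 *
        ‖f - Ep (Uf 0) (b : ℤ) (Ep (Uf 1) (b : ℤ) f)‖ ^ 2)) atTop (𝓝 0) := by
    have a1 := ENNReal.Tendsto.const_mul (a := ENNReal.ofReal (C / ε ^ q)) t1
      (Or.inr ENNReal.ofReal_ne_top)
    have a2 := ENNReal.tendsto_ofReal ((t2.pow 2).const_mul (C / ε ^ 2))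
    have a3 := a1.add a2
    rw [mul_zero, zero_pow two_ne_zero, mul_zero, ENNReal.ofReal_zero, add_zero] at a3
    exact a3
  have T2 : Tendsto (fun b : ℕ => ‖f - Ep (Uf 0) (b : ℤ) (Ep (Uf 1) (b : ℤ) f)‖ ^ 2) atTop
      (𝓝 0) := by
    have a2 := t2.pow 2
    rw [zero_pow two_ne_zero] at a2
    exact a2
  obtain ⟨b, hb1, hb2⟩ := ((T1.eventually (eventually_le_nhds (ENNReal.ofReal_pos.2 hε))).and
    (T2.eventually (eventually_le_nhds hε))).exists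
  refine ⟨Ep (Uf 0) (b : ℤ) (Ep (Uf 1) (b : ℤ) f), hb2, (hmax _ ε hε).trans hb1,
    hs (b : ℤ) _ (Ep_mem _ _ _) ?_⟩
  rw [Ep0_Ep1]
  exact Ep_mem _ _ _

end Pool.Agent.H79.RV
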