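import Pool.Agent.H79.RU.Defs

/-!
# MP_a7284e_an, project RV: the count theorem, definitions

Finite cubes `Q n` (variable `x`) and `Q m` (variable `y`). A site is a pair `(i, j)`, its time is
`τ i j`. `T x y` is an arbitrary natural number; the site `(i, j)` is switched on at `(x, y)` if
`τ i j ≤ T x y`.
-/

set_option autoImplicit false

namespace Pool.Agent.H79.RV

open Finset Classical
open Pool.Agent.H79.RT Pool.Agent.H79.RU

/-- indicator -/
noncomputable def ind (p : Prop) : ℝ := if p then 1 else 0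

/-- the sign of the coordinate with index `i` -/
noncomputable def sg {n : ℕ} (i : ℕ) (x : Q n) : ℝ :=
  if h : i < n then (if x ⟨i, h⟩ = true then 1 else -1) else 0

/-- the coordinates `< i` of `x`, the others of `u` -/
def mix {n : ℕ} (i : ℕ) (x u : Q n) : Q n := fun l => if (l : ℕ) < i then x l else u l

/-- conditional expectation given the coordinates `< i` of `x` and `< j` of `y` -/
noncomputable def c2 {n m : ℕ} (i j : ℕ) (F : Q n → Q m → ℝ) (x : Q n) (y : Q m) : ℝ :=
  av2 fun u v => F (mix i x u) (mix j y v)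

/-- depends only on the coordinates `< i` of `x` and `< j` of `y` -/
def Pr {n m : ℕ} {α : Type*} (i j : ℕ) (b : Q n → Q m → α) : Prop :=
  (∀ y, Inv i fun x => b x y) ∧ ∀ x, Inv j (b x)

/-- number of points with the same value of `K` -/
noncomputable def nn {Ω α : Type*} [Fintype Ω] (K : Ω → α) (x : Ω) : ℝ :=
  ∑ x', ind (K x' = K x)

/-- conditional expectation (uniform measure) given the value of `K` -/
noncomputable def ce {Ω α : Type*} [Fintype Ω] (K : Ω → α) (f : Ω → ℝ) (x : Ω) : ℝ :=
  (∑ x', ind (K x' = K x) * f x') / nn K x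

/-- a refining sequence of maps: `K (i + 1)` determines `K i` and the coordinate `i` -/
def Ref {n : ℕ} {α : Type} (K : ℕ → Q n → α) : Prop :=
  ∀ i < n, ∀ x x', K (i + 1) x = K (i + 1) x' → K i x = K i x' ∧ sg i x = sg i x'

/-- given `K i` and the coordinate `i` there are at most `1 + r i` values of `K (i + 1)` -/
def Brn {n : ℕ} {α : Type} (K : ℕ → Q n → α) (r : ℕ → Q n → ℕ) : Prop :=
  (∀ x x', K 0 x = K 0 x') ∧ ∀ i < n, ∀ x,
    ((univ.filter fun x' => K i x' = K i x ∧ sg i x' = sg i x).image (K (i + 1))).card ≤ 1 + r i x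

/-- the times of the sites: positive, strictly increasing in both variables, distinct -/
structure Clk (τ : ℕ → ℕ → ℕ) : Prop where
  pos : ∀ i j, 0 < τ i j
  mi : ∀ i i' j, i < i' → τ i j < τ i' j
  mj : ∀ i j j', j < j' → τ i j < τ i j'
  inj : ∀ i j i' j', τ i j = τ i' j' → i = i' ∧ j = j'

section defs

variable {n m : ℕ}

/-- the largest time `≤ T` of a marked site with `i < a`, `j < b`, and `0` if there is none -/
noncomputable def tp (τ : ℕ → ℕ → ℕ) (μ : ℕ → ℕ → Q n → Q m → Prop) (T : Q n → Q m → ℕ)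
    (a b : ℕ) (x : Q n) (y : Q m) : ℕ :=
  ((range a ×ˢ range b).filter fun p => μ p.1 p.2 x y ∧ τ p.1 p.2 ≤ T x y).sup fun p => τ p.1 p.2

/-- the Haar average of `1 {τ i j ≤ T}` -/
noncomputable def dd (τ : ℕ → ℕ → ℕ) (T : Q n → Q m → ℕ) (i j : ℕ) (x : Q n) (y : Q m) : ℝ :=
  c2 i j (fun x y => sg i x * sg j y * ind (τ i j ≤ T x y)) x y

/-- sum over all sites of the pairing of predictable coefficients `b` with a region `Z` -/
noncomputable def pair (b : ℕ → ℕ → Q n → Q m → ℝ) (Z : ℕ → ℕ → Q n → Q m → Prop) : ℝ :=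
  ∑ i ∈ range n, ∑ j ∈ range m, av2 fun x y => sg i x * sg j y * b i j x y * ind (Z i j x y)

/-- the energy of the coefficients -/
noncomputable def nrg (b : ℕ → ℕ → Q n → Q m → ℝ) : ℝ :=
  ∑ i ∈ range n, ∑ j ∈ range m, av2 fun x y => b i j x y ^ 2

/-- the expected number of sites at which `μ` holds -/
noncomputable def cnt (μ : ℕ → ℕ → Q n → Q m → Prop) : ℝ :=
  ∑ i ∈ range n, ∑ j ∈ range m, av2 fun x y => ind (μ i j x y)

/-- the measure of the set `0 < T` -/
noncomputable def sup0 (T : Q n → Q m → ℕ) : ℝ := av2 fun x y => ind (0 < T x y)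

end defs

/-- the times used for the hyperbolic sums -/
def tri (i j : ℕ) : ℕ := (i + j) * (i + j + 1) / 2 + i + 1

end Pool.Agent.H79.RV
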