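import Pool.Agent.H24.RVL
import Pool.Agent.H79.RT.Bdg

/-!
# MP_a7284e_an, project RV: V4, sites to the right of the top marked site
-/

set_option autoImplicit false

namespace Pool.Agent.H79.RV

open Finset Classical
open Pool.Agent.H79.RT Pool.Agent.H79.RU Pool.Agent.H24.RVL

variable {n m : ℕ}

theorem left_sg_fl (j : ℕ) (y : Q m) : sg j (fl j y) = -sg j y := by
  unfold sg
  by_cases hj : j < m
  · rw [dif_pos hj, dif_pos hj]
    unfold fl
    simp only [if_true]
    cases y ⟨j, hj⟩ <;> simp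
  · rw [dif_neg hj, dif_neg hj, neg_zero]

theorem left_sg_fl_ne {j l : ℕ} (h : j < l) (y : Q m) : sg j (fl l y) = sg j y := by
  unfold sg
  by_cases hj : j < m
  · rw [dif_pos hj, dif_pos hj]
    unfold fl
    simp only [show j ≠ l by omega, if_false]
  · rw [dif_neg hj, dif_neg hj]

theorem left_sg_sq (j : ℕ) (y : Q m) : sg j y ^ 2 ≤ 1 := by
  unfold sg
  split_ifs <;> norm_num

theorem left_seg (t : ℕ → ℕ) (ht : ∀ j j', j < j' → t j < t j') (e : ℕ) (d : ℕ → ℝ) (N : ℕ) :
    ∃ J, ∑ j ∈ range N, d j * ind (t j < e) = ∑ j ∈ range J, d j := by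
  induction N with
  | zero => exact ⟨0, by simp⟩
  | succ N ih =>
    by_cases h : t N < e
    · refine ⟨N + 1, sum_congr rfl fun j hj => ?_⟩
      have hj' : t j < e := by
        rcases Nat.lt_succ_iff_lt_or_eq.1 (mem_range.1 hj) with h1 | h1
        · exact (ht j N h1).trans h
        · rw [h1]
          exact h
      unfold ind
      rw [if_pos hj', mul_one]
    · obtain ⟨J, hJ⟩ := ih
      refine ⟨J, ?_⟩
      rw [sum_range_succ, hJ]
      unfold ind
      rw [if_neg h, mul_zero, add_zero]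

/-- the maximal inequality in `y` -/
theorem left_y : ∃ C : ℝ, 0 ≤ C ∧ ∀ (m : ℕ) (c : ℕ → Q m → ℝ) (e : Q m → ℕ) (t : ℕ → ℕ),
    (∀ j, Inv j (c j)) → (∀ j j', j < j' → t j < t j') →
    av (fun y => (∑ j ∈ range m, sg j y * c j y * ind (t j < e y)) ^ 2) ≤
      C * av fun y => ∑ j ∈ range m, c j y ^ 2 := by
  obtain ⟨C, hC, h⟩ := bdg 1 le_rfl
  refine ⟨C, hC, fun m c e t hc ht => ?_⟩
  obtain ⟨M, hM0, hM1, hM2⟩ := h m (fun j y => sg j y * c j y)
    (fun j y => by
      show sg j (fl j y) * c j (fl j y) = -(sg j y * c j y)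
      rw [left_sg_fl, hc j j le_rfl y]
      ring)
    (fun j l hl y => by
      show sg j (fl l y) * c j (fl l y) = sg j y * c j y
      rw [left_sg_fl_ne (by omega), hc j l (by omega) y])
  have h1 : av (fun y => (∑ j ∈ range m, sg j y * c j y * ind (t j < e y)) ^ 2) ≤
      av fun y => M y ^ (2 * 1) := by
    refine av_mono fun y => ?_
    obtain ⟨J, hJ⟩ := left_seg t ht (e y) (fun j => sg j y * c j y) m
    rw [hJ, mul_one, ← sq_abs]
    exact pow_le_pow_left₀ (abs_nonneg _) (hM1 y J) 2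
  refine h1.trans (hM2.trans (mul_le_mul_of_nonneg_left (av_mono fun y => ?_) hC))
  rw [pow_one]
  refine sum_le_sum fun j _ => ?_
  rw [mul_pow]
  calc sg j y ^ 2 * c j y ^ 2 ≤ 1 * c j y ^ 2 :=
        mul_le_mul_of_nonneg_right (left_sg_sq j y) (sq_nonneg _)
    _ = c j y ^ 2 := one_mul _

/-- Cauchy-Schwarz for averages -/
theorem left_cs (X A B : Q m → ℝ) (hA : ∀ y, 0 ≤ A y) (hB : ∀ y, 0 ≤ B y)
    (h : ∀ y, X y ^ 2 ≤ A y * B y) : av X ^ 2 ≤ av A * av B := by
  unfold av
  rw [div_pow, div_mul_div_comm, sq (2 ^ m : ℝ)]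
  refine div_le_div_of_nonneg_right ?_ (by positivity)
  calc (∑ y, X y) ^ 2 ≤ (∑ y, √(A y) * √(B y)) ^ 2 := by
        rw [← sq_abs]
        refine pow_le_pow_left₀ (abs_nonneg _) ((abs_sum_le_sum_abs _ _).trans
          (sum_le_sum fun y _ => ?_)) 2
        rw [← Real.sqrt_mul (hA y), ← Real.sqrt_sq_eq_abs]
        exact Real.sqrt_le_sqrt (h y)
    _ ≤ (∑ y, √(A y) ^ 2) * ∑ y, √(B y) ^ 2 := sum_mul_sq_le_sq_mul_sq _ _ _
    _ = (∑ y, A y) * ∑ y, B y := by
        congr 1
        · exact sum_congr rfl fun y _ => Real.sq_sqrt (hA y)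
        · exact sum_congr rfl fun y _ => Real.sq_sqrt (hB y)

/-- V4 -/
theorem left (h3 : SDu) : SLeft := by
  obtain ⟨C, hC, hy⟩ := left_y
  refine ⟨8 * C, by positivity, fun n m τ μ T b hτ hμ hb => ?_⟩
  rw [pair_eq]
  have hA : ∀ y : Q m, 0 ≤ 2 * av (fun x => ind (0 < T x y)) +
      8 * ∑ i ∈ range n, av fun x : Q n => ∑ j ∈ range m, ind (μ i j x y) := by
    intro y
    have h1 : 0 ≤ av (fun x => ind (0 < T x y)) := av_nonneg fun x => ind_nonneg _
    have h2 : 0 ≤ ∑ i ∈ range n, av fun x : Q n => ∑ j ∈ range m, ind (μ i j x y) :=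
      sum_nonneg fun i _ => av_nonneg fun x => sum_nonneg fun j _ => ind_nonneg _
    linarith
  have hB : ∀ y : Q m, 0 ≤ ∑ i ∈ range n, av fun x : Q n => ww τ μ T b y i x ^ 2 :=
    fun y => sum_nonneg fun i _ => av_nonneg fun x => sq_nonneg _
  have h0 := left_cs (fun y => ∑ i ∈ range n, av fun x =>
    sg i x * ind (cc τ μ T y i x) * ww τ μ T b y i x) _ _ hA hB
    (fun y => pt h3 τ μ T b hμ hb y)
  have hs : 0 ≤ sup0 T := av2_nonneg fun x y => ind_nonneg _
  have hAv : av (fun y : Q m => 2 * av (fun x => ind (0 < T x y)) +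
      8 * ∑ i ∈ range n, av fun x : Q n => ∑ j ∈ range m, ind (μ i j x y)) =
      2 * sup0 T + 8 * cnt μ := by
    rw [av_add, av_mul_left, av_mul_left, av_sum]
    unfold sup0 cnt
    congr 1
    · rw [av2_swap]
      rfl
    · congr 1
      refine sum_congr rfl fun i _ => ?_
      rw [← av2_sum, av2_swap]
      rfl
  have hBv : av (fun y : Q m => ∑ i ∈ range n, av fun x : Q n => ww τ μ T b y i x ^ 2) ≤
      C * nrg b := by
    rw [av_sum]
    unfold nrg
    rw [mul_sum]
    refine sum_le_sum fun i _ => ?_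
    rw [← av2_sum]
    have e1 : (av fun y : Q m => av fun x : Q n => ww τ μ T b y i x ^ 2) =
        av fun x : Q n => av fun y : Q m => ww τ μ T b y i x ^ 2 :=
      av2_swap fun (y : Q m) (x : Q n) => ww τ μ T b y i x ^ 2
    rw [e1]
    unfold av2
    rw [← av_mul_left]
    refine av_mono fun x => ?_
    exact hy m (fun j y => b i j x y) (fun y => tp τ μ T i m x y) (τ i)
      (fun j => (hb i j).2 x) (fun j j' hj => hτ.mj i j j' hj)
  have hN : 0 ≤ nrg b := sum_nonneg fun i _ => sum_nonneg fun j _ =>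
    av2_nonneg fun x y => sq_nonneg _
  calc _ ≤ (2 * sup0 T + 8 * cnt μ) * av (fun y : Q m => ∑ i ∈ range n,
        av fun x : Q n => ww τ μ T b y i x ^ 2) := by
        rw [← hAv]
        exact h0
    _ ≤ (8 * (sup0 T + cnt μ)) * (C * nrg b) := by
        have hc : 0 ≤ cnt μ := sum_nonneg fun i _ => sum_nonneg fun j _ =>
          av2_nonneg fun x y => ind_nonneg _
        refine mul_le_mul (by linarith) hBv (av_nonneg hB) (by linarith)
    _ = 8 * C * (sup0 T + cnt μ) * nrg b := by ring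

end Pool.Agent.H79.RV
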