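import Pool.Agent.H79.RV.Stm

/-!
# MP_a7284e_an, project RV, row V7: random marks
-/

set_option autoImplicit false

namespace Pool.Agent.H79.RV

open Finset Classical
open Pool.Agent.H79.RT Pool.Agent.H79.RU

theorem mk_ic {p q : Prop} (h : p ↔ q) : ind p = ind q := congrArg ind (propext h)

section mk

variable {ι : Type} [Fintype ι] {M : ℕ}

/-- swap the values `z` and `a` at the coordinate `k` -/
noncomputable def mkE (k : ι) (z a : Fin M) : (ι → Fin M) ≃ (ι → Fin M) :=
  Equiv.piCongrRight fun i => if i = k then Equiv.swap z a else Equiv.refl (Fin M)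

omit [Fintype ι] in
theorem mkE_same (k : ι) (z a : Fin M) (g : ι → Fin M) :
    mkE k z a g k = Equiv.swap z a (g k) := by
  simp [mkE]

omit [Fintype ι] in
theorem mkE_other (k : ι) (z a : Fin M) (g : ι → Fin M) (i : ι) (h : i ≠ k) :
    mkE k z a g i = g i := by
  simp [mkE, h]

/-- independence of the coordinate `k` -/
theorem mk_indep (hM : 1 ≤ M) (k : ι) (P : (ι → Fin M) → Prop)
    (hP : ∀ g g' : ι → Fin M, (∀ i, i ≠ k → g i = g' i) → (P g ↔ P g')) :
    (M : ℝ) * ∑ g : ι → Fin M, ind (P g ∧ (g k : ℕ) = 0) = ∑ g : ι → Fin M, ind (P g) := by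
  set z : Fin M := ⟨0, hM⟩ with hz
  have h1 : ∀ a : Fin M, ∑ g : ι → Fin M, ind (P g ∧ g k = a) =
      ∑ g : ι → Fin M, ind (P g ∧ (g k : ℕ) = 0) := by
    intro a
    rw [← Equiv.sum_comp (mkE k z a)]
    refine Finset.sum_congr rfl fun g _ => ?_
    have e1 : P (mkE k z a g) ↔ P g := hP _ _ fun i hi => mkE_other k z a g i hi
    have e2 : mkE k z a g k = a ↔ (g k : ℕ) = 0 := by
      rw [mkE_same, Equiv.swap_apply_eq_iff, Equiv.swap_apply_right, Fin.ext_iff]
    unfold ind
    rw [e1, e2]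
  have h2 : ∑ g : ι → Fin M, ind (P g) = ∑ a : Fin M, ∑ g : ι → Fin M, ind (P g ∧ g k = a) := by
    rw [Finset.sum_comm]
    refine Finset.sum_congr rfl fun g _ => ?_
    unfold ind
    by_cases h : P g
    · simp [h]
    · simp [h]
  rw [h2, Finset.sum_congr rfl fun a _ => h1 a]
  simp

theorem mk_card (hM : 1 ≤ M) (k : ι) :
    (M : ℝ) * ∑ g : ι → Fin M, ind ((g k : ℕ) = 0) = (M : ℝ) ^ Fintype.card ι := by
  have h := mk_indep hM k (fun _ => True) (fun _ _ _ => Iff.rfl)
  simp only [true_and] at h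
  rw [h]
  simp [ind]

theorem mk_main (hM : 1 ≤ M) {σ : Type} (key : σ → ι) (τ : σ → ℕ) :
    ∀ (N : ℕ) (S : Finset σ), S.card = N → Set.InjOn key S → Set.InjOn τ S →
    ∑ g : ι → Fin M, ∑ s ∈ S, ind (∀ s' ∈ S, τ s < τ s' → (g (key s') : ℕ) ≠ 0) +
      M * ∑ g : ι → Fin M, ind (∀ s ∈ S, (g (key s) : ℕ) ≠ 0) =
      M * (M : ℝ) ^ Fintype.card ι := by
  intro N
  induction N with
  | zero =>
    intro S hS _ _
    have : S = ∅ := Finset.card_eq_zero.mp hS
    subst this
    simp [ind]
  | succ N ih =>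
    intro S hS hk ht
    have hne : S.Nonempty := Finset.card_pos.mp (by omega)
    obtain ⟨s0, hs0, hmin⟩ := Finset.exists_min_image S τ hne
    set S' := S.erase s0 with hS'
    have hins : insert s0 S' = S := Finset.insert_erase hs0
    have hsub : ∀ s ∈ S', s ∈ S := fun s hs => Finset.mem_of_mem_erase hs
    have hnm : s0 ∉ S' := Finset.notMem_erase s0 S
    have hlt : ∀ s ∈ S', τ s0 < τ s := by
      intro s hs
      have h1 := hmin s (hsub s hs)
      refine lt_of_le_of_ne h1 fun he => ?_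
      have := ht hs0 (hsub s hs) he
      exact Finset.ne_of_mem_erase hs this.symm
    have hkne : ∀ s ∈ S', key s ≠ key s0 := by
      intro s hs he
      exact Finset.ne_of_mem_erase hs (hk (hsub s hs) hs0 he)
    have hcard : S'.card = N := by
      rw [hS', Finset.card_erase_of_mem hs0]; omega
    have hih := ih S' hcard (hk.mono fun s hs => hsub s hs) (ht.mono fun s hs => hsub s hs)
    -- the inner sum
    have hin : ∀ g : ι → Fin M,
        ∑ s ∈ S, ind (∀ s' ∈ S, τ s < τ s' → (g (key s') : ℕ) ≠ 0) =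
          ind (∀ s ∈ S', (g (key s) : ℕ) ≠ 0) +
            ∑ s ∈ S', ind (∀ s' ∈ S', τ s < τ s' → (g (key s') : ℕ) ≠ 0) := by
      intro g
      rw [← hins, Finset.sum_insert hnm]
      congr 1
      · refine mk_ic ?_
        constructor
        · intro h s hs
          exact h s (Finset.mem_insert_of_mem hs) (hlt s hs)
        · intro h s hs hl
          rcases Finset.mem_insert.mp hs with rfl | hs
          · exact absurd hl (lt_irrefl _)
          · exact h s hs
      · refine Finset.sum_congr rfl fun s hs => ?_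
        refine mk_ic ?_
        constructor
        · intro h s' hs' hl
          exact h s' (Finset.mem_insert_of_mem hs') hl
        · intro h s' hs' hl
          rcases Finset.mem_insert.mp hs' with rfl | hs'
          · exact absurd hl (not_lt.mpr (le_of_lt (hlt s hs)))
          · exact h s' hs' hl
    have hA : ∑ g : ι → Fin M, ind (∀ s ∈ S', (g (key s) : ℕ) ≠ 0) =
        ∑ g : ι → Fin M, ind (∀ s ∈ S, (g (key s) : ℕ) ≠ 0) +
          ∑ g : ι → Fin M, ind ((∀ s ∈ S', (g (key s) : ℕ) ≠ 0) ∧ (g (key s0) : ℕ) = 0) := by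
      rw [← Finset.sum_add_distrib]
      refine Finset.sum_congr rfl fun g _ => ?_
      rw [← hins]
      unfold ind
      simp only [Finset.forall_mem_insert]
      by_cases h1 : ∀ s ∈ S', (g (key s) : ℕ) ≠ 0
      · by_cases h2 : (g (key s0) : ℕ) = 0
        · rw [if_pos h1, if_neg (fun h => h.1 h2), if_pos ⟨h1, h2⟩]; norm_num
        · rw [if_pos h1, if_pos ⟨h2, h1⟩, if_neg (fun h => h2 h.2)]; norm_num
      · rw [if_neg h1, if_neg (fun h => h1 h.2), if_neg (fun h => h1 h.1)]; norm_num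
    have hI := mk_indep hM (key s0) (fun g => ∀ s ∈ S', (g (key s) : ℕ) ≠ 0) (by
      intro g g' hg
      constructor
      · intro h s hs
        rw [← hg _ (hkne s hs)]; exact h s hs
      · intro h s hs
        rw [hg _ (hkne s hs)]; exact h s hs)
    rw [Finset.sum_congr rfl fun g _ => hin g, Finset.sum_add_distrib]
    rw [← hih]
    have hB : (M : ℝ) * ∑ g : ι → Fin M, ind (∀ s ∈ S', (g (key s) : ℕ) ≠ 0) =
        M * ∑ g : ι → Fin M, ind (∀ s ∈ S, (g (key s) : ℕ) ≠ 0) +
          ∑ g : ι → Fin M, ind (∀ s ∈ S', (g (key s) : ℕ) ≠ 0) := by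
      rw [hA, mul_add, ← hA, hI]
    linarith

end mk

theorem mark : SMark := by
  intro ι σ _ M hM
  refine ⟨fun k => mk_card hM k, fun S key τ hk ht => ?_⟩
  have h := mk_main hM key τ S.card S rfl hk ht
  have h0 : 0 ≤ (M : ℝ) * ∑ g : ι → Fin M, ind (∀ s ∈ S, (g (key s) : ℕ) ≠ 0) := by
    refine mul_nonneg (Nat.cast_nonneg _) (Finset.sum_nonneg fun g _ => ?_)
    unfold ind
    split_ifs <;> norm_num
  linarith

end Pool.Agent.H79.RV
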