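import Pool.Agent.H79.RV.Stm
import Pool.Agent.H79.RT.Basic

/-!
# MP_a7284e_an, project RV, row V8a: one family of marks among the charged sites
-/

set_option autoImplicit false

namespace Pool.Agent.H79.RV

open Finset Classical
open Pool.Agent.H79.RT Pool.Agent.H79.RU

theorem one_t {p : Prop} (h : p) : ind p = 1 := by
  unfold ind
  rw [if_pos h]

theorem one_f {p : Prop} (h : ¬p) : ind p = 0 := by
  unfold ind
  rw [if_neg h]

theorem one_nn (p : Prop) : 0 ≤ ind p := by
  by_cases h : p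
  · rw [one_t h]; norm_num
  · rw [one_f h]

theorem one_sg {n : ℕ} (i : ℕ) (x : Q n) : |sg i x| ≤ 1 := by
  unfold sg
  split_ifs <;> simp

theorem one_pr {n m : ℕ} {i j : ℕ} {β : Type*} {F G : Q n → Q m → ℝ} (hF : Pr i j F)
    (hG : Pr i j G) (φ : ℝ → ℝ → β) : Pr i j fun x y => φ (F x y) (G x y) := by
  refine ⟨fun y l hl x => ?_, fun x l hl y => ?_⟩
  · have h1 : F (fl l x) y = F x y := hF.1 y l hl x
    have h2 : G (fl l x) y = G x y := hG.1 y l hl x
    show φ (F (fl l x) y) (G (fl l x) y) = φ (F x y) (G x y)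
    rw [h1, h2]
  · have h1 : F x (fl l y) = F x y := hF.2 x l hl y
    have h2 : G x (fl l y) = G x y := hG.2 x l hl y
    show φ (F x (fl l y)) (G x (fl l y)) = φ (F x y) (G x y)
    rw [h1, h2]

theorem one_tp {n m : ℕ} (τ : ℕ → ℕ → ℕ) (μ : ℕ → ℕ → Q n → Q m → Prop) (T : Q n → Q m → ℕ)
    (a b : ℕ) (x : Q n) (y : Q m) : tp τ μ T a b x y ≤ T x y := by
  unfold tp
  refine Finset.sup_le fun p hp => ?_
  exact (mem_filter.1 hp).2.2

theorem one_cnt_nn {n m : ℕ} (μ : ℕ → ℕ → Q n → Q m → Prop) : 0 ≤ cnt μ := by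
  unfold cnt
  exact sum_nonneg fun i _ => sum_nonneg fun j _ => av2_nonneg fun x y => one_nn _

theorem one_sup_nn {n m : ℕ} (T : Q n → Q m → ℕ) : 0 ≤ sup0 T := by
  unfold sup0
  exact av2_nonneg fun x y => one_nn _

/-- the count of a union -/
theorem one_or {n m : ℕ} {μ ν ρ : ℕ → ℕ → Q n → Q m → Prop}
    (h : ∀ i j x y, μ i j x y → ν i j x y ∨ ρ i j x y) : cnt μ ≤ cnt ν + cnt ρ := by
  unfold cnt
  rw [← sum_add_distrib]
  refine sum_le_sum fun i _ => ?_
  rw [← sum_add_distrib]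
  refine sum_le_sum fun j _ => ?_
  rw [← av2_add]
  refine av2_mono fun x y => ?_
  by_cases hm : μ i j x y
  · rcases h i j x y hm with h1 | h1
    · rw [one_t hm, one_t h1]
      have := one_nn (ρ i j x y)
      linarith
    · rw [one_t hm, one_t h1]
      have := one_nn (ν i j x y)
      linarith
  · rw [one_f hm]
    exact add_nonneg (one_nn _) (one_nn _)

/-- comparison of a count with a sum of averages -/
theorem one_cnt_le {n m : ℕ} {μ : ℕ → ℕ → Q n → Q m → Prop} {c : ℝ} {f : ℕ → ℕ → Q n → Q m → ℝ}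
    (h : ∀ i j x y, c * ind (μ i j x y) ≤ f i j x y) :
    c * cnt μ ≤ ∑ i ∈ range n, ∑ j ∈ range m, av2 (f i j) := by
  unfold cnt
  rw [mul_sum]
  refine sum_le_sum fun i _ => ?_
  rw [mul_sum]
  refine sum_le_sum fun j _ => ?_
  rw [← av2_mul_left]
  exact av2_mono fun x y => h i j x y

/-- V8a -/
theorem one (h0 : SC2) (h6 : STop) : SOne := by
  obtain ⟨C, hC, h6⟩ := h6
  refine ⟨4 * C, by positivity, ?_⟩
  intro n m τ T μ κ hτ hμ hκ _
  set tq : Q n → Q m → ℕ := fun x y => tp τ μ T n m x y with htq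
  have htp : ∀ x y, tq x y ≤ T x y := fun x y => one_tp τ μ T n m x y
  set F : ℕ → ℕ → Q n → Q m → ℝ := fun i j x y => sg i x * sg j y * ind (τ i j < tq x y) with hF
  set G : ℕ → ℕ → Q n → Q m → ℝ :=
    fun i j x y => sg i x * sg j y * ind (τ i j ≤ T x y ∧ tq x y ≤ τ i j) with hG
  set E : ℕ → ℕ → Q n → Q m → ℝ := fun i j x y => ind (τ i j ≤ T x y ∧ tq x y ≤ τ i j) with hE
  set d : ℕ → ℕ → Q n → Q m → ℝ := fun i j => c2 i j (F i j) with hd
  set w : ℕ → ℕ → Q n → Q m → ℝ := fun i j => c2 i j (E i j) with hw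
  set e : ℕ → ℕ → Q n → Q m → ℝ := fun i j => dd τ T i j with he
  have pd : ∀ i j, Pr i j (d i j) := fun i j => (h0 n m i j).1 (F i j)
  have pe : ∀ i j, Pr i j (e i j) := fun i j => (h0 n m i j).1 _
  have key : ∀ i j x y, |e i j x y| ≤ |d i j x y| + w i j x y := by
    intro i j x y
    have h1 : e i j x y = d i j x y + c2 i j (G i j) x y := by
      rw [hd]
      show dd τ T i j x y = c2 i j (F i j) x y + c2 i j (G i j) x y
      rw [← (h0 n m i j).2.2.2.1 (F i j) (G i j) x y]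
      unfold dd
      congr 1
      funext x y
      rw [hF, hG]
      show _ = sg i x * sg j y * ind (τ i j < tq x y) +
        sg i x * sg j y * ind (τ i j ≤ T x y ∧ tq x y ≤ τ i j)
      have h2 := htp x y
      by_cases h3 : τ i j < tq x y
      · rw [one_t h3, one_t (show τ i j ≤ T x y by omega),
          one_f (show ¬(τ i j ≤ T x y ∧ tq x y ≤ τ i j) by omega)]
        ring
      · by_cases h4 : τ i j ≤ T x y
        · rw [one_f h3, one_t h4, one_t (show τ i j ≤ T x y ∧ tq x y ≤ τ i j from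
            ⟨h4, not_lt.1 h3⟩)]
          ring
        · rw [one_f h3, one_f h4, one_f (show ¬(τ i j ≤ T x y ∧ tq x y ≤ τ i j) from
            fun h => h4 h.1)]
          ring
    have h2 : |c2 i j (G i j) x y| ≤ w i j x y := by
      refine ((h0 n m i j).2.2.2.2 (G i j) x y).trans ?_
      refine (h0 n m i j).2.2.1 _ _ (fun x y => ?_) x y
      rw [hG, hE]
      show |sg i x * sg j y * ind (τ i j ≤ T x y ∧ tq x y ≤ τ i j)| ≤
        ind (τ i j ≤ T x y ∧ tq x y ≤ τ i j)
      rw [abs_mul, abs_mul, abs_of_nonneg (one_nn _)]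
      have h3 : |sg i x| * |sg j y| ≤ 1 :=
        mul_le_one₀ (one_sg i x) (abs_nonneg _) (one_sg j y)
      exact mul_le_of_le_one_left (one_nn _) h3
    rw [h1]
    exact (abs_add_le _ _).trans (add_le_add le_rfl h2)
  -- the two parts
  set S₁ : ℕ → ℕ → Q n → Q m → Prop :=
    fun i j x y => κ ≤ |e i j x y| ∧ κ / 2 ≤ |d i j x y| with hS₁
  set S₂ : ℕ → ℕ → Q n → Q m → Prop :=
    fun i j x y => κ ≤ |e i j x y| ∧ κ / 2 ≤ w i j x y with hS₂
  have hu : cnt (fun i j x y => κ ≤ |e i j x y|) ≤ cnt S₁ + cnt S₂ := by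
    refine one_or fun i j x y h => ?_
    by_cases h1 : κ / 2 ≤ |d i j x y|
    · exact Or.inl ⟨h, h1⟩
    · refine Or.inr ⟨h, ?_⟩
      have h2 := key i j x y
      linarith [not_le.1 h1]
  -- the first part
  set b : ℕ → ℕ → Q n → Q m → ℝ :=
    fun i j x y => (if 0 ≤ d i j x y then 1 else -1) * ind (S₁ i j x y) with hb
  have pb : ∀ i j, Pr i j (b i j) := fun i j =>
    one_pr (pe i j) (pd i j) fun s t => (if 0 ≤ t then (1 : ℝ) else -1) * ind (κ ≤ |s| ∧ κ / 2 ≤ |t|)
  have h7 := h6 n m τ μ T b hτ hμ pb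
  have hn : nrg b = cnt S₁ := by
    unfold nrg cnt
    refine sum_congr rfl fun i _ => sum_congr rfl fun j _ => ?_
    congr 1
    funext x y
    rw [hb]
    show ((if 0 ≤ d i j x y then (1 : ℝ) else -1) * ind (S₁ i j x y)) ^ 2 = ind (S₁ i j x y)
    by_cases h1 : S₁ i j x y
    · rw [one_t h1]
      split_ifs <;> norm_num
    · rw [one_f h1]
      simp
  have hp : κ / 2 * cnt S₁ ≤ pair b (fun i j x y => τ i j < tp τ μ T n m x y) := by
    have h8 : pair b (fun i j x y => τ i j < tp τ μ T n m x y) =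
        ∑ i ∈ range n, ∑ j ∈ range m, av2 fun x y => d i j x y * b i j x y := by
      unfold pair
      refine sum_congr rfl fun i _ => sum_congr rfl fun j _ => ?_
      rw [(h0 n m i j).2.1 (F i j) (b i j) (pb i j)]
      congr 1
      funext x y
      rw [hF]
      show sg i x * sg j y * b i j x y * ind (τ i j < tq x y) =
        sg i x * sg j y * ind (τ i j < tq x y) * b i j x y
      ring
    rw [h8]
    refine one_cnt_le fun i j x y => ?_
    rw [hb]
    show κ / 2 * ind (S₁ i j x y) ≤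
      d i j x y * ((if 0 ≤ d i j x y then (1 : ℝ) else -1) * ind (S₁ i j x y))
    by_cases h1 : S₁ i j x y
    · rw [one_t h1]
      have h2 := h1.2
      by_cases h3 : 0 ≤ d i j x y
      · rw [if_pos h3]
        rw [abs_of_nonneg h3] at h2
        linarith
      · rw [if_neg h3]
        rw [abs_of_neg (not_le.1 h3)] at h2
        linarith
    · rw [one_f h1]
      simp
  have hA : 0 ≤ sup0 T + cnt μ := add_nonneg (one_sup_nn T) (one_cnt_nn μ)
  have hc1 : 0 ≤ cnt S₁ := one_cnt_nn S₁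
  have h9 : cnt S₁ ≤ 4 * C / κ ^ 2 * (sup0 T + cnt μ) := by
    rw [hn] at h7
    rcases hc1.eq_or_lt with h1 | h1
    · rw [← h1]
      positivity
    · have h2 : (κ / 2 * cnt S₁) ^ 2 ≤ C * (sup0 T + cnt μ) * cnt S₁ :=
        (pow_le_pow_left₀ (by positivity) hp 2).trans h7
      have h3 : κ ^ 2 * cnt S₁ ≤ 4 * (C * (sup0 T + cnt μ)) := by
        have h4 : κ ^ 2 * cnt S₁ * cnt S₁ ≤ 4 * (C * (sup0 T + cnt μ)) * cnt S₁ := by
          nlinarith [h2]
        exact le_of_mul_le_mul_right h4 h1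
      have h5 : 4 * C / κ ^ 2 * (sup0 T + cnt μ) = 4 * (C * (sup0 T + cnt μ)) / κ ^ 2 := by ring
      rw [h5, le_div_iff₀ (by positivity)]
      linarith
  -- the second part
  have h10 : cnt S₂ ≤ 2 / κ * cnt (fun i j x y => κ ≤ |e i j x y| ∧ τ i j ≤ T x y ∧
      tp τ μ T n m x y ≤ τ i j) := by
    have h11 : κ / 2 * cnt S₂ ≤
        ∑ i ∈ range n, ∑ j ∈ range m, av2 fun x y => w i j x y * ind (κ ≤ |e i j x y|) := by
      refine one_cnt_le fun i j x y => ?_
      by_cases h1 : S₂ i j x y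
      · rw [one_t h1, one_t h1.1]
        have := h1.2
        linarith
      · rw [one_f h1]
        have h2 : 0 ≤ w i j x y := by
          have h3 : c2 i j (fun _ _ => (0 : ℝ)) x y ≤ w i j x y :=
            (h0 n m i j).2.2.1 _ _ (fun x y => one_nn _) x y
          have h4 : c2 i j (fun (_ : Q n) (_ : Q m) => (0 : ℝ)) x y = 0 := by
            unfold c2
            exact av2_const 0
          linarith
        have := mul_nonneg h2 (one_nn (κ ≤ |e i j x y|))
        linarith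
    have h12 : ∑ i ∈ range n, ∑ j ∈ range m, av2 (fun x y => w i j x y * ind (κ ≤ |e i j x y|)) =
        cnt (fun i j x y => κ ≤ |e i j x y| ∧ τ i j ≤ T x y ∧ tp τ μ T n m x y ≤ τ i j) := by
      unfold cnt
      refine sum_congr rfl fun i _ => sum_congr rfl fun j _ => ?_
      have h13 : Pr i j fun x y => ind (κ ≤ |e i j x y|) :=
        one_pr (pe i j) (pe i j) fun s _ => ind (κ ≤ |s|)
      rw [(h0 n m i j).2.1 (E i j) _ h13]
      congr 1
      funext x y
      rw [hE]
      show ind (τ i j ≤ T x y ∧ tq x y ≤ τ i j) * ind (κ ≤ |e i j x y|) =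
        ind (κ ≤ |e i j x y| ∧ τ i j ≤ T x y ∧ tq x y ≤ τ i j)
      by_cases h1 : κ ≤ |e i j x y|
      · by_cases h2 : τ i j ≤ T x y ∧ tq x y ≤ τ i j
        · rw [one_t h1, one_t h2, one_t ⟨h1, h2⟩]; ring
        · rw [one_f h2, one_f (show ¬(κ ≤ |e i j x y| ∧ τ i j ≤ T x y ∧ tq x y ≤ τ i j) from
            fun h => h2 h.2)]
          ring
      · rw [one_f h1, one_f (show ¬(κ ≤ |e i j x y| ∧ τ i j ≤ T x y ∧ tq x y ≤ τ i j) from
          fun h => h1 h.1)]
        ring
    rw [h12] at h11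
    rw [div_mul_eq_mul_div, le_div_iff₀ hκ]
    linarith
  exact hu.trans (add_le_add h9 h10)

end Pool.Agent.H79.RV
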