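import Pool.Agent.H79.RV.Stm
import Pool.Agent.H79.RT.Basic

/-!
# MP_a7284e_an, project RV: row V2, the potential
-/

set_option autoImplicit false

namespace Pool.Agent.H79.RV

open Finset Classical
open Pool.Agent.H79.RT Pool.Agent.H79.RU

section pot

variable {Ω α β : Type*} [Fintype Ω]

theorem pot_ind_nonneg (p : Prop) : 0 ≤ ind p := by
  unfold ind; split_ifs <;> norm_num

theorem pot_ind_le (p : Prop) : ind p ≤ 1 := by
  unfold ind; split_ifs <;> norm_num

theorem pot_ind_sq (p : Prop) : ind p ^ 2 = ind p := by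
  unfold ind; split_ifs <;> norm_num

theorem pot_ind_true {p : Prop} (h : p) : ind p = 1 := if_pos h

theorem pot_ind_mono {p q : Prop} (h : p → q) : ind p ≤ ind q := by
  by_cases hp : p
  · rw [pot_ind_true hp, pot_ind_true (h hp)]
  · rw [show ind p = 0 from if_neg hp]
    exact pot_ind_nonneg q

theorem pot_nn_pos (K : Ω → α) (x : Ω) : 0 < nn K x := by
  unfold nn
  have h1 : ind (K x = K x) ≤ ∑ x', ind (K x' = K x) :=
    single_le_sum (f := fun x' => ind (K x' = K x)) (fun y _ => pot_ind_nonneg _) (mem_univ x)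
  rw [pot_ind_true rfl] at h1
  linarith

theorem pot_nn_congr (K : Ω → α) {x y : Ω} (h : K x = K y) : nn K x = nn K y := by
  unfold nn
  rw [h]

theorem pot_ce_congr (K : Ω → α) (f : Ω → ℝ) {x y : Ω} (h : K x = K y) :
    ce K f x = ce K f y := by
  unfold ce
  rw [h, pot_nn_congr K h]

/-- conditional expectation is symmetric -/
theorem pot_adj (K : Ω → α) (f g : Ω → ℝ) :
    ∑ x, ce K f x * g x = ∑ x, f x * ce K g x := by
  have h1 : ∑ x, ce K f x * g x = ∑ x, ∑ x', ind (K x' = K x) * f x' * g x / nn K x := by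
    refine sum_congr rfl fun x _ => ?_
    unfold ce
    rw [div_mul_eq_mul_div, sum_mul, sum_div]
  have h2 : ∑ x, f x * ce K g x = ∑ x, ∑ x', f x * (ind (K x' = K x) * g x') / nn K x := by
    refine sum_congr rfl fun x _ => ?_
    unfold ce
    rw [mul_div_assoc', mul_sum, sum_div]
  rw [h1, h2, sum_comm]
  refine sum_congr rfl fun x _ => sum_congr rfl fun x' _ => ?_
  by_cases h : K x = K x'
  · rw [pot_ind_true h, pot_ind_true h.symm, pot_nn_congr K h]
    ring
  · rw [show ind (K x = K x') = 0 from if_neg h,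
      show ind (K x' = K x) = 0 from if_neg fun h' => h h'.symm]
    ring

/-- measurable factors can be pulled out -/
theorem pot_pull (K : Ω → α) (f g : Ω → ℝ) (hg : ∀ x x', K x = K x' → g x = g x') (x : Ω) :
    ce K (fun x => g x * f x) x = g x * ce K f x := by
  unfold ce
  rw [mul_div_assoc', mul_sum]
  congr 1
  refine sum_congr rfl fun x' _ => ?_
  change ind (K x' = K x) * (g x' * f x') = g x * (ind (K x' = K x) * f x')
  by_cases h : K x' = K x
  · rw [hg x' x h]
    ring
  · rw [show ind (K x' = K x) = 0 from if_neg h]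
    ring

theorem pot_one (K : Ω → α) (x : Ω) : ce K (fun _ => (1 : ℝ)) x = 1 := by
  unfold ce
  simp only [mul_one]
  exact div_self (pot_nn_pos K x).ne'

theorem pot_self (K : Ω → α) (g : Ω → ℝ) (hg : ∀ x x', K x = K x' → g x = g x') (x : Ω) :
    ce K g x = g x := by
  have h1 := pot_pull K (fun _ => (1 : ℝ)) g hg x
  simp only [mul_one] at h1
  rw [h1, pot_one, mul_one]

theorem pot_sum (K : Ω → α) (f : Ω → ℝ) : ∑ x, ce K f x = ∑ x, f x := by
  have h1 := pot_adj K f fun _ => (1 : ℝ)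
  simp only [mul_one, pot_one] at h1
  exact h1

theorem pot_mono (K : Ω → α) {f g : Ω → ℝ} (h : ∀ x, f x ≤ g x) (x : Ω) :
    ce K f x ≤ ce K g x := by
  unfold ce
  exact div_le_div_of_nonneg_right
    (sum_le_sum fun x' _ => mul_le_mul_of_nonneg_left (h x') (pot_ind_nonneg _))
    (pot_nn_pos K x).le

theorem pot_add (K : Ω → α) (f g : Ω → ℝ) (x : Ω) :
    ce K (fun x => f x + g x) x = ce K f x + ce K g x := by
  unfold ce
  rw [← add_div, ← sum_add_distrib]
  congr 1
  exact sum_congr rfl fun x' _ => by ring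

/-- the tower property -/
theorem pot_tower (K : Ω → α) (L : Ω → β) (h : ∀ x x', K x = K x' → L x = L x') (f : Ω → ℝ)
    (x : Ω) : ce L (ce K f) x = ce L f x := by
  unfold ce
  congr 1
  change ∑ x', ind (L x' = L x) * ce K f x' = ∑ x', ind (L x' = L x) * f x'
  have h1 := pot_adj K f fun x' => ind (L x' = L x)
  have h2 : ∀ x', ce K (fun x' => ind (L x' = L x)) x' = ind (L x' = L x) := fun x' =>
    pot_self K _ (fun a b hab => by rw [h a b hab]) x'
  calc ∑ x', ind (L x' = L x) * ce K f x' = ∑ x', ce K f x' * ind (L x' = L x) :=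
        sum_congr rfl fun _ _ => mul_comm _ _
    _ = ∑ x', f x' * ce K (fun x' => ind (L x' = L x)) x' := h1
    _ = ∑ x', ind (L x' = L x) * f x' := sum_congr rfl fun x' _ => by rw [h2, mul_comm]

/-- Jensen -/
theorem pot_jensen (K : Ω → α) (f : Ω → ℝ) (x : Ω) :
    ce K f x ^ 2 ≤ ce K (fun x => f x ^ 2) x := by
  have hp := pot_nn_pos K x
  have h1 := sum_mul_sq_le_sq_mul_sq univ (fun x' => ind (K x' = K x))
    fun x' => ind (K x' = K x) * f x'
  have h2 : ∑ x', ind (K x' = K x) * (ind (K x' = K x) * f x') =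
      ∑ x', ind (K x' = K x) * f x' :=
    sum_congr rfl fun x' _ => by rw [← mul_assoc, ← sq, pot_ind_sq]
  have h3 : ∑ x', ind (K x' = K x) ^ 2 = nn K x := by
    unfold nn
    exact sum_congr rfl fun x' _ => pot_ind_sq _
  have h4 : ∑ x', (ind (K x' = K x) * f x') ^ 2 = ∑ x', ind (K x' = K x) * f x' ^ 2 :=
    sum_congr rfl fun x' _ => by rw [mul_pow, pot_ind_sq]
  rw [h2, h3, h4] at h1
  unfold ce
  rw [div_pow, div_le_div_iff₀ (by positivity) hp]
  calc (∑ x', ind (K x' = K x) * f x') ^ 2 * nn K x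
      ≤ (nn K x * ∑ x', ind (K x' = K x) * f x' ^ 2) * nn K x :=
        mul_le_mul_of_nonneg_right h1 hp.le
    _ = (∑ x', ind (K x' = K x) * f x' ^ 2) * nn K x ^ 2 := by ring

/-- one step -/
theorem pot_step (K : Ω → α) (K₁ : Ω → β) (s u v : Ω → ℝ) (hs : ∀ x, s x ^ 2 ≤ 1)
    (h1 : ∀ x x', K₁ x = K₁ x' → K x = K x' ∧ s x = s x') (hu0 : ∀ x, 0 ≤ u x)
    (hu1 : ∀ x, u x ≤ 1) (huv : ∀ x, u x ≤ v x) :
    ∑ x, ce K (fun x => s x * u x) x ^ 2 ≤
      2 * (∑ x, ce K₁ v x ^ 2 - ∑ x, ce K u x ^ 2) + 2 * ∑ x, ce K s x ^ 2 := by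
  set K' : Ω → α × ℝ := fun x => (K x, s x) with hK'
  have hK1 : ∀ x x', K' x = K' x' → K x = K x' := fun x x' h => (Prod.mk.inj h).1
  have hK2 : ∀ x x', K' x = K' x' → s x = s x' := fun x x' h => (Prod.mk.inj h).2
  have hK3 : ∀ x x', K₁ x = K₁ x' → K' x = K' x' := fun x x' h =>
    Prod.ext (h1 x x' h).1 (h1 x x' h).2
  set U := ce K u with hU
  set U' := ce K' u with hU'
  have hUm : ∀ x x', K x = K x' → U x = U x' := fun x x' h => pot_ce_congr K u h
  have hU0 : ∀ x, 0 ≤ U x := fun x => by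
    have := pot_mono K (f := fun _ => (0 : ℝ)) hu0 x
    have h0 : ce K (fun _ => (0 : ℝ)) x = 0 := by simp [ce]
    rw [h0] at this
    exact this
  have hU1 : ∀ x, U x ≤ 1 := fun x => by
    have := pot_mono K (g := fun _ => (1 : ℝ)) hu1 x
    rw [pot_one] at this
    exact this
  have hU'0 : ∀ x, 0 ≤ U' x := fun x => by
    have := pot_mono K' (f := fun _ => (0 : ℝ)) hu0 x
    have h0 : ce K' (fun _ => (0 : ℝ)) x = 0 := by simp [ce]
    rw [h0] at this
    exact this
  -- the decomposition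
  have hg : ∀ x, ce K (fun x => s x * u x) x =
      ce K (fun x => s x * (U' x - U x)) x + U x * ce K s x := by
    intro x
    have a1 : ce K (fun x => s x * u x) x = ce K (fun x => s x * U' x) x := by
      rw [← pot_tower K' K hK1 (fun x => s x * u x) x]
      congr 1
      funext x
      exact pot_pull K' u s hK2 x
    have a2 : ce K (fun x => s x * U' x) x =
        ce K (fun x => s x * (U' x - U x)) x + ce K (fun x => U x * s x) x := by
      rw [← pot_add]
      congr 1
      funext x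
      ring
    rw [a1, a2, pot_pull K s U hUm x]
  have hg2 : ∀ x, ce K (fun x => s x * u x) x ^ 2 ≤
      2 * ce K (fun x => (U' x - U x) ^ 2) x + 2 * ce K s x ^ 2 := by
    intro x
    have b1 : ce K (fun x => s x * (U' x - U x)) x ^ 2 ≤ ce K (fun x => (U' x - U x) ^ 2) x := by
      refine (pot_jensen K _ x).trans (pot_mono K (fun x => ?_) x)
      rw [mul_pow]
      exact mul_le_of_le_one_left (sq_nonneg _) (hs x)
    have b2 : (U x * ce K s x) ^ 2 ≤ ce K s x ^ 2 := by
      rw [mul_pow]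
      refine mul_le_of_le_one_left (sq_nonneg _) ?_
      exact pow_le_one₀ (hU0 x) (hU1 x)
    rw [hg x]
    nlinarith [sq_nonneg (ce K (fun x => s x * (U' x - U x)) x - U x * ce K s x)]
  have hsum : ∑ x, ce K (fun x => s x * u x) x ^ 2 ≤
      2 * ∑ x, (U' x - U x) ^ 2 + 2 * ∑ x, ce K s x ^ 2 := by
    refine (sum_le_sum fun x _ => hg2 x).trans ?_
    rw [sum_add_distrib, ← mul_sum, ← mul_sum, pot_sum]
  -- Pythagoras
  have hUU' : ∑ x, U' x * U x = ∑ x, U x ^ 2 := by
    have c1 : ∑ x, U' x * U x = ∑ x, u x * U x := by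
      rw [hU', pot_adj K' u U]
      exact sum_congr rfl fun x _ => by
        rw [pot_self K' U (fun a b hab => hUm a b (hK1 a b hab)) x]
    have c2 : ∑ x, U x * U x = ∑ x, u x * U x := by
      have := pot_adj K u U
      rw [← hU] at this
      rw [this]
      exact sum_congr rfl fun x _ => by rw [pot_self K U hUm x]
    rw [c1, ← c2]
    exact sum_congr rfl fun x _ => by ring
  have hpy : ∑ x, (U' x - U x) ^ 2 = ∑ x, U' x ^ 2 - ∑ x, U x ^ 2 := by
    have : ∑ x, (U' x - U x) ^ 2 = ∑ x, U' x ^ 2 - 2 * ∑ x, U' x * U x + ∑ x, U x ^ 2 := by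
      rw [mul_sum, ← sum_sub_distrib, ← sum_add_distrib]
      exact sum_congr rfl fun x _ => by ring
    rw [this, hUU']
    ring
  -- growth
  have hgr : ∑ x, U' x ^ 2 ≤ ∑ x, ce K₁ v x ^ 2 := by
    rw [← pot_sum K' fun x => ce K₁ v x ^ 2]
    refine sum_le_sum fun x _ => ?_
    have d1 : U' x ≤ ce K' (ce K₁ v) x := by
      rw [pot_tower K₁ K' hK3 v x]
      exact pot_mono K' huv x
    exact (pow_le_pow_left₀ (hU'0 x) d1 2).trans (pot_jensen K' _ x)
  rw [hpy] at hsum
  linarith

end pot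

theorem pot : SPot := by
  intro n α K χ hK hχ
  have hsg : ∀ (i : ℕ) (x : Q n), sg i x ^ 2 ≤ 1 := by
    intro i x
    unfold sg
    split_ifs <;> norm_num
  have hstep : ∀ i ∈ range n, av (fun x => ce (K i) (fun x => sg i x * ind (χ i x)) x ^ 2) ≤
      2 * (av (fun x => ce (K (i + 1)) (fun x => ind (χ (i + 1) x)) x ^ 2) -
        av (fun x => ce (K i) (fun x => ind (χ i x)) x ^ 2)) +
      2 * av (fun x => ce (K i) (sg i) x ^ 2) := by
    intro i hi
    have h1 := pot_step (K i) (K (i + 1)) (sg i) (fun x => ind (χ i x))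
      (fun x => ind (χ (i + 1) x)) (hsg i) (hK i (mem_range.1 hi))
      (fun x => pot_ind_nonneg _) (fun x => pot_ind_le _)
      (fun x => pot_ind_mono (hχ i (mem_range.1 hi) x))
    unfold av
    have h2 : (0 : ℝ) < 2 ^ n := by positivity
    rw [← sub_div, mul_div_assoc', mul_div_assoc', ← add_div]
    exact div_le_div_of_nonneg_right h1 h2.le
  refine (sum_le_sum hstep).trans ?_
  rw [sum_add_distrib, ← mul_sum, ← mul_sum,
    sum_range_sub (fun i => av (fun x => ce (K i) (fun x => ind (χ i x)) x ^ 2)) n]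
  have h3 : 0 ≤ av (fun x => ce (K 0) (fun x => ind (χ 0 x)) x ^ 2) :=
    av_nonneg fun x => sq_nonneg _
  have h4 : av (fun x => ce (K n) (fun x => ind (χ n x)) x ^ 2) ≤ av (fun x => ind (χ n x)) := by
    unfold av
    refine div_le_div_of_nonneg_right ?_ (by positivity)
    rw [← pot_sum (K n) fun x => ind (χ n x)]
    refine sum_le_sum fun x _ => (pot_jensen (K n) _ x).trans ?_
    simp only [pot_ind_sq]
    exact le_rfl
  linarith

end Pool.Agent.H79.RV
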