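import Pool.Agent.H79.RV.Defs
import Pool.Agent.H79.RU.Stm

/-!
# MP_a7284e_an, project RV: statements of the rows on cubes
-/

set_option autoImplicit false

namespace Pool.Agent.H79.RV

open Finset Classical
open Pool.Agent.H79.RT Pool.Agent.H79.RU

/-- V0: basic facts on conditional expectations on the product of two cubes -/
def SC2 : Prop := ∀ (n m i j : ℕ),
  (∀ F : Q n → Q m → ℝ, Pr i j (c2 i j F)) ∧
  (∀ (F : Q n → Q m → ℝ) (b : Q n → Q m → ℝ), Pr i j b →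
    av2 (fun x y => c2 i j F x y * b x y) = av2 fun x y => F x y * b x y) ∧
  (∀ F G : Q n → Q m → ℝ, (∀ x y, F x y ≤ G x y) → ∀ x y, c2 i j F x y ≤ c2 i j G x y) ∧
  (∀ F G : Q n → Q m → ℝ, ∀ x y, c2 i j (fun x y => F x y + G x y) x y =
    c2 i j F x y + c2 i j G x y) ∧
  (∀ (F : Q n → Q m → ℝ) (x : Q n) (y : Q m), |c2 i j F x y| ≤ c2 i j (fun x y => |F x y|) x y)

/-- V1: entropy. The coordinate signs are almost unpredictable -/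
def SEnt : Prop := ∀ (n : ℕ) (α : Type) (K : ℕ → Q n → α) (r : ℕ → Q n → ℕ), Ref K → Brn K r →
  ∑ i ∈ range n, av (fun x => ce (K i) (sg i) x ^ 2) ≤
    4 * ∑ i ∈ range n, av fun x => (r i x : ℝ)

/-- V2: potential. Increasing events -/
def SPot : Prop := ∀ (n : ℕ) (α : Type) (K : ℕ → Q n → α) (χ : ℕ → Q n → Prop), Ref K →
  (∀ i < n, ∀ x, χ i x → χ (i + 1) x) →
  ∑ i ∈ range n, av (fun x => ce (K i) (fun x => sg i x * ind (χ i x)) x ^ 2) ≤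
    2 * av (fun x => ind (χ n x)) + 2 * ∑ i ∈ range n, av (fun x => ce (K i) (sg i) x ^ 2)

/-- V3: the one-parameter inequality in dual form -/
def SDu : Prop := ∀ (n : ℕ) (α : Type) (K : ℕ → Q n → α) (r : ℕ → Q n → ℕ)
  (χ : ℕ → Q n → Prop) (W : ℕ → Q n → ℝ), Ref K → Brn K r →
  (∀ i < n, ∀ x, χ i x → χ (i + 1) x) → (∀ i < n, ∀ x x', K i x = K i x' → W i x = W i x') →
  (∑ i ∈ range n, av fun x => sg i x * ind (χ i x) * W i x) ^ 2 ≤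
    (2 * av (fun x => ind (χ n x)) + 8 * ∑ i ∈ range n, av fun x => (r i x : ℝ)) *
      ∑ i ∈ range n, av fun x => W i x ^ 2

/-- V4: sites to the right of the top marked site (the top site has a smaller `i`) -/
def SLeft : Prop := ∃ C : ℝ, 0 ≤ C ∧ ∀ (n m : ℕ) (τ : ℕ → ℕ → ℕ)
  (μ : ℕ → ℕ → Q n → Q m → Prop) (T : Q n → Q m → ℕ) (b : ℕ → ℕ → Q n → Q m → ℝ), Clk τ →
  (∀ i j, Pr i j (μ i j)) → (∀ i j, Pr i j (b i j)) →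
  pair b (fun i j x y => τ i j < tp τ μ T n m x y ∧ tp τ μ T i m x y = tp τ μ T n m x y) ^ 2 ≤
    C * (sup0 T + cnt μ) * nrg b

/-- V5a: the maximal inequality for rectangular partial sums -/
def SRect : Prop := ∃ C : ℝ, 0 ≤ C ∧ ∀ (n m : ℕ) (b : ℕ → ℕ → Q n → Q m → ℝ),
  (∀ i j, Pr i j (b i j)) → ∃ M : Q n → Q m → ℝ, (∀ x y, 0 ≤ M x y) ∧
    (∀ x y, ∀ I ≤ n, ∀ J ≤ m,
      |∑ i ∈ range I, ∑ j ∈ range J, sg i x * sg j y * b i j x y| ≤ M x y) ∧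
    av2 (fun x y => M x y ^ 2) ≤ C * nrg b

/-- V5: sites that contain the top marked site -/
def SDeep : Prop := ∃ C : ℝ, 0 ≤ C ∧ ∀ (n m : ℕ) (τ : ℕ → ℕ → ℕ)
  (μ : ℕ → ℕ → Q n → Q m → Prop) (T : Q n → Q m → ℕ) (b : ℕ → ℕ → Q n → Q m → ℝ), Clk τ →
  (∀ i j, Pr i j (μ i j)) → (∀ i j, Pr i j (b i j)) →
  pair b (fun i j x y => τ i j < tp τ μ T n m x y ∧ tp τ μ T i m x y ≠ tp τ μ T n m x y ∧
      tp τ μ T n j x y ≠ tp τ μ T n m x y) ^ 2 ≤ C * sup0 T * nrg b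

/-- V6: all sites below the top marked site -/
def STop : Prop := ∃ C : ℝ, 0 ≤ C ∧ ∀ (n m : ℕ) (τ : ℕ → ℕ → ℕ)
  (μ : ℕ → ℕ → Q n → Q m → Prop) (T : Q n → Q m → ℕ) (b : ℕ → ℕ → Q n → Q m → ℝ), Clk τ →
  (∀ i j, Pr i j (μ i j)) → (∀ i j, Pr i j (b i j)) →
  pair b (fun i j x y => τ i j < tp τ μ T n m x y) ^ 2 ≤ C * (sup0 T + cnt μ) * nrg b

/-- V7: random marks -/
def SMark : Prop := ∀ (ι σ : Type) [Fintype ι] (M : ℕ), 1 ≤ M →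
  (∀ k : ι, (M : ℝ) * ∑ g : ι → Fin M, ind ((g k : ℕ) = 0) = (M : ℝ) ^ Fintype.card ι) ∧
  ∀ (S : Finset σ) (key : σ → ι) (τ : σ → ℕ), Set.InjOn key S → Set.InjOn τ S →
    ∑ g : ι → Fin M, ∑ s ∈ S, ind (∀ s' ∈ S, τ s < τ s' → (g (key s') : ℕ) ≠ 0) ≤
      M * (M : ℝ) ^ Fintype.card ι

/-- V8a: one family of marks among the charged sites -/
def SOne : Prop := ∃ C : ℝ, 0 ≤ C ∧ ∀ (n m : ℕ) (τ : ℕ → ℕ → ℕ) (T : Q n → Q m → ℕ)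
  (μ : ℕ → ℕ → Q n → Q m → Prop) (κ : ℝ), Clk τ → (∀ i j, Pr i j (μ i j)) → 0 < κ → κ ≤ 1 →
  cnt (fun i j x y => κ ≤ |dd τ T i j x y|) ≤ C / κ ^ 2 * (sup0 T + cnt μ) +
    2 / κ * cnt (fun i j x y => κ ≤ |dd τ T i j x y| ∧ τ i j ≤ T x y ∧
      tp τ μ T n m x y ≤ τ i j)

/-- V8: the count theorem -/
def SCount : Prop := ∃ C : ℝ, 0 ≤ C ∧ ∀ (n m : ℕ) (τ : ℕ → ℕ → ℕ) (T : Q n → Q m → ℕ) (κ : ℝ),
  Clk τ → 0 < κ → κ ≤ 1 →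
  cnt (fun i j x y => κ ≤ |dd τ T i j x y|) ≤ C / κ ^ 3 * sup0 T

/-- V9: powers -/
def SPow : Prop := ∀ p : ℝ, 2 < p → ∃ C : ℝ, 0 ≤ C ∧ ∀ (n m : ℕ) (τ : ℕ → ℕ → ℕ)
  (T : Q n → Q m → ℕ), Clk τ →
  ∑ i ∈ range n, ∑ j ∈ range m, av2 (fun x y => |dd τ T i j x y| ^ p) ≤ C * sup0 T

/-- V10: the times `tri` -/
def STri : Prop := Clk tri ∧ ∀ i j k : ℕ, i + j ≤ k ↔ tri i j ≤ (k + 1) * (k + 2) / 2

/-- V11: the weak type inequality on cubes -/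
def SWeak : Prop := ∀ q : ℝ, 1 < q → q < 2 → ∃ C : ℝ, 0 ≤ C ∧ ∀ (n m : ℕ)
  (D A : ℕ → ℕ → Q n → Q m → ℝ), Ar2 n m D A → ∀ t : ℝ, 0 < t →
    av2 (fun x y => ind (t < MX D x y)) ≤ C / t ^ q *
      ∑ i ∈ range n, ∑ j ∈ range m, av2 fun x y => A i j x y ^ q

/-! ### second version: the exact entropy of the chosen site -/

section two

variable {n m : ℕ}

/-- at most one chosen site, and it is one of the `n * m` sites -/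
def Sng (S : ℕ → ℕ → Q n → Q m → Prop) : Prop :=
  (∀ i j x y, S i j x y → i < n ∧ j < m) ∧
    ∀ i j i' j' x y, S i j x y → S i' j' x y → i = i' ∧ j = j'

/-- the conditional probability that the site `(i, j)` is the chosen one -/
noncomputable def mm (S : ℕ → ℕ → Q n → Q m → Prop) (i j : ℕ) (x : Q n) (y : Q m) : ℝ :=
  c2 i j (fun x y => ind (S i j x y)) x y

/-- the entropy of the chosen site -/
noncomputable def ent' (S : ℕ → ℕ → Q n → Q m → Prop) : ℝ :=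
  ∑ i ∈ range n, ∑ j ∈ range m, av2 fun x y => Real.negMulLog (mm S i j x y)

/-- the coordinates `< i` and the values `v a`, `a < i` -/
def Kv (v : ℕ → Q n → ℕ) (i : ℕ) (x : Q n) : Q n × (ℕ → ℕ) :=
  (mix i x fun _ => false, fun a => if a < i then v a x else 0)

end two

/-- W1: entropy -/
def SEnt2 : Prop := ∀ (n m : ℕ) (v : ℕ → Q n → ℕ) (w : ℕ → ℕ → Q n → ℝ),
  (∀ i x, v i x ≤ m) → (∀ i x, w i 0 x = 1) → (∀ i j, Inv i (w i j)) →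
  (∀ i j x, 0 ≤ w i j x) → (∀ i x, 0 < w i (v i x) x) →
  ∑ i ∈ range n, av (fun x => ce (Kv v i) (sg i) x ^ 2) ≤
    4 * ∑ i ∈ range n, av fun x => -Real.log (w i (v i x) x) + ∑ j ∈ range m, w i (j + 1) x

/-- W3: the one-parameter inequality in dual form -/
def SDu2 : Prop := ∀ (n m : ℕ) (v : ℕ → Q n → ℕ) (w : ℕ → ℕ → Q n → ℝ) (W : ℕ → Q n → ℝ),
  (∀ i x, v i x ≤ m) → (∀ i x, w i 0 x = 1) → (∀ i j, Inv i (w i j)) →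
  (∀ i j x, 0 ≤ w i j x) → (∀ i x, 0 < w i (v i x) x) →
  (∀ i < n, ∀ x x', Kv v i x = Kv v i x' → W i x = W i x') →
  (∑ i ∈ range n, av fun x => sg i x * W i x) ^ 2 ≤
    (4 * ∑ i ∈ range n, av fun x => -Real.log (w i (v i x) x) + ∑ j ∈ range m, w i (j + 1) x) *
      ∑ i ∈ range n, av fun x => W i x ^ 2

/-- W4: the chosen site has a smaller `i` -/
def SLeft2 : Prop := ∃ C : ℝ, 0 ≤ C ∧ ∀ (n m : ℕ) (τ : ℕ → ℕ → ℕ)
  (S : ℕ → ℕ → Q n → Q m → Prop) (b : ℕ → ℕ → Q n → Q m → ℝ), Clk τ → Sng S →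
  (∀ i j, Pr i j (b i j)) →
  pair b (fun i j x y => ∃ a c, S a c x y ∧ a < i ∧ τ i j < τ a c) ^ 2 ≤
    C * (cnt S + ent' S) * nrg b

/-- W5: the chosen site is contained in the site `(i, j)` -/
def SDeep2 : Prop := ∃ C : ℝ, 0 ≤ C ∧ ∀ (n m : ℕ) (τ : ℕ → ℕ → ℕ)
  (S : ℕ → ℕ → Q n → Q m → Prop) (b : ℕ → ℕ → Q n → Q m → ℝ), Clk τ → Sng S →
  (∀ i j, Pr i j (b i j)) →
  pair b (fun i j x y => ∃ a c, S a c x y ∧ i ≤ a ∧ j ≤ c ∧ τ i j < τ a c) ^ 2 ≤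
    C * cnt S * nrg b

/-- W6: all sites before the chosen site -/
def STop2 : Prop := ∃ C : ℝ, 0 ≤ C ∧ ∀ (n m : ℕ) (τ : ℕ → ℕ → ℕ)
  (S : ℕ → ℕ → Q n → Q m → Prop) (b : ℕ → ℕ → Q n → Q m → ℝ), Clk τ → Sng S →
  (∀ i j, Pr i j (b i j)) →
  pair b (fun i j x y => ∃ a c, S a c x y ∧ τ i j < τ a c) ^ 2 ≤ C * (cnt S + ent' S) * nrg b

/-- W8: the count theorem -/
def SCount2 : Prop := ∀ r : ℝ, 2 < r → ∃ C : ℝ, 0 ≤ C ∧ ∀ (n m : ℕ) (τ : ℕ → ℕ → ℕ)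
  (T : Q n → Q m → ℕ) (κ : ℝ), Clk τ → 0 < κ → κ ≤ 1 →
  cnt (fun i j x y => κ ≤ |dd τ T i j x y|) ≤ C / κ ^ r * sup0 T

end Pool.Agent.H79.RV
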