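import Pool.Agent.H79.RV.StmR

/-!
# MP_a7284e_an, project RV: third version, general weights; one logarithm of the amplitude
-/

set_option autoImplicit false

namespace Pool.Agent.H79.RV

open MeasureTheory FourierTransform Filter Topology Finset Classical ENNReal
open Pool.Agent.H73.Hyp
open Pool.Agent.H79.RT Pool.Agent.H79.RU

/-! ### cubes -/

/-- X8: the energy of the charged sites -/
def SEng : Prop := ∃ C : ℝ, 0 ≤ C ∧ ∀ (n m : ℕ) (τ : ℕ → ℕ → ℕ) (T : Q n → Q m → ℕ) (κ : ℝ),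
  Clk τ → 0 < κ → κ ≤ 1 →
  ∑ i ∈ range n, ∑ j ∈ range m, av2 (fun x y => ind (κ ≤ |dd τ T i j x y|) *
    dd τ T i j x y ^ 2) ≤ C * (1 + Real.log (1 / κ)) * sup0 T

/-- X11: the weak type inequality for amplitudes that are `0` or at least `α` -/
def SWkA : Prop := ∃ C : ℝ, 0 ≤ C ∧ ∀ (n m : ℕ) (D A : ℕ → ℕ → Q n → Q m → ℝ) (α t : ℝ),
  Ar2 n m D A → 0 < α → 0 < t → (∀ i j x y, A i j x y = 0 ∨ α ≤ A i j x y) →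
    av2 (fun x y => ind (t < MX D x y)) ≤ C / t ^ 2 * (1 + max 0 (Real.log (t / α))) *
      ∑ i ∈ range n, ∑ j ∈ range m, av2 fun x y => A i j x y ^ 2

/-- the weight -/
noncomputable def lw (β a : ℝ) : ℝ := a ^ 2 * (1 + max 0 (Real.log (1 / a))) ^ β

/-- the constant -/
noncomputable def cw (C t : ℝ) : ℝ := C / t ^ 2 * (1 + max 0 (Real.log t))

/-- a weak type inequality on cubes with weight `Φ` and constants `c t` -/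
structure Wt (Φ c : ℝ → ℝ) : Prop where
  meas : Measurable Φ
  nn : ∀ s, 0 ≤ Φ s
  zero : Φ 0 = 0
  pos : ∀ t, 0 < t → 0 < c t
  ineq : ∀ (n m : ℕ) (D A : ℕ → ℕ → Q n → Q m → ℝ), Ar2 n m D A → ∀ t : ℝ, 0 < t →
    av2 (fun x y => ind (t < MX D x y)) ≤ c t *
      ∑ i ∈ range n, ∑ j ∈ range m, av2 fun x y => Φ (A i j x y)

/-- X12: the weak type inequality with one logarithm of the amplitude -/
def SLw : Prop := ∀ β : ℝ, 1 < β → ∃ C : ℝ, 0 < C ∧ Wt (lw β) (cw C)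

/-! ### the plane -/

/-- the sum over all dyadic rectangles `R` of `|R| Φ (a_R)`, `a_R` the amplitude
`|⟨f, h_R⟩| / |R| ^ (1 / 2)` -/
noncomputable def AF (Φ : ℝ → ℝ) (f : L2) : ℝ≥0∞ :=
  ∑' p : ℤ × ℤ, ∑' r : ℤ × ℤ, ENNReal.ofReal ((2 : ℝ) ^ (-(p.1 + r.1)) *
    Φ ((2 : ℝ) ^ (((p.1 + r.1 : ℤ) : ℝ) / 2) * ‖cf f p r‖))

/-- F1: transfer to the plane -/
def STrF : Prop := ∀ Φ c : ℝ → ℝ, Wt Φ c → ∀ (L L' : ℕ) (f : L2) (K : Finset ℤ) (t : ℝ), 0 < t →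
  volume {z : E2 | ∃ k ∈ K, t < ‖Xs L L' k f z‖} ≤ ENNReal.ofReal (2 * c (t / 2)) *
    ∑ i ∈ range (2 * L), ∑ j ∈ range (2 * L'), ∫⁻ z : E2, ENNReal.ofReal (Φ ‖bb L L' f i j z‖)

/-- F2: the pieces in terms of Haar coefficients -/
def SAF : Prop := ∀ Φ : ℝ → ℝ, Measurable Φ → (∀ s, 0 ≤ Φ s) → ∀ (f : L2) (L L' : ℕ),
  ∑ i ∈ range (2 * L), ∑ j ∈ range (2 * L'), ∫⁻ z : E2, ENNReal.ofReal (Φ ‖bb L L' f i j z‖) ≤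
    AF Φ f

/-- F4: the weak type inequality for the sharp hyperbolic cut-offs -/
def SMaxF : Prop := ∃ C : ℝ, 0 ≤ C ∧ ∀ Φ c : ℝ → ℝ, Wt Φ c → ∀ (f : L2) (t : ℝ), 0 < t →
  volume {z : E2 | ∃ k : ℤ, t < ‖Hc k f z‖} ≤ ENNReal.ofReal (2 * c (t / 4)) * AF Φ f +
    ENNReal.ofReal (C / t ^ 2 * ‖f‖ ^ 2)

/-- F5: the tails -/
def STailF : Prop := ∀ Φ : ℝ → ℝ, (∀ s, 0 ≤ Φ s) → Φ 0 = 0 → ∀ f : L2, AF Φ f ≠ ⊤ →
  Tendsto (fun b : ℕ => AF Φ (f - Ep (Uf 0) (b : ℤ) (Ep (Uf 1) (b : ℤ) f))) atTop (𝓝 0) ∧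
  Tendsto (fun b : ℕ => ‖f - Ep (Uf 0) (b : ℤ) (Ep (Uf 1) (b : ℤ) f)‖) atTop (𝓝 0)

/-- F7: convergence of the sharp cut-offs -/
def SConvF : Prop := ∀ Φ c : ℝ → ℝ, Wt Φ c → ∀ f : L2, AF Φ f ≠ ⊤ →
  ∀ᵐ x : E2, Tendsto (fun k : ℕ => Hc k f x) atTop (𝓝 (f x))

/-- F8: real parameters; weak type inequality and convergence -/
def SRealF : Prop := ∀ (lam : ℝ) (hl0 : 0 < lam), 1 / 2 < lam → ∃ C : ℝ, 0 ≤ C ∧
  ∀ Φ c : ℝ → ℝ, Wt Φ c → ∀ f : L2, AF Φ f ≠ ⊤ → ∃ v : ℝ → E2 → ℂ,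
    (∀ t, v t =ᵐ[volume] Ph lam hl0 f t) ∧ (∀ᵐ x : E2, Continuous fun t => v t x) ∧
    (∀ᵐ x : E2, Tendsto (fun t => v t x) atTop (𝓝 (f x))) ∧
    ∀ s : ℝ, 0 < s → volume {z : E2 | ∃ t : ℝ, s < ‖v t z‖} ≤
      ENNReal.ofReal (2 * c (s / 12)) * AF Φ f + ENNReal.ofReal (C / s ^ 2 * ‖f‖ ^ 2)

end Pool.Agent.H79.RV
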