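import Pool.Agent.H79.RU.StmR
import Pool.Agent.H79.RV.Stm

/-!
# MP_a7284e_an, project RV: statements of the rows on the plane
-/

set_option autoImplicit false

namespace Pool.Agent.H79.RV

open MeasureTheory FourierTransform Filter Topology Finset Classical ENNReal
open Pool.Agent.H73.Hyp
open Pool.Agent.H79.RT Pool.Agent.H79.RU

/-- the sum over all dyadic rectangles `R` of `|R| |a_R| ^ q`, `a_R` the amplitude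
`⟨f, h_R⟩ / |R| ^ (1 / 2)` -/
noncomputable def Aq (q : ℝ) (f : L2) : ℝ≥0∞ :=
  ∑' p : ℤ × ℤ, ∑' r : ℤ × ℤ, ENNReal.ofReal ((2 : ℝ) ^ (-(p.1 + r.1)) *
    ((2 : ℝ) ^ (((p.1 + r.1 : ℤ) : ℝ) / 2) * ‖cf f p r‖) ^ q)

/-- P1: transfer of the weak type inequality on cubes to the plane -/
def STrV : Prop := ∀ q : ℝ, 1 < q → q < 2 → ∃ C : ℝ, 0 ≤ C ∧ ∀ (L L' : ℕ) (f : L2)
  (K : Finset ℤ) (t : ℝ), 0 < t →
  volume {z : E2 | ∃ k ∈ K, t < ‖Xs L L' k f z‖} ≤ ENNReal.ofReal (C / t ^ q) *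
    ∑ i ∈ range (2 * L), ∑ j ∈ range (2 * L'), ∫⁻ z : E2, ENNReal.ofReal (‖bb L L' f i j z‖ ^ q)

/-- P2: the norms of the pieces in terms of Haar coefficients -/
def SAq : Prop := ∀ q : ℝ, 1 < q → ∀ (f : L2) (L L' : ℕ),
  ∑ i ∈ range (2 * L), ∑ j ∈ range (2 * L'), ∫⁻ z : E2, ENNReal.ofReal (‖bb L L' f i j z‖ ^ q) ≤
    Aq q f

/-- P3: the difference between the sharp hyperbolic cut-offs and the dyadic sums -/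
def SCmp : Prop := ∃ C : ℝ, 0 ≤ C ∧ ∀ (f : L2) (K : Finset ℤ), ∃ L L' : ℕ,
  Maj K (fun k => Hc k f - Xs L L' k f) (C * ‖f‖ ^ 2)

/-- P4: the weak type inequality for the sharp hyperbolic cut-offs -/
def SMaxV : Prop := ∀ q : ℝ, 1 < q → q < 2 → ∃ C : ℝ, 0 ≤ C ∧ ∀ (f : L2) (t : ℝ), 0 < t →
  volume {z : E2 | ∃ k : ℤ, t < ‖Hc k f z‖} ≤ ENNReal.ofReal (C / t ^ q) * Aq q f +
    ENNReal.ofReal (C / t ^ 2 * ‖f‖ ^ 2)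

/-- P5: the tails -/
def STailV : Prop := ∀ (q : ℝ), 1 < q → ∀ f : L2, Aq q f ≠ ⊤ →
  Tendsto (fun b : ℕ => Aq q (f - Ep (Uf 0) (b : ℤ) (Ep (Uf 1) (b : ℤ) f))) atTop (𝓝 0) ∧
  Tendsto (fun b : ℕ => ‖f - Ep (Uf 0) (b : ℤ) (Ep (Uf 1) (b : ℤ) f)‖) atTop (𝓝 0)

/-- P6: closure of almost everywhere convergence -/
def SClo : Prop := ∀ f : L2, (∀ ε : ℝ, 0 < ε → ∃ g : L2, ‖f - g‖ ^ 2 ≤ ε ∧
    volume {z : E2 | ∃ k : ℤ, ε < ‖Hc k (f - g) z‖} ≤ ENNReal.ofReal ε ∧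
    ∀ᵐ x : E2, Tendsto (fun k : ℕ => Hc k g x) atTop (𝓝 (g x))) →
  ∀ᵐ x : E2, Tendsto (fun k : ℕ => Hc k f x) atTop (𝓝 (f x))

/-- P7: convergence of the sharp cut-offs -/
def SConvV : Prop := ∀ q : ℝ, 1 < q → q < 2 → ∀ f : L2, Aq q f ≠ ⊤ →
  ∀ᵐ x : E2, Tendsto (fun k : ℕ => Hc k f x) atTop (𝓝 (f x))

/-- P8: real parameters; weak type inequality and convergence -/
def SRealV : Prop := ∀ (lam : ℝ) (hl0 : 0 < lam), 1 / 2 < lam → ∀ q : ℝ, 1 < q → q < 2 →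
  ∃ C : ℝ, 0 ≤ C ∧ ∀ f : L2, Aq q f ≠ ⊤ → ∃ v : ℝ → E2 → ℂ,
    (∀ t, v t =ᵐ[volume] Ph lam hl0 f t) ∧ (∀ᵐ x : E2, Continuous fun t => v t x) ∧
    (∀ᵐ x : E2, Tendsto (fun t => v t x) atTop (𝓝 (f x))) ∧
    ∀ s : ℝ, 0 < s → volume {z : E2 | ∃ t : ℝ, s < ‖v t z‖} ≤
      ENNReal.ofReal (C / s ^ q) * Aq q f + ENNReal.ofReal (C / s ^ 2 * ‖f‖ ^ 2)

end Pool.Agent.H79.RV
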